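import Pool.Agent.AA.Out
import Pool.Agent.PolD.Out

/-!
# MP_8bf9c2_nt: for one of `d = D, 2 D, .., N D` almost all `a`

`Adm a d`: `gcd(a, d) = 1` and `2 ∣ a d` (the hypotheses of the question).
`Good a d`: `Adm a d` and `a + q d` is prime for infinitely many primes `q`.

`result`: for every `ε > 0` there is `N` such that for EVERY `D ≥ 1` there is `H` such that for every interval
`J = (x, x + X]` with `X ≥ H` one of `d = D, 2 D, .., N D` has the property that at least `(1 - ε)` of the admissible `a` in `J`
are good: for one of these `d` the question has a positive answer for almost all `a` of the interval.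

Proof (formalised from scratch).  Input: the theorem on four groups of linear forms (`Pool/Agent/PolD/Out.lean`, `dhlg4`;
Maynard-Tao sieve, dispersion method, upper bound sieve for pairs): among `R` admissible linear forms `s n + h` two are
simultaneously prime infinitely often.  If the theorem fails, there are bases `D_1, D_2, ..` of higher and higher
divisibility and invariant means `M_j` on `ℤ` for which all sets `B_d` of bad `a`, `d = D_j t`, `t ≤ N_j`, have relative mean at
least `ε`.  Choose slopes `λ_j = D_j L_j e a` with `e` in a multiplicatively almost invariant set and `a` in a set with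
`(a - a') ∣ a`.  The nested mean of `∏_(i<j) 1_B(F_j - (λ_j/λ_i) F_i)` over `F_1, .., F_r` is compared with the product of the
means of `∏_i P_0 1_B`, `P_0` the projection on the vectors fixed by the shift by `λ_j/λ_i`, in the Hilbert space of the mean
`M_j`: the error is small on average over the slopes, because eigenvectors of the shifts by `g` and `g'`, `(g - g') ∣ g`, for the same
eigenvalue `≠ 1` are orthogonal.  So for suitable slopes the nested mean over a suitable set of `R` levels is positive
(`Pool/Agent/AA`), which gives `R` admissible forms `λ_j n + F_j`, all pairs bad: a contradiction.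
-/

namespace Pool.Agent.MP_8bf9c2_nt.AlmostAll

/-- `(a, d)` is admissible: `gcd(a, d) = 1` and `2 ∣ a d` -/
def Adm (a d : ℤ) : Prop := Int.gcd a d = 1 ∧ 2 ∣ a * d

/-- `(a, d)` is admissible and `a + q d` is prime for infinitely many primes `q` -/
def Good (a d : ℤ) : Prop :=
  Int.gcd a d = 1 ∧ 2 ∣ a * d ∧ {q : ℕ | q.Prime ∧ ∃ p : ℕ, p.Prime ∧ (p : ℤ) = a + q * d}.Infinite

theorem result (ε : ℝ) (hε : 0 < ε) :
    ∃ N : ℕ, ∀ D : ℕ, 0 < D → ∃ H : ℕ, ∀ (x : ℤ) (X : ℕ), H ≤ X → ∃ t : ℕ, 0 < t ∧ t ≤ N ∧
      (1 - ε) * ({a : ℤ | x < a ∧ a ≤ x + X ∧ Adm a (D * t : ℕ)}.ncard : ℝ) ≤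
        ({a : ℤ | x < a ∧ a ≤ x + X ∧ Good a (D * t : ℕ)}.ncard : ℝ) := by
  obtain ⟨k, hk, hD⟩ := Pool.Agent.PolD.dhlg4
  exact Pool.Agent.AA.main hk hD ε hε

end Pool.Agent.MP_8bf9c2_nt.AlmostAll
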