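import Pool.Agent.AmS.Main

/-!
# MP_8bf9c2_nt: a third of every amenable semigroup of maps `q ↦ a + q d` takes infinitely many primes to primes

Q1 asks whether for every pair `(a, d)`, `d ≥ 1`, `gcd(a, d) = 1`, `2 ∣ a d`, the map `f(q) = a + q d` takes infinitely
many primes to primes.

`result`: let `S` be ANY set of such pairs which is closed under composition of the maps.  For every `ε > 0` there are a
finite subset `F` of `S` and `δ > 0` such that every finite nonempty `Φ ⊂ S` which is invariant up to `δ` under right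
composition with the elements of `F`, `#{f ∈ Φ : f ∘ g ∉ Φ} ≤ δ #Φ` for `g ∈ F`, contains at least `(1/3 - ε) #Φ` maps
which take infinitely many primes to primes.  So at least a third of `S` has the property of Q1 along every right Foelner
sequence of `S`; there is no averaging over `a`.

Examples.  `S = {f^m : m ≥ 1}` and `Φ` = long intervals: for EVERY `f` at least a third of the iterates `f^m`, in every
long interval of `m`.  For a rational number `c = u / v ≠ 0` the maps `f(q) = d (q + c) - c`, that is, the pairs
`(c (d - 1), d)`, with `d ≡ 1 mod v` (`mod 2 v` if `v` is even) and `gcd(d, u) = 1`; `Φ` = a Foelner set of the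
multiplicative semigroup of these `d`, for `c = 1` or `c = -1` for example the divisors of `(n!)^n`: for at least a third of
these `d` the number `d (q + c) - c` is prime for infinitely many primes `q`.  The translations by even numbers.

Proof.  If more than `2/3 + ε` of the maps of sufficiently invariant sets `Φ` are bad, four arbitrarily large groups of
maps `L` in `S` are built greedily (`AmS/Greedy.lean`) such that `L' ∘ L⁻¹` is a bad element of `S` for `L`, `L'` in
different groups: for most `y` in `Φ` and given `t` one has `y = s ∘ t` with `s` in `Φ`.  The theorem on four groups of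
linear forms (`PolD.dhlg4`; Maynard-Tao sieve, dispersion method, upper bound sieve for pairs) forbids this if the forms
are admissible (`AmS/NoFour.lean`): inside each group the maps are constant modulo all small primes; `2` never is an
obstruction, four classes are harmless modulo `p ≥ 5`, and for `p = 3` either a map constant modulo `3` exists (then all
groups are taken constant modulo 3), or the image of `S` is a subgroup `M` of the affine group of `F_3`, the fibres over
`M` are equidistributed in `Φ`, and whenever the shares of good maps in the fibres have the sum `< #M / 3`, one of the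
patterns `(1,1,1,1)`, `(1,1,u,u)`, `(1,t,r,tr)`, `(1,t,r²,tr²)` can be built (`AmS/Comb.lean`, `AmS/Dens.lean`).
-/

set_option autoImplicit false

namespace Pool.Agent.Results.MP_8bf9c2_nt.AmenableSemigroups

/-- the composition `f ∘ g` of the maps `f(q) = f.1 + q f.2`, `g(q) = g.1 + q g.2` -/
def comp (f g : ℤ × ℕ) : ℤ × ℕ := (f.1 + f.2 * g.1, f.2 * g.2)

/-- `a + q d` is prime for infinitely many primes `q`, `f = (a, d)` -/
def Good (f : ℤ × ℕ) : Prop := {q : ℕ | q.Prime ∧ ∃ p : ℕ, p.Prime ∧ (p : ℤ) = f.1 + q * f.2}.Infinite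

open Classical in
theorem result (S : Set (ℤ × ℕ)) (hS : ∀ f ∈ S, 0 < f.2 ∧ Int.gcd f.1 f.2 = 1 ∧ 2 ∣ f.1 * f.2)
    (hcomp : ∀ f ∈ S, ∀ g ∈ S, comp f g ∈ S) (ε : ℝ) (hε : 0 < ε) :
    ∃ (F : Finset (ℤ × ℕ)) (δ : ℝ), (∀ g ∈ F, g ∈ S) ∧ 0 < δ ∧
      ∀ Φ : Finset (ℤ × ℕ), Φ.Nonempty → (∀ f ∈ Φ, f ∈ S) →
        (∀ g ∈ F, ((Φ.filter fun f => comp f g ∉ Φ).card : ℝ) ≤ δ * Φ.card) →
        (1 / 3 - ε) * Φ.card ≤ ((Φ.filter fun f => Good f).card : ℝ) := by
  obtain ⟨F, δ, hF, hδ, H⟩ := Pool.Agent.AmS.main S hS hcomp ε hε
  refine ⟨F, δ, hF, hδ, fun Φ hne hΦ hinv => ?_⟩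
  have h1 := H Φ hne hΦ (fun g hg => by
    have h2 : Pool.Agent.AmS.ct Φ (fun f => Pool.Agent.AmS.cmp f g ∉ Φ) = (Φ.filter fun f => comp f g ∉ Φ).card :=
      Pool.Agent.AmS.ct_eq Φ (fun f => comp f g ∉ Φ)
    rw [h2]
    exact hinv g hg)
  have h3 : Pool.Agent.AmS.ct Φ Pool.Agent.AmS.GdP = (Φ.filter fun f => Good f).card :=
    Pool.Agent.AmS.ct_eq Φ Good
  rwa [h3] at h1

end Pool.Agent.Results.MP_8bf9c2_nt.AmenableSemigroups
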