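import Mathlib

/-!
# Torsion fibres of Dickson polynomials of order 3^e and 2^k

`phi t = t^3 - 3 t`, `psi t = t^2 - 2`; with `t = z + 1/z` they are `z ↦ z^3`, `z ↦ z^2`.
-/

set_option autoImplicit false

namespace Pool.Agent.MP_8bf9c2_nt.Dickson

open Function

/-- the cubic map `t^3 - 3t` -/
def phi {R : Type*} [CommRing R] (t : R) : R := t ^ 3 - 3 * t

/-- the quadratic map `t^2 - 2` -/
def psi {R : Type*} [CommRing R] (t : R) : R := t ^ 2 - 2

/-- the Dickson polynomial of degree `2^k 3^e`, as a map -/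
def T {R : Type*} [CommRing R] (k e : ℕ) (t : R) : R := psi^[k] (phi^[e] t)

theorem iter_phi_add_inv {F : Type*} [Field F] (e : ℕ) (z : F) (hz : z ≠ 0) :
    phi^[e] (z + z⁻¹) = z ^ (3 ^ e) + (z ^ (3 ^ e))⁻¹ := by
  induction e with
  | zero => simp
  | succ e ih =>
    have h : ∀ y : F, y ≠ 0 → phi (y + y⁻¹) = y ^ 3 + (y ^ 3)⁻¹ := by
      intro y hy
      unfold phi; field_simp; ring
    rw [Function.iterate_succ_apply', ih, h _ (pow_ne_zero _ hz), ← pow_mul, pow_succ]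

theorem iter_psi_add_inv {F : Type*} [Field F] (k : ℕ) (z : F) (hz : z ≠ 0) :
    psi^[k] (z + z⁻¹) = z ^ (2 ^ k) + (z ^ (2 ^ k))⁻¹ := by
  induction k with
  | zero => simp
  | succ k ih =>
    have h : ∀ y : F, y ≠ 0 → psi (y + y⁻¹) = y ^ 2 + (y ^ 2)⁻¹ := by
      intro y hy
      unfold psi; field_simp; ring
    rw [Function.iterate_succ_apply', ih, h _ (pow_ne_zero _ hz), ← pow_mul, pow_succ]

theorem T_add_inv {F : Type*} [Field F] (k e : ℕ) (z : F) (hz : z ≠ 0) :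
    T k e (z + z⁻¹) = z ^ (3 ^ e * 2 ^ k) + (z ^ (3 ^ e * 2 ^ k))⁻¹ := by
  unfold T
  rw [iter_phi_add_inv e z hz, iter_psi_add_inv k _ (pow_ne_zero _ hz), ← pow_mul]

theorem iter_phi_cast {R : Type*} [CommRing R] (e : ℕ) (t : ℤ) :
    ((phi^[e] t : ℤ) : R) = phi^[e] (t : R) := by
  induction e with
  | zero => simp
  | succ e ih =>
    rw [Function.iterate_succ_apply', Function.iterate_succ_apply', ← ih]
    simp [phi]

theorem iter_psi_cast {R : Type*} [CommRing R] (k : ℕ) (t : ℤ) :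
    ((psi^[k] t : ℤ) : R) = psi^[k] (t : R) := by
  induction k with
  | zero => simp
  | succ e ih =>
    rw [Function.iterate_succ_apply', Function.iterate_succ_apply', ← ih]
    simp [psi]

theorem T_cast {R : Type*} [CommRing R] (k e : ℕ) (t : ℤ) :
    ((T k e t : ℤ) : R) = T k e (t : R) := by
  unfold T
  rw [iter_psi_cast, iter_phi_cast]

theorem iter_phi_neg (e : ℕ) (t : ℤ) : phi^[e] (-t) = - phi^[e] t := by
  induction e with
  | zero => simp
  | succ e ih =>
    rw [Function.iterate_succ_apply', Function.iterate_succ_apply', ih]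
    simp only [phi]; ring

theorem phi_sub_dvd (x y : ℤ) : x - y ∣ phi x - phi y :=
  ⟨x ^ 2 + x * y + y ^ 2 - 3, by unfold phi; ring⟩

theorem psi_sub_dvd (x y : ℤ) : x - y ∣ psi x - psi y :=
  ⟨x + y, by unfold psi; ring⟩

theorem iter_phi_sub_dvd (e : ℕ) (x y : ℤ) : x - y ∣ phi^[e] x - phi^[e] y := by
  induction e with
  | zero => simp
  | succ e ih =>
    rw [Function.iterate_succ_apply', Function.iterate_succ_apply']
    exact ih.trans (phi_sub_dvd _ _)

theorem iter_psi_sub_dvd (e : ℕ) (x y : ℤ) : x - y ∣ psi^[e] x - psi^[e] y := by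
  induction e with
  | zero => simp
  | succ e ih =>
    rw [Function.iterate_succ_apply', Function.iterate_succ_apply']
    exact ih.trans (psi_sub_dvd _ _)

theorem T_sub_dvd (k e : ℕ) (x y : ℤ) : x - y ∣ T k e x - T k e y :=
  (iter_phi_sub_dvd e x y).trans (iter_psi_sub_dvd k _ _)

/-- an element `z` with `z + 1/z` in the prime field has order dividing `p - 1` or `p + 1` -/
theorem order_dvd {F : Type*} [Field F] (p : ℕ) [CharP F p] (hp : p.Prime) (t : ℤ) (z : F)
    (hz0 : z ≠ 0) (ht : (t : F) = z + z⁻¹) :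
    orderOf z ∣ p - 1 ∨ orderOf z ∣ p + 1 := by
  have : Fact p.Prime := ⟨hp⟩
  have hzp : z ^ p = z ∨ z ^ p = z⁻¹ := by
    have h1 : z ^ p + (z ^ p)⁻¹ = z + z⁻¹ := by
      have h2 : (z + z⁻¹) ^ p = z ^ p + (z⁻¹) ^ p := add_pow_char z z⁻¹ p
      have h3 : ((t : F)) ^ p = (t : F) := by
        have h4 : (p : ℤ) ∣ t ^ p - t := by
          rw [← ZMod.intCast_zmod_eq_zero_iff_dvd]
          push_cast
          rw [ZMod.pow_card, sub_self]
        have h5 : ((t ^ p - t : ℤ) : F) = 0 := (CharP.intCast_eq_zero_iff F p _).2 h4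
        push_cast at h5
        exact sub_eq_zero.1 h5
      rw [← inv_pow, ← h2, ← ht, h3]
    have hzp0 : z ^ p ≠ 0 := pow_ne_zero _ hz0
    have h5 : (z ^ p - z) * (z ^ p - z⁻¹) = 0 := by
      have h6 : (z ^ p) ^ 2 + 1 = (z + z⁻¹) * z ^ p := by
        rw [← h1]; field_simp
      have h7 : z * z⁻¹ = 1 := mul_inv_cancel₀ hz0
      linear_combination h6 + h7
    rcases mul_eq_zero.1 h5 with h | h
    · left; exact sub_eq_zero.1 h
    · right; exact sub_eq_zero.1 h
  rcases hzp with h | h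
  · left
    apply orderOf_dvd_of_pow_eq_one
    have h1 : z ^ (p - 1) * z = z := by
      rw [← pow_succ, Nat.sub_add_cancel hp.one_lt.le, h]
    exact mul_right_cancel₀ hz0 (by rw [h1, one_mul])
  · right
    apply orderOf_dvd_of_pow_eq_one
    rw [pow_succ, h, inv_mul_cancel₀ hz0]

theorem exists_z (F : Type*) [Field F] [IsAlgClosed F] (t : F) :
    ∃ z : F, z ≠ 0 ∧ t = z + z⁻¹ := by
  obtain ⟨z, hz⟩ : ∃ z : F, z ^ 2 - t * z + 1 = 0 := by
    have hdeg : (Polynomial.X ^ 2 - Polynomial.C t * Polynomial.X + 1 :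
        Polynomial F).degree ≠ 0 := by
      have : (Polynomial.X ^ 2 - Polynomial.C t * Polynomial.X + 1 :
        Polynomial F) = Polynomial.C 1 * Polynomial.X ^ 2 + Polynomial.C (-t) * Polynomial.X +
          Polynomial.C 1 := by
        simp; ring
      rw [this, Polynomial.degree_quadratic one_ne_zero]
      decide
    obtain ⟨z, hz⟩ := IsAlgClosed.exists_root _ hdeg
    refine ⟨z, ?_⟩
    simpa [Polynomial.IsRoot] using hz
  have hz0 : z ≠ 0 := by
    rintro rfl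
    simp at hz
  refine ⟨z, hz0, ?_⟩
  field_simp
  linear_combination -hz

/-- prime divisors of `T ± 1` -/
theorem prime_dvd_T_add (k e : ℕ) (t σ : ℤ) (hσ : σ = 1 ∨ σ = -1) (p : ℕ) (hp : p.Prime)
    (hp3 : p ≠ 3) (h : (p : ℤ) ∣ T k e t + σ) :
    3 ^ (e + 1) ∣ p - 1 ∨ 3 ^ (e + 1) ∣ p + 1 := by
  have : Fact p.Prime := ⟨hp⟩
  set F := AlgebraicClosure (ZMod p) with hF
  have hchar : CharP F p := inferInstance
  obtain ⟨z, hz0, ht⟩ := exists_z F (t : F)
  set w : F := z ^ (3 ^ e * 2 ^ k) with hw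
  have hw0 : w ≠ 0 := pow_ne_zero _ hz0
  have hdvd : ((T k e t + σ : ℤ) : F) = 0 := by
    rw [CharP.intCast_eq_zero_iff F p]
    exact h
  set s : F := (σ : F) with hs
  have hs2 : s ^ 2 = 1 := by
    rcases hσ with h | h <;> rw [hs, h] <;> simp
  have hw1 : w + w⁻¹ + s = 0 := by
    have := hdvd
    push_cast at this
    rw [T_cast, ht, T_add_inv k e z hz0] at this
    exact this
  have hw2 : w ^ 2 + s * w + 1 = 0 := by
    have hmul : w * w⁻¹ = 1 := mul_inv_cancel₀ hw0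
    linear_combination w * hw1 - hmul
  have hw3 : w ^ 3 = s := by linear_combination (w - s) * hw2 + w * hs2
  have hw6 : w ^ 6 = 1 := by
    have : w ^ 6 = (w ^ 3) ^ 2 := by ring
    rw [this, hw3, hs2]
  have hwne : w ^ 2 ≠ 1 := by
    intro h1
    have h4 : s * w = -2 := by linear_combination hw2 - h1
    have h5 : (4 : F) = 1 := by
      have : (s * w) ^ 2 = 1 := by rw [mul_pow, hs2, h1, one_mul]
      rw [h4] at this
      linear_combination this
    have h3 : ((3 : ℕ) : F) = 0 := by push_cast; linear_combination h5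
    rw [CharP.cast_eq_zero_iff F p] at h3
    exact hp3 ((Nat.prime_dvd_prime_iff_eq hp Nat.prime_three).1 h3)
  set y : F := z ^ (2 ^ k * 2) with hy
  have hy1 : y ^ 3 ^ e = w ^ 2 := by
    rw [hy, hw, ← pow_mul, ← pow_mul]; congr 1; ring
  have hord : orderOf y = 3 ^ (e + 1) := by
    apply orderOf_eq_prime_pow
    · rw [hy1]; exact hwne
    · rw [pow_succ, pow_mul, hy1, ← pow_mul]; exact hw6
  have hdvdz : 3 ^ (e + 1) ∣ orderOf z := by
    rw [← hord, hy]; exact orderOf_pow_dvd _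
  rcases order_dvd p hp t z hz0 ht with h | h
  · left; exact hdvdz.trans h
  · right; exact hdvdz.trans h

/-- prime divisors of `T` -/
theorem prime_dvd_T (k e : ℕ) (t : ℤ) (p : ℕ) (hp : p.Prime)
    (hp2 : p ≠ 2) (h : (p : ℤ) ∣ T k e t) :
    2 ^ (k + 2) ∣ p - 1 ∨ 2 ^ (k + 2) ∣ p + 1 := by
  have : Fact p.Prime := ⟨hp⟩
  set F := AlgebraicClosure (ZMod p) with hF
  have hchar : CharP F p := inferInstance
  obtain ⟨z, hz0, ht⟩ := exists_z F (t : F)
  set w : F := z ^ (3 ^ e * 2 ^ k) with hw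
  have hw0 : w ≠ 0 := pow_ne_zero _ hz0
  have hdvd : ((T k e t : ℤ) : F) = 0 := by
    rw [CharP.intCast_eq_zero_iff F p]
    exact h
  have hw1 : w + w⁻¹ = 0 := by
    have := hdvd
    rw [T_cast, ht, T_add_inv k e z hz0] at this
    exact this
  have hw2 : w ^ 2 = -1 := by
    have hmul : w * w⁻¹ = 1 := mul_inv_cancel₀ hw0
    linear_combination w * hw1 - hmul
  have h2F : (2 : F) ≠ 0 := by
    intro h2
    have h3 : ((2 : ℕ) : F) = 0 := by exact_mod_cast h2
    rw [CharP.cast_eq_zero_iff F p] at h3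
    exact hp2 ((Nat.prime_dvd_prime_iff_eq hp Nat.prime_two).1 h3)
  set y : F := z ^ (3 ^ e) with hy
  have hy1 : y ^ 2 ^ k = w := by
    rw [hy, hw, ← pow_mul]
  have hord : orderOf y = 2 ^ (k + 2) := by
    apply orderOf_eq_prime_pow
    · rw [pow_succ, pow_mul, hy1, hw2]
      intro h
      apply h2F
      linear_combination -h
    · rw [show k + 1 + 1 = k + 2 from rfl, pow_add, pow_mul, hy1]
      have : w ^ 2 ^ 2 = (w ^ 2) ^ 2 := by ring
      rw [this, hw2]; ring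
  have hdvdz : 2 ^ (k + 2) ∣ orderOf z := by
    rw [← hord, hy]; exact orderOf_pow_dvd _
  rcases order_dvd p hp t z hz0 ht with h | h
  · left; exact hdvdz.trans h
  · right; exact hdvdz.trans h

/-- if all prime factors are `± 1` modulo `M`, so is the number -/
theorem dvd_of_all (M : ℕ) (D : ℕ) (hD : D ≠ 0)
    (h : ∀ p : ℕ, p.Prime → p ∣ D → M ∣ p - 1 ∨ M ∣ p + 1) :
    (M : ℤ) ∣ (D : ℤ) - 1 ∨ (M : ℤ) ∣ (D : ℤ) + 1 := by
  induction D using Nat.recOnMul with
  | zero => exact absurd rfl hD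
  | one => left; simp
  | prime p hp =>
    rcases h p hp dvd_rfl with h | h
    · left
      have := Int.natCast_dvd_natCast.2 h
      rwa [Nat.cast_sub hp.one_lt.le, Nat.cast_one] at this
    · right
      have := Int.natCast_dvd_natCast.2 h
      push_cast at this
      exact this
  | mul a b iha ihb =>
    have ha : a ≠ 0 := by rintro rfl; simp at hD
    have hb : b ≠ 0 := by rintro rfl; simp at hD
    have h1 := iha ha (fun p hp hpa => h p hp (hpa.mul_right b))
    have h2 := ihb hb (fun p hp hpb => h p hp (hpb.mul_left a))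
    push_cast
    rcases h1 with ⟨x, h1⟩ | ⟨x, h1⟩ <;> rcases h2 with ⟨y, h2⟩ | ⟨y, h2⟩
    · left; exact ⟨x * b + y, by linear_combination (b : ℤ) * h1 + h2⟩
    · right; exact ⟨x * b + y, by linear_combination (b : ℤ) * h1 + h2⟩
    · right; exact ⟨x * b - y, by linear_combination (b : ℤ) * h1 - h2⟩
    · left; exact ⟨x * b - y, by linear_combination (b : ℤ) * h1 - h2⟩

/-! ### Existence of torsion points and Hensel lifting -/

/-- one step of the lifting for `phi` -/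
theorem hensel_phi (p : ℕ) (hp : p.Prime) (hp3 : p ≠ 3) (x₀ y : ℤ)
    (h0 : (p : ℤ) ∣ phi x₀ - y) (h1 : ¬ (p : ℤ) ∣ x₀ - 1) (h2 : ¬ (p : ℤ) ∣ x₀ + 1) (k : ℕ) :
    ∃ x : ℤ, (p : ℤ) ∣ x - x₀ ∧ (p : ℤ) ^ k ∣ phi x - y := by
  have hpZ : Prime (p : ℤ) := Nat.prime_iff_prime_int.1 hp
  have hmain : ∀ k : ℕ, ∃ x : ℤ, (p : ℤ) ∣ x - x₀ ∧ (p : ℤ) ^ (k + 1) ∣ phi x - y := by
    intro k
    induction k with
    | zero => exact ⟨x₀, by simp, by simpa using h0⟩
    | succ k ih =>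
      obtain ⟨x, hx, c, hc⟩ := ih
      have hcop : IsCoprime (3 * (x - 1) * (x + 1)) (p : ℤ) := by
        rw [isCoprime_comm, Prime.coprime_iff_not_dvd hpZ]
        intro hd
        rcases hpZ.dvd_or_dvd hd with hd | hd
        · rcases hpZ.dvd_or_dvd hd with hd | hd
          · apply hp3
            have : p ∣ 3 := by exact_mod_cast hd
            exact (Nat.prime_dvd_prime_iff_eq hp Nat.prime_three).1 this
          · apply h1
            have := dvd_sub hd hx
            have e1 : x - 1 - (x - x₀) = x₀ - 1 := by ring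
            rwa [e1] at this
        · apply h2
          have := dvd_sub hd hx
          have e1 : x + 1 - (x - x₀) = x₀ + 1 := by ring
          rwa [e1] at this
      obtain ⟨u, v, huv⟩ := hcop
      refine ⟨x + (p : ℤ) ^ (k + 1) * (-c * u), ?_, ?_⟩
      · have e1 : x + (p : ℤ) ^ (k + 1) * (-c * u) - x₀
            = (x - x₀) + (p : ℤ) * ((p : ℤ) ^ k * (-c * u)) := by ring
        rw [e1]
        exact dvd_add hx (dvd_mul_right _ _)
      · have e1 : phi (x + (p : ℤ) ^ (k + 1) * (-c * u)) - y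
            = (p : ℤ) ^ (k + 1 + 1) * (c * v + 3 * x * (p : ℤ) ^ k * (c * u) ^ 2
              - (p : ℤ) ^ (2 * k + 1) * (c * u) ^ 3) := by
          have e2 : phi (x + (p : ℤ) ^ (k + 1) * (-c * u)) - y
            = (phi x - y) - (p : ℤ) ^ (k + 1) * (c * (u * (3 * (x - 1) * (x + 1))))
              + (p : ℤ) ^ (k + 1 + 1) * (3 * x * (p : ℤ) ^ k * (c * u) ^ 2
              - (p : ℤ) ^ (2 * k + 1) * (c * u) ^ 3) := by
            unfold phi; ring
          rw [e2, hc]
          have e3 : u * (3 * (x - 1) * (x + 1)) = 1 - v * p := by linear_combination huv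
          rw [e3]; ring
        rw [e1]
        exact dvd_mul_right _ _
  obtain ⟨x, hx, hx2⟩ := hmain k
  exact ⟨x, hx, (pow_dvd_pow _ (Nat.le_succ k)).trans hx2⟩

/-- one step of the lifting for `psi` -/
theorem hensel_psi (p : ℕ) (hp : p.Prime) (hp2 : p ≠ 2) (x₀ y : ℤ)
    (h0 : (p : ℤ) ∣ psi x₀ - y) (h1 : ¬ (p : ℤ) ∣ x₀) (k : ℕ) :
    ∃ x : ℤ, (p : ℤ) ∣ x - x₀ ∧ (p : ℤ) ^ k ∣ psi x - y := by
  have hpZ : Prime (p : ℤ) := Nat.prime_iff_prime_int.1 hp
  have hmain : ∀ k : ℕ, ∃ x : ℤ, (p : ℤ) ∣ x - x₀ ∧ (p : ℤ) ^ (k + 1) ∣ psi x - y := by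
    intro k
    induction k with
    | zero => exact ⟨x₀, by simp, by simpa using h0⟩
    | succ k ih =>
      obtain ⟨x, hx, c, hc⟩ := ih
      have hcop : IsCoprime (2 * x) (p : ℤ) := by
        rw [isCoprime_comm, Prime.coprime_iff_not_dvd hpZ]
        intro hd
        rcases hpZ.dvd_or_dvd hd with hd | hd
        · apply hp2
          have : p ∣ 2 := by exact_mod_cast hd
          exact (Nat.prime_dvd_prime_iff_eq hp Nat.prime_two).1 this
        · apply h1
          have := dvd_sub hd hx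
          have e1 : x - (x - x₀) = x₀ := by ring
          rwa [e1] at this
      obtain ⟨u, v, huv⟩ := hcop
      refine ⟨x + (p : ℤ) ^ (k + 1) * (-c * u), ?_, ?_⟩
      · have e1 : x + (p : ℤ) ^ (k + 1) * (-c * u) - x₀
            = (x - x₀) + (p : ℤ) * ((p : ℤ) ^ k * (-c * u)) := by ring
        rw [e1]
        exact dvd_add hx (dvd_mul_right _ _)
      · have e1 : psi (x + (p : ℤ) ^ (k + 1) * (-c * u)) - y
            = (p : ℤ) ^ (k + 1 + 1) * (c * v + (p : ℤ) ^ k * (c * u) ^ 2) := by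
          have e2 : psi (x + (p : ℤ) ^ (k + 1) * (-c * u)) - y
            = (psi x - y) - (p : ℤ) ^ (k + 1) * (c * (u * (2 * x)))
              + (p : ℤ) ^ (k + 1 + 1) * ((p : ℤ) ^ k * (c * u) ^ 2) := by
            unfold psi; ring
          rw [e2, hc]
          have e3 : u * (2 * x) = 1 - v * p := by linear_combination huv
          rw [e3]; ring
        rw [e1]
        exact dvd_mul_right _ _
  obtain ⟨x, hx, hx2⟩ := hmain k
  exact ⟨x, hx, (pow_dvd_pow _ (Nat.le_succ k)).trans hx2⟩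

/-- lifting through `phi^[e]` -/
theorem lift_phi (p : ℕ) (hp : p.Prime) (hp3 : p ≠ 3) (m e : ℕ) :
    ∀ (x₀ y : ℤ), (p : ℤ) ∣ phi^[e] x₀ - y →
      (∀ j < e, ¬ (p : ℤ) ∣ phi^[j] x₀ - 1 ∧ ¬ (p : ℤ) ∣ phi^[j] x₀ + 1) →
      ∃ x : ℤ, (p : ℤ) ∣ x - x₀ ∧ (e ≠ 0 → (p : ℤ) ^ m ∣ phi^[e] x - y) ∧
        (e = 0 → x = y) := by
  induction e with
  | zero =>
    intro x₀ y h _
    refine ⟨y, ?_, fun h => absurd rfl h, fun _ => rfl⟩
    simp only [Function.iterate_zero, id_eq] at h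
    have : y - x₀ = -(x₀ - y) := by ring
    rw [this]; exact dvd_neg.2 h
  | succ e ih =>
    intro x₀ y h hj
    rw [Function.iterate_succ_apply] at h
    obtain ⟨s, hs1, hs2, hs3⟩ := ih (phi x₀) y h (fun j hje => by
      have := hj (j + 1) (by omega)
      rwa [Function.iterate_succ_apply] at this)
    have h0 := hj 0 (by omega)
    simp only [Function.iterate_zero, id_eq] at h0
    have hps : (p : ℤ) ∣ phi x₀ - s := by
      have : phi x₀ - s = -(s - phi x₀) := by ring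
      rw [this]; exact dvd_neg.2 hs1
    obtain ⟨x, hx1, hx2⟩ := hensel_phi p hp hp3 x₀ s hps h0.1 h0.2 m
    refine ⟨x, hx1, fun _ => ?_, fun h => absurd h (Nat.succ_ne_zero e)⟩
    rw [Function.iterate_succ_apply]
    have h3 : (p : ℤ) ^ m ∣ phi^[e] (phi x) - phi^[e] s := hx2.trans (iter_phi_sub_dvd e _ _)
    have h4 : phi^[e] (phi x) - y = (phi^[e] (phi x) - phi^[e] s) + (phi^[e] s - y) := by ring
    rw [h4]
    apply dvd_add h3
    rcases Nat.eq_zero_or_pos e with he | he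
    · subst he
      rw [hs3 rfl]; simp
    · exact hs2 (by omega)

/-- lifting through `phi^[e]`, plain form -/
theorem lift_phi' (p : ℕ) (hp : p.Prime) (hp3 : p ≠ 3) (m e : ℕ) (x₀ y : ℤ)
    (h : (p : ℤ) ∣ phi^[e] x₀ - y)
    (hj : ∀ j < e, ¬ (p : ℤ) ∣ phi^[j] x₀ - 1 ∧ ¬ (p : ℤ) ∣ phi^[j] x₀ + 1) :
    ∃ x : ℤ, (p : ℤ) ^ m ∣ phi^[e] x - y := by
  obtain ⟨x, _, h2, h3⟩ := lift_phi p hp hp3 m e x₀ y h hj
  refine ⟨x, ?_⟩
  rcases Nat.eq_zero_or_pos e with he | he
  · subst he; rw [h3 rfl]; simp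
  · exact h2 (by omega)

/-- a primitive `M`-th root of unity `z` with `z + 1/z` in the prime field -/
theorem exists_prim (p : ℕ) [Fact p.Prime] (M : ℕ) (hM : M ≠ 0) (hpM : ¬ p ∣ M)
    (h : M ∣ p - 1 ∨ M ∣ p + 1) :
    ∃ (z : AlgebraicClosure (ZMod p)) (t : ℤ), IsPrimitiveRoot z M ∧
      (t : AlgebraicClosure (ZMod p)) = z + z⁻¹ := by
  have hp : p.Prime := Fact.out
  have : NeZero M := ⟨hM⟩
  have : NeZero ((M : ℕ) : AlgebraicClosure (ZMod p)) := by
    constructor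
    intro h0
    rw [CharP.cast_eq_zero_iff _ p] at h0
    exact hpM h0
  obtain ⟨z, hz⟩ := HasEnoughRootsOfUnity.exists_primitiveRoot (AlgebraicClosure (ZMod p)) M
  have hz0 : z ≠ 0 := hz.ne_zero hM
  have hzp : (z + z⁻¹) ^ p = z + z⁻¹ := by
    have h2 : (z + z⁻¹) ^ p = z ^ p + (z⁻¹) ^ p := add_pow_char z z⁻¹ p
    rw [h2]
    rcases h with h | h
    · have h3 : z ^ (p - 1) = 1 := (hz.pow_eq_one_iff_dvd _).2 h
      have h4 : z ^ p = z := by
        have h5 : z ^ (p - 1) * z = z := by rw [h3, one_mul]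
        rwa [← pow_succ, Nat.sub_add_cancel hp.one_lt.le] at h5
      rw [inv_pow, h4]
    · have h3 : z ^ (p + 1) = 1 := (hz.pow_eq_one_iff_dvd _).2 h
      have h4 : z ^ p = z⁻¹ := by
        rw [pow_succ] at h3
        exact eq_inv_of_mul_eq_one_left h3
      rw [inv_pow, h4, inv_inv, add_comm]
  have hmem : (z + z⁻¹) ∈ (⊥ : Subfield (AlgebraicClosure (ZMod p))) := by
    exact (Subfield.mem_bot_iff_pow_eq_self (F := AlgebraicClosure (ZMod p)) (p := p)).2 hzp
  have hrange : ∃ a : ZMod p, algebraMap (ZMod p) (AlgebraicClosure (ZMod p)) a = z + z⁻¹ := by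
    have hle : (⊥ : Subfield (AlgebraicClosure (ZMod p))) ≤
        (algebraMap (ZMod p) (AlgebraicClosure (ZMod p))).fieldRange := bot_le
    exact RingHom.mem_fieldRange.1 (hle hmem)
  obtain ⟨a, ha⟩ := hrange
  obtain ⟨t, rfl⟩ := ZMod.intCast_surjective a
  refine ⟨z, t, hz, ?_⟩
  rw [← ha, map_intCast]

theorem exists_torsion3 (p : ℕ) (hp : p.Prime) (e : ℕ)
    (h : 3 ^ (e + 1) ∣ p - 1 ∨ 3 ^ (e + 1) ∣ p + 1) :
    ∃ t : ℤ, (p : ℤ) ∣ phi^[e] t + 1 := by
  have : Fact p.Prime := ⟨hp⟩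
  have h1p := hp.one_lt
  have hpM : ¬ p ∣ 3 ^ (e + 1) := by
    intro hd
    have h3 : p = 3 := (Nat.prime_dvd_prime_iff_eq hp Nat.prime_three).1 (hp.dvd_of_dvd_pow hd)
    subst h3
    have h3 : (3 : ℕ) ∣ 3 ^ (e + 1) := dvd_pow_self _ (by omega)
    rcases h with h | h
    · have := h3.trans h; omega
    · have := h3.trans h; omega
  obtain ⟨z, t, hz, ht⟩ := exists_prim p (3 ^ (e + 1)) (by positivity) hpM h
  refine ⟨t, ?_⟩
  have hz0 : z ≠ 0 := hz.ne_zero (by positivity)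
  rw [← CharP.intCast_eq_zero_iff (AlgebraicClosure (ZMod p)) p]
  push_cast
  rw [iter_phi_cast, ht, iter_phi_add_inv e z hz0]
  have hw : IsPrimitiveRoot (z ^ (3 ^ e)) 3 :=
    hz.pow (by positivity) (by rw [pow_succ])
  set w := z ^ (3 ^ e) with hwdef
  have hw0 : w ≠ 0 := pow_ne_zero _ hz0
  have h3 : w ^ 3 = 1 := hw.pow_eq_one
  have hne : w ≠ 1 := hw.ne_one (by norm_num)
  have h4 : w ^ 2 + w + 1 = 0 := by
    have : (w - 1) * (w ^ 2 + w + 1) = 0 := by linear_combination h3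
    rcases mul_eq_zero.1 this with h | h
    · exact absurd (sub_eq_zero.1 h) hne
    · exact h
  have hmul : w * w⁻¹ = 1 := mul_inv_cancel₀ hw0
  have h5 : w * (w + w⁻¹ + 1) = 0 := by linear_combination h4 + hmul
  exact (mul_eq_zero.1 h5).resolve_left hw0

theorem exists_torsion2 (p : ℕ) (hp : p.Prime) (hp2 : p ≠ 2) (k e : ℕ)
    (h : 2 ^ (k + 2) ∣ p - 1 ∨ 2 ^ (k + 2) ∣ p + 1) :
    ∃ t : ℤ, (p : ℤ) ∣ T k e t := by
  have : Fact p.Prime := ⟨hp⟩
  have hpM : ¬ p ∣ 2 ^ (k + 2) := by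
    intro hd
    exact hp2 ((Nat.prime_dvd_prime_iff_eq hp Nat.prime_two).1 (hp.dvd_of_dvd_pow hd))
  obtain ⟨z, t, hz, ht⟩ := exists_prim p (2 ^ (k + 2)) (by positivity) hpM h
  refine ⟨t, ?_⟩
  have hz0 : z ≠ 0 := hz.ne_zero (by positivity)
  rw [← CharP.intCast_eq_zero_iff (AlgebraicClosure (ZMod p)) p]
  rw [T_cast, ht, T_add_inv k e z hz0]
  set w := z ^ (3 ^ e * 2 ^ k) with hwdef
  have hw0 : w ≠ 0 := pow_ne_zero _ hz0
  have hu : IsPrimitiveRoot (z ^ (2 ^ (k + 1))) 2 :=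
    hz.pow (by positivity) (by ring)
  have hu1 : z ^ (2 ^ (k + 1)) = -1 := hu.eq_neg_one_of_two_right
  have h4 : w ^ 2 = -1 := by
    have : w ^ 2 = (z ^ (2 ^ (k + 1))) ^ (3 ^ e) := by
      rw [hwdef, ← pow_mul, ← pow_mul]; congr 1; ring
    rw [this, hu1]
    exact Odd.neg_one_pow (Odd.pow (by decide))
  have hmul : w * w⁻¹ = 1 := mul_inv_cancel₀ hw0
  have h5 : w * (w + w⁻¹) = 0 := by linear_combination h4 + hmul
  exact (mul_eq_zero.1 h5).resolve_left hw0

theorem crt (a b : ℤ) (h : IsCoprime a b) (x y : ℤ) : ∃ t : ℤ, a ∣ t - x ∧ b ∣ t - y := by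
  obtain ⟨u, v, huv⟩ := h
  refine ⟨x * (v * b) + y * (u * a), ?_, ?_⟩
  · exact ⟨(y - x) * u, by linear_combination x * huv⟩
  · exact ⟨(x - y) * v, by linear_combination y * huv⟩

theorem iter_phi_two (s : ℤ) (hs : s = 1 ∨ s = -1) (i : ℕ) : phi^[i] (-2 * s) = -2 * s := by
  induction i with
  | zero => rfl
  | succ i ih =>
    rw [Function.iterate_succ_apply', ih]
    rcases hs with rfl | rfl <;> norm_num [phi]

theorem iter_phi_avoid (p : ℕ) (hp : p.Prime) (hp3 : p ≠ 3) (e : ℕ) (t : ℤ)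
    (h : (p : ℤ) ∣ phi^[e] t + 1) (j : ℕ) (hj : j < e) (s : ℤ) (hs : s = 1 ∨ s = -1) :
    ¬ (p : ℤ) ∣ phi^[j] t - s := by
  intro hd
  have h1 : (p : ℤ) ∣ phi^[j + 1] t - (-2 * s) := by
    rw [Function.iterate_succ_apply']
    have h2 := hd.trans (phi_sub_dvd (phi^[j] t) s)
    have h3 : phi s = -2 * s := by rcases hs with rfl | rfl <;> norm_num [phi]
    rwa [h3] at h2
  have h2 := h1.trans (iter_phi_sub_dvd (e - (j + 1)) (phi^[j + 1] t) (-2 * s))
  rw [iter_phi_two s hs, ← Function.iterate_add_apply, show e - (j + 1) + (j + 1) = e by omega]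
    at h2
  have h3 := dvd_sub h h2
  have h4 : phi^[e] t + 1 - (phi^[e] t - -2 * s) = 1 - 2 * s := by ring
  rw [h4] at h3
  rcases hs with rfl | rfl
  · have h5 : (p : ℤ) ∣ 1 := by
      have e1 : (1 : ℤ) - 2 * 1 = -1 := by norm_num
      rw [e1] at h3
      exact (dvd_neg).1 h3
    have h6 : p ∣ 1 := by exact_mod_cast h5
    exact hp.one_lt.ne' (Nat.dvd_one.1 h6)
  · have h5 : (p : ℤ) ∣ 3 := by
      have h6 : (1 : ℤ) - 2 * (-1) = 3 := by norm_num
      rwa [h6] at h3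
    have h6 : p ∣ 3 := by exact_mod_cast h5
    exact hp3 ((Nat.prime_dvd_prime_iff_eq hp Nat.prime_three).1 h6)

/-- solve `phi^[e] t ≡ y` modulo `m` -/
theorem lift_all (e : ℕ) (m : ℕ) :
    m ≠ 0 → (∀ p : ℕ, p.Prime → p ∣ m → 3 ^ (e + 1) ∣ p - 1 ∨ 3 ^ (e + 1) ∣ p + 1) →
    ∀ y : ℤ, (∀ p : ℕ, p.Prime → p ∣ m → (p : ℤ) ∣ y + 1) → ∃ t : ℤ, (m : ℤ) ∣ phi^[e] t - y := by
  induction m using Nat.recOnPosPrimePosCoprime with
  | prime_pow p n hp hn =>
    intro _ hcl y hy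
    have hpd : p ∣ p ^ n := dvd_pow_self _ hn.ne'
    have hc := hcl p hp hpd
    have hp3 : p ≠ 3 := by
      rintro rfl
      have h3 : (3 : ℕ) ∣ 3 ^ (e + 1) := dvd_pow_self _ (by omega)
      rcases hc with h | h
      · have := h3.trans h; omega
      · have := h3.trans h; omega
    obtain ⟨t, ht⟩ := exists_torsion3 p hp e hc
    have h1 : (p : ℤ) ∣ phi^[e] t - y := by
      have := dvd_sub ht (hy p hp hpd)
      have h2 : phi^[e] t + 1 - (y + 1) = phi^[e] t - y := by ring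
      rwa [h2] at this
    obtain ⟨x, hx⟩ := lift_phi' p hp hp3 n e t y h1 (fun j hj => by
      refine ⟨iter_phi_avoid p hp hp3 e t ht j hj 1 (Or.inl rfl), ?_⟩
      have := iter_phi_avoid p hp hp3 e t ht j hj (-1) (Or.inr rfl)
      rwa [sub_neg_eq_add] at this)
    exact ⟨x, by push_cast; exact hx⟩
  | zero => intro h; exact absurd rfl h
  | one => intro _ _ y _; exact ⟨0, by simp⟩
  | coprime a b ha hb hab iha ihb =>
    intro _ hcl y hy
    obtain ⟨t1, ht1⟩ := iha (by omega) (fun p hp hpa => hcl p hp (hpa.mul_right b)) y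
      (fun p hp hpa => hy p hp (hpa.mul_right b))
    obtain ⟨t2, ht2⟩ := ihb (by omega) (fun p hp hpa => hcl p hp (hpa.mul_left a)) y
      (fun p hp hpa => hy p hp (hpa.mul_left a))
    have hcop : IsCoprime (a : ℤ) (b : ℤ) := Nat.isCoprime_iff_coprime.2 hab
    obtain ⟨t, h1, h2⟩ := crt a b hcop t1 t2
    refine ⟨t, ?_⟩
    push_cast
    apply hcop.mul_dvd
    · have := dvd_add (h1.trans (iter_phi_sub_dvd e t t1)) ht1
      have h3 : phi^[e] t - phi^[e] t1 + (phi^[e] t1 - y) = phi^[e] t - y := by ring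
      rwa [h3] at this
    · have := dvd_add (h2.trans (iter_phi_sub_dvd e t t2)) ht2
      have h3 : phi^[e] t - phi^[e] t2 + (phi^[e] t2 - y) = phi^[e] t - y := by ring
      rwa [h3] at this

/-- lifting through `psi^[k]` -/
theorem lift_psi (p : ℕ) (hp : p.Prime) (hp2 : p ≠ 2) (m k : ℕ) :
    ∀ (x₀ y : ℤ), (p : ℤ) ∣ psi^[k] x₀ - y →
      (∀ j < k, ¬ (p : ℤ) ∣ psi^[j] x₀) →
      ∃ x : ℤ, (p : ℤ) ∣ x - x₀ ∧ (k ≠ 0 → (p : ℤ) ^ m ∣ psi^[k] x - y) ∧
        (k = 0 → x = y) := by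
  induction k with
  | zero =>
    intro x₀ y h _
    refine ⟨y, ?_, fun h => absurd rfl h, fun _ => rfl⟩
    simp only [Function.iterate_zero, id_eq] at h
    have : y - x₀ = -(x₀ - y) := by ring
    rw [this]; exact dvd_neg.2 h
  | succ e ih =>
    intro x₀ y h hj
    rw [Function.iterate_succ_apply] at h
    obtain ⟨s, hs1, hs2, hs3⟩ := ih (psi x₀) y h (fun j hje => by
      have := hj (j + 1) (by omega)
      rwa [Function.iterate_succ_apply] at this)
    have h0 := hj 0 (by omega)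
    simp only [Function.iterate_zero, id_eq] at h0
    have hps : (p : ℤ) ∣ psi x₀ - s := by
      have : psi x₀ - s = -(s - psi x₀) := by ring
      rw [this]; exact dvd_neg.2 hs1
    obtain ⟨x, hx1, hx2⟩ := hensel_psi p hp hp2 x₀ s hps h0 m
    refine ⟨x, hx1, fun _ => ?_, fun h => absurd h (Nat.succ_ne_zero e)⟩
    rw [Function.iterate_succ_apply]
    have h3 : (p : ℤ) ^ m ∣ psi^[e] (psi x) - psi^[e] s := hx2.trans (iter_psi_sub_dvd e _ _)
    have h4 : psi^[e] (psi x) - y = (psi^[e] (psi x) - psi^[e] s) + (psi^[e] s - y) := by ring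
    rw [h4]
    apply dvd_add h3
    rcases Nat.eq_zero_or_pos e with he | he
    · subst he
      rw [hs3 rfl]; simp
    · exact hs2 (by omega)

theorem iter_psi_two (i : ℕ) : psi^[i] (2 : ℤ) = 2 := by
  induction i with
  | zero => rfl
  | succ i ih =>
    rw [Function.iterate_succ_apply', ih]; norm_num [psi]

theorem iter_psi_zero (k : ℕ) (hk : 1 ≤ k) : psi^[k] (0 : ℤ) = 2 ∨ psi^[k] (0 : ℤ) = -2 := by
  obtain ⟨k, rfl⟩ : ∃ j, k = j + 1 := ⟨k - 1, by omega⟩
  rcases Nat.eq_zero_or_pos k with h | h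
  · subst h; right; norm_num [psi]
  · left
    obtain ⟨k, rfl⟩ : ∃ j, k = j + 1 := ⟨k - 1, by omega⟩
    rw [Function.iterate_succ_apply, Function.iterate_succ_apply]
    have : psi (psi (0 : ℤ)) = 2 := by norm_num [psi]
    rw [this, iter_psi_two]

theorem not_dvd_two (p : ℕ) (hp : p.Prime) (hp2 : p ≠ 2) : ¬ (p : ℤ) ∣ 2 := by
  intro h
  have h5 : p ∣ 2 := by exact_mod_cast h
  exact hp2 ((Nat.prime_dvd_prime_iff_eq hp Nat.prime_two).1 h5)

/-- solve `T k e t ≡ y` modulo `m`, near the zero fibre -/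
theorem lift_all2 (k e : ℕ) (hk : 1 ≤ k) (m : ℕ) :
    m ≠ 0 → (∀ p : ℕ, p.Prime → p ∣ m → 2 ^ (k + 2) ∣ p - 1 ∨ 2 ^ (k + 2) ∣ p + 1) →
    ∀ y : ℤ, (∀ p : ℕ, p.Prime → p ∣ m → (p : ℤ) ∣ y) → ∃ t : ℤ, (m : ℤ) ∣ T k e t - y := by
  have h8 : (8 : ℕ) ∣ 2 ^ (k + 2) := ⟨2 ^ (k - 1), by
    rw [show k + 2 = (k - 1) + 3 by omega, pow_add]; ring⟩
  induction m using Nat.recOnPosPrimePosCoprime with
  | prime_pow p n hp hn =>
    intro _ hcl y hy
    have hpd : p ∣ p ^ n := dvd_pow_self _ hn.ne'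
    have hc := hcl p hp hpd
    have hp23 : p ≠ 2 ∧ p ≠ 3 := by
      constructor <;> rintro rfl <;> rcases hc with h | h
      · have := h8.trans h; omega
      · have := h8.trans h; omega
      · have := h8.trans h; omega
      · have := h8.trans h; omega
    have hnd := not_dvd_two p hp hp23.1
    obtain ⟨t, ht⟩ := exists_torsion2 p hp hp23.1 k e hc
    -- psi chain
    set s : ℤ := phi^[e] t with hs
    have htT : (p : ℤ) ∣ psi^[k] s := ht
    have hpsi : ∀ j < k, ¬ (p : ℤ) ∣ psi^[j] s := by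
      intro j hj hd
      have h1 : (p : ℤ) ∣ psi^[k - j] (psi^[j] s) - psi^[k - j] 0 :=
        (by simpa using hd : (p : ℤ) ∣ psi^[j] s - 0).trans (iter_psi_sub_dvd _ _ _)
      rw [← Function.iterate_add_apply, show k - j + j = k by omega] at h1
      have h2 := (dvd_sub_right htT).1 h1
      rcases iter_psi_zero (k - j) (by omega) with h3 | h3
      · rw [h3] at h2; exact hnd h2
      · rw [h3] at h2; exact hnd ((dvd_neg).1 h2)
    have hphi : ∀ j < e, ∀ u : ℤ, (u = 1 ∨ u = -1) → ¬ (p : ℤ) ∣ phi^[j] t - u := by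
      intro j hj u hu hd
      have h1 : (p : ℤ) ∣ phi^[j + 1] t - (-2 * u) := by
        rw [Function.iterate_succ_apply']
        have h2 := hd.trans (phi_sub_dvd (phi^[j] t) u)
        have h3 : phi u = -2 * u := by rcases hu with rfl | rfl <;> norm_num [phi]
        rwa [h3] at h2
      have h2 := h1.trans (iter_phi_sub_dvd (e - (j + 1)) (phi^[j + 1] t) (-2 * u))
      rw [iter_phi_two u hu, ← Function.iterate_add_apply, show e - (j + 1) + (j + 1) = e by omega]
        at h2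
      have h3 := h2.trans (iter_psi_sub_dvd k _ _)
      have h4 : psi^[k] (-2 * u) = 2 := by
        obtain ⟨i, rfl⟩ : ∃ i, k = i + 1 := ⟨k - 1, by omega⟩
        rw [Function.iterate_succ_apply]
        have : psi (-2 * u) = 2 := by rcases hu with rfl | rfl <;> norm_num [psi]
        rw [this, iter_psi_two]
      rw [h4] at h3
      exact hnd ((dvd_sub_right htT).1 h3)
    have h1 : (p : ℤ) ∣ psi^[k] s - y := dvd_sub htT (hy p hp hpd)
    obtain ⟨x, hx1, hx2, -⟩ := lift_psi p hp hp23.1 n k s y h1 hpsi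
    have h2 : (p : ℤ) ∣ phi^[e] t - x := by
      have : phi^[e] t - x = -(x - s) := by rw [hs]; ring
      rw [this]; exact dvd_neg.2 hx1
    obtain ⟨v, hv⟩ := lift_phi' p hp hp23.2 n e t x h2 (fun j hj => by
      refine ⟨hphi j hj 1 (Or.inl rfl), ?_⟩
      have := hphi j hj (-1) (Or.inr rfl)
      rwa [sub_neg_eq_add] at this)
    refine ⟨v, ?_⟩
    push_cast
    have h3 := dvd_add (hv.trans (iter_psi_sub_dvd k (phi^[e] v) x)) (hx2 (by omega))
    have h4 : psi^[k] (phi^[e] v) - psi^[k] x + (psi^[k] x - y) = T k e v - y := by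
      unfold T; ring
    rwa [h4] at h3
  | zero => intro h; exact absurd rfl h
  | one => intro _ _ y _; exact ⟨0, by simp⟩
  | coprime a b ha hb hab iha ihb =>
    intro _ hcl y hy
    obtain ⟨t1, ht1⟩ := iha (by omega) (fun p hp hpa => hcl p hp (hpa.mul_right b)) y
      (fun p hp hpa => hy p hp (hpa.mul_right b))
    obtain ⟨t2, ht2⟩ := ihb (by omega) (fun p hp hpa => hcl p hp (hpa.mul_left a)) y
      (fun p hp hpa => hy p hp (hpa.mul_left a))
    have hcop : IsCoprime (a : ℤ) (b : ℤ) := Nat.isCoprime_iff_coprime.2 hab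
    obtain ⟨t, h1, h2⟩ := crt a b hcop t1 t2
    refine ⟨t, ?_⟩
    push_cast
    apply hcop.mul_dvd
    · have := dvd_add (h1.trans (T_sub_dvd k e t t1)) ht1
      have h3 : T k e t - T k e t1 + (T k e t1 - y) = T k e t - y := by ring
      rwa [h3] at this
    · have := dvd_add (h2.trans (T_sub_dvd k e t t2)) ht2
      have h3 : T k e t - T k e t2 + (T k e t2 - y) = T k e t - y := by ring
      rwa [h3] at this

theorem phi_ge (t : ℤ) (ht : 2 ≤ t) : t ≤ phi t := by
  unfold phi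
  nlinarith [mul_nonneg (by linarith : (0 : ℤ) ≤ t - 2) (by linarith : (0 : ℤ) ≤ t),
    mul_nonneg (mul_nonneg (by linarith : (0 : ℤ) ≤ t - 2) (by linarith : (0 : ℤ) ≤ t))
      (by linarith : (0 : ℤ) ≤ t + 2)]

theorem psi_ge (t : ℤ) (ht : 2 ≤ t) : t ≤ psi t := by
  unfold psi
  nlinarith

theorem iter_phi_ge (e : ℕ) (t : ℤ) (ht : 2 ≤ t) : t ≤ phi^[e] t := by
  induction e with
  | zero => simp
  | succ e ih =>
    rw [Function.iterate_succ_apply']
    exact ih.trans (phi_ge _ (ht.trans ih))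

theorem iter_psi_ge (e : ℕ) (t : ℤ) (ht : 2 ≤ t) : t ≤ psi^[e] t := by
  induction e with
  | zero => simp
  | succ e ih =>
    rw [Function.iterate_succ_apply']
    exact ih.trans (psi_ge _ (ht.trans ih))

theorem T_ge (k e : ℕ) (t : ℤ) (ht : 2 ≤ t) : t ≤ T k e t :=
  (iter_phi_ge e t ht).trans (iter_psi_ge k _ (ht.trans (iter_phi_ge e t ht)))

theorem iter_phi_dvd (g t : ℤ) (h : g ∣ t) (e : ℕ) : g ∣ phi^[e] t := by
  induction e with
  | zero => simpa using h
  | succ e ih =>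
    rw [Function.iterate_succ_apply']
    unfold phi
    exact dvd_sub (dvd_pow ih (by norm_num)) (Dvd.dvd.mul_left ih 3)

/-- prime divisors of `psi^[k] t - 1` -/
theorem prime_dvd_psi_sub_one (k : ℕ) (t : ℤ) (p : ℕ) (hp : p.Prime)
    (hp2 : p ≠ 2) (hp3 : p ≠ 3) (h : (p : ℤ) ∣ psi^[k] t - 1) :
    3 * 2 ^ (k + 1) ∣ p - 1 ∨ 3 * 2 ^ (k + 1) ∣ p + 1 := by
  have : Fact p.Prime := ⟨hp⟩
  set F := AlgebraicClosure (ZMod p) with hF
  have hchar : CharP F p := inferInstance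
  obtain ⟨z, hz0, ht⟩ := exists_z F (t : F)
  set w : F := z ^ (2 ^ k) with hw
  have hw0 : w ≠ 0 := pow_ne_zero _ hz0
  have hdvd : ((psi^[k] t - 1 : ℤ) : F) = 0 := by
    rw [CharP.intCast_eq_zero_iff F p]
    exact h
  have hw1 : w + w⁻¹ - 1 = 0 := by
    have := hdvd
    push_cast at this
    rw [iter_psi_cast, ht, iter_psi_add_inv k z hz0] at this
    exact this
  have hw2 : w ^ 2 - w + 1 = 0 := by
    have hmul : w * w⁻¹ = 1 := mul_inv_cancel₀ hw0
    linear_combination w * hw1 - hmul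
  have hw3 : w ^ 3 = -1 := by linear_combination (w + 1) * hw2
  have h2F : (2 : F) ≠ 0 := by
    intro h2
    have h3 : ((2 : ℕ) : F) = 0 := by exact_mod_cast h2
    rw [CharP.cast_eq_zero_iff F p] at h3
    exact hp2 ((Nat.prime_dvd_prime_iff_eq hp Nat.prime_two).1 h3)
  have hwne : w ^ 2 ≠ 1 := by
    intro h1
    have h4 : w = 2 := by linear_combination h1 - hw2
    rw [h4] at h1
    have h3 : ((3 : ℕ) : F) = 0 := by push_cast; linear_combination h1
    rw [CharP.cast_eq_zero_iff F p] at h3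
    exact hp3 ((Nat.prime_dvd_prime_iff_eq hp Nat.prime_three).1 h3)
  have hdvd2 : 2 ^ (k + 1) ∣ orderOf z := by
    have hy1 : (z ^ 3) ^ 2 ^ k = -1 := by
      rw [← pow_mul, mul_comm, pow_mul, ← hw, hw3]
    have hord : orderOf (z ^ 3) = 2 ^ (k + 1) := by
      apply orderOf_eq_prime_pow
      · rw [hy1]
        intro h
        apply h2F
        linear_combination -h
      · have h5 : (z ^ 3) ^ 2 ^ (k + 1) = ((z ^ 3) ^ 2 ^ k) ^ 2 := by
          rw [pow_succ 2 k, pow_mul]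
        rw [h5, hy1]; ring
    rw [← hord]; exact orderOf_pow_dvd _
  have hdvd3 : 3 ∣ orderOf z := by
    have hy1 : z ^ (2 ^ k * 2) = w ^ 2 := by rw [pow_mul, ← hw]
    have hord : orderOf (z ^ (2 ^ k * 2)) = 3 := by
      apply orderOf_eq_prime
      · rw [hy1, ← pow_mul, show 2 * 3 = 3 * 2 by norm_num, pow_mul, hw3]; ring
      · rw [hy1]; exact hwne
    rw [← hord]; exact orderOf_pow_dvd _
  have hdvdz : 3 * 2 ^ (k + 1) ∣ orderOf z :=
    Nat.Coprime.mul_dvd_of_dvd_of_dvd (Nat.Coprime.pow_right _ (by norm_num)) hdvd3 hdvd2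
  rcases order_dvd p hp t z hz0 ht with h | h
  · left; exact hdvdz.trans h
  · right; exact hdvdz.trans h

theorem exists_torsion6 (p : ℕ) (hp : p.Prime) (hp2 : p ≠ 2) (hp3 : p ≠ 3) (k : ℕ)
    (h : 3 * 2 ^ (k + 1) ∣ p - 1 ∨ 3 * 2 ^ (k + 1) ∣ p + 1) :
    ∃ t : ℤ, (p : ℤ) ∣ psi^[k] t - 1 := by
  have : Fact p.Prime := ⟨hp⟩
  have hpM : ¬ p ∣ 3 * 2 ^ (k + 1) := by
    intro hd
    rcases hp.dvd_mul.1 hd with hd | hd
    · exact hp3 ((Nat.prime_dvd_prime_iff_eq hp Nat.prime_three).1 hd)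
    · exact hp2 ((Nat.prime_dvd_prime_iff_eq hp Nat.prime_two).1 (hp.dvd_of_dvd_pow hd))
  obtain ⟨z, t, hz, ht⟩ := exists_prim p (3 * 2 ^ (k + 1)) (by positivity) hpM h
  refine ⟨t, ?_⟩
  have hz0 : z ≠ 0 := hz.ne_zero (by positivity)
  rw [← CharP.intCast_eq_zero_iff (AlgebraicClosure (ZMod p)) p]
  push_cast
  rw [iter_psi_cast, ht, iter_psi_add_inv k z hz0]
  have hw : IsPrimitiveRoot (z ^ (2 ^ k)) 6 :=
    hz.pow (by positivity) (by ring)
  set w := z ^ (2 ^ k) with hwdef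
  have hw0 : w ≠ 0 := pow_ne_zero _ hz0
  have h3 : w ^ 3 = -1 := by
    have h1 : IsPrimitiveRoot (w ^ 3) 2 := hw.pow (by norm_num) (by norm_num)
    exact h1.eq_neg_one_of_two_right
  have hne : w ^ 2 ≠ 1 := hw.pow_ne_one_of_pos_of_lt (by norm_num) (by norm_num)
  have hne' : w + 1 ≠ 0 := by
    intro h
    apply hne
    have : w = -1 := eq_neg_of_add_eq_zero_left h
    rw [this]; ring
  have h4 : w ^ 2 - w + 1 = 0 := by
    have : (w + 1) * (w ^ 2 - w + 1) = 0 := by linear_combination h3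
    exact (mul_eq_zero.1 this).resolve_left hne'
  have hmul : w * w⁻¹ = 1 := mul_inv_cancel₀ hw0
  have h5 : w * (w + w⁻¹ - 1) = 0 := by linear_combination h4 + hmul
  exact (mul_eq_zero.1 h5).resolve_left hw0

/-- the modulus belonging to the fibre `c = 0` or `c = 1` of `psi^[k]` -/
def modulus (k c : ℕ) : ℕ := if c = 0 then 2 ^ (k + 2) else 3 * 2 ^ (k + 1)

/-- solve `psi^[k] t ≡ y` modulo `m`, near the fibre over `c` -/
theorem lift_all3 (k c : ℕ) (hk : 1 ≤ k) (hc : c = 0 ∨ c = 1) (m : ℕ) :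
    m ≠ 0 → (∀ p : ℕ, p.Prime → p ∣ m → modulus k c ∣ p - 1 ∨ modulus k c ∣ p + 1) →
    ∀ y : ℤ, (∀ p : ℕ, p.Prime → p ∣ m → (p : ℤ) ∣ y - c) → ∃ t : ℤ, (m : ℤ) ∣ psi^[k] t - y := by
  have h4 : (4 : ℕ) ∣ modulus k c := by
    unfold modulus
    obtain ⟨i, rfl⟩ : ∃ i, k = i + 1 := ⟨k - 1, by omega⟩
    split_ifs
    · exact ⟨2 ^ (i + 1), by ring⟩
    · exact ⟨3 * 2 ^ i, by ring⟩
  have hge : 8 ≤ modulus k c := by
    unfold modulus
    obtain ⟨i, rfl⟩ : ∃ i, k = i + 1 := ⟨k - 1, by omega⟩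
    have h1 : 1 ≤ 2 ^ i := Nat.one_le_two_pow
    split_ifs
    · have : 2 ^ (i + 1 + 2) = 8 * 2 ^ i := by ring
      omega
    · have : 3 * 2 ^ (i + 1 + 1) = 12 * 2 ^ i := by ring
      omega
  induction m using Nat.recOnPosPrimePosCoprime with
  | prime_pow p n hp hn =>
    intro _ hcl y hy
    have hpd : p ∣ p ^ n := dvd_pow_self _ hn.ne'
    have hcc := hcl p hp hpd
    have h1p := hp.one_lt
    have hp23 : p ≠ 2 ∧ p ≠ 3 := by
      constructor <;> rintro rfl <;> rcases hcc with h | h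
      · have := Nat.le_of_dvd (by norm_num) h; omega
      · have := Nat.le_of_dvd (by norm_num) h; omega
      · have := Nat.le_of_dvd (by norm_num) h; omega
      · have := Nat.le_of_dvd (by norm_num) h; omega
    have hnd := not_dvd_two p hp hp23.1
    have hone : ¬ (p : ℤ) ∣ 1 := by
      intro h
      have h6 : p ∣ 1 := by exact_mod_cast h
      exact hp.one_lt.ne' (Nat.dvd_one.1 h6)
    have hthree : ¬ (p : ℤ) ∣ 3 := by
      intro h
      have h6 : p ∣ 3 := by exact_mod_cast h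
      exact hp23.2 ((Nat.prime_dvd_prime_iff_eq hp Nat.prime_three).1 h6)
    obtain ⟨t, ht⟩ : ∃ t : ℤ, (p : ℤ) ∣ psi^[k] t - c := by
      unfold modulus at hcc
      rcases hc with rfl | rfl
      · rw [if_pos rfl] at hcc
        obtain ⟨t, ht⟩ := exists_torsion2 p hp hp23.1 k 0 hcc
        exact ⟨t, by simpa [T] using ht⟩
      · rw [if_neg (by norm_num)] at hcc
        obtain ⟨t, ht⟩ := exists_torsion6 p hp hp23.1 hp23.2 k hcc
        exact ⟨t, by exact_mod_cast ht⟩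
    have hpsi : ∀ j < k, ¬ (p : ℤ) ∣ psi^[j] t := by
      intro j hj hd
      have h1 : (p : ℤ) ∣ psi^[k - j] (psi^[j] t) - psi^[k - j] 0 :=
        (by simpa using hd : (p : ℤ) ∣ psi^[j] t - 0).trans (iter_psi_sub_dvd _ _ _)
      rw [← Function.iterate_add_apply, show k - j + j = k by omega] at h1
      have h2 := dvd_sub h1 ht
      have h3 : psi^[k] t - psi^[k - j] 0 - (psi^[k] t - (c : ℤ)) = c - psi^[k - j] 0 := by ring
      rw [h3] at h2
      rcases iter_psi_zero (k - j) (by omega) with h5 | h5 <;> rcases hc with rfl | rfl <;>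
        rw [h5] at h2 <;> push_cast at h2
      · exact hnd ((dvd_neg).1 (by simpa using h2))
      · apply hone
        norm_num at h2
        exact h2
      · exact hnd (by simpa using h2)
      · apply hthree
        exact h2
    have h1 : (p : ℤ) ∣ psi^[k] t - y := by
      have := dvd_sub ht (hy p hp hpd)
      have h2 : psi^[k] t - (c : ℤ) - (y - c) = psi^[k] t - y := by ring
      rwa [h2] at this
    obtain ⟨x, hx1, hx2, -⟩ := lift_psi p hp hp23.1 n k t y h1 hpsi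
    exact ⟨x, by push_cast; exact hx2 (by omega)⟩
  | zero => intro h; exact absurd rfl h
  | one => intro _ _ y _; exact ⟨0, by simp⟩
  | coprime a b ha hb hab iha ihb =>
    intro _ hcl y hy
    obtain ⟨t1, ht1⟩ := iha (by omega) (fun p hp hpa => hcl p hp (hpa.mul_right b)) y
      (fun p hp hpa => hy p hp (hpa.mul_right b))
    obtain ⟨t2, ht2⟩ := ihb (by omega) (fun p hp hpa => hcl p hp (hpa.mul_left a)) y
      (fun p hp hpa => hy p hp (hpa.mul_left a))
    have hcop : IsCoprime (a : ℤ) (b : ℤ) := Nat.isCoprime_iff_coprime.2 hab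
    obtain ⟨t, h1, h2⟩ := crt a b hcop t1 t2
    refine ⟨t, ?_⟩
    push_cast
    apply hcop.mul_dvd
    · have := dvd_add (h1.trans (iter_psi_sub_dvd k t t1)) ht1
      have h3 : psi^[k] t - psi^[k] t1 + (psi^[k] t1 - y) = psi^[k] t - y := by ring
      rwa [h3] at this
    · have := dvd_add (h2.trans (iter_psi_sub_dvd k t t2)) ht2
      have h3 : psi^[k] t - psi^[k] t2 + (psi^[k] t2 - y) = psi^[k] t - y := by ring
      rwa [h3] at this

open Polynomial in
theorem exists_poly (k e : ℕ) : ∃ P : ℤ[X], ∀ t : ℤ, P.eval t = T k e t := by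
  have h1 : ∀ e : ℕ, ∃ P : ℤ[X], ∀ t : ℤ, P.eval t = phi^[e] t := by
    intro e
    induction e with
    | zero => exact ⟨X, fun t => by simp⟩
    | succ e ih =>
      obtain ⟨P, hP⟩ := ih
      refine ⟨P ^ 3 - C 3 * P, fun t => ?_⟩
      rw [Function.iterate_succ_apply', ← hP t]
      simp [phi]
  obtain ⟨P, hP⟩ := h1 e
  induction k with
  | zero => exact ⟨P, fun t => by rw [hP]; rfl⟩
  | succ k ih =>
    obtain ⟨R, hR⟩ := ih
    refine ⟨R ^ 2 - C 2, fun t => ?_⟩
    unfold T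
    rw [Function.iterate_succ_apply']
    have : psi^[k] (phi^[e] t) = R.eval t := (hR t).symm
    rw [this]
    simp [psi]

open Polynomial in
/-- if `d` divides `M` and `P(t₀) + c` then `(P(t₀ + M m) + c) / d` is an integer polynomial in `m` -/
theorem exists_quot (P : ℤ[X]) (t₀ M d c : ℤ) (hdM : d ∣ M) (hd : d ∣ P.eval t₀ + c) :
    ∃ h : ℤ[X], ∀ m : ℤ, P.eval (t₀ + M * m) + c = d * h.eval m := by
  obtain ⟨u, hu⟩ := hdM
  obtain ⟨v, hv⟩ := hd
  have h1 := Polynomial.sub_dvd_eval_sub (C t₀ + C M * X) (C t₀) (P.map C)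
  obtain ⟨R, hR⟩ := h1
  refine ⟨C v + C u * X * R, fun m => ?_⟩
  have h2 := congrArg (fun g : ℤ[X] => g.eval m) hR
  have h3 : ∀ q : ℤ[X], (eval q (P.map C)).eval m = P.eval (q.eval m) := by
    intro q
    rw [eval_map]
    change (P.comp q).eval m = _
    rw [eval_comp]
  simp only [eval_sub, h3, eval_add, eval_C, eval_mul, eval_X] at h2
  simp only [eval_add, eval_C, eval_mul, eval_X]
  have h4 : P.eval (t₀ + M * m) = P.eval t₀ + M * m * eval m R := by
    linear_combination h2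
  rw [h4, hu]
  linear_combination hv

/-- the product of the primes `≤ Y` that do not divide `m` -/
def pp (Y m : ℕ) : ℕ := ∏ p ∈ (Finset.range (Y + 1)).filter (fun p => p.Prime ∧ ¬ p ∣ m), p

theorem pp_coprime (Y m : ℕ) : Nat.Coprime m (pp Y m) := by
  unfold pp
  apply Nat.Coprime.prod_right
  intro p hp
  rw [Finset.mem_filter] at hp
  exact ((Nat.Prime.coprime_iff_not_dvd hp.2.1).2 hp.2.2).symm

theorem dvd_pp (Y m p : ℕ) (hp : p.Prime) (hpY : p ≤ Y) (hpm : ¬ p ∣ m) : p ∣ pp Y m := by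
  unfold pp
  apply Finset.dvd_prod_of_mem
  rw [Finset.mem_filter, Finset.mem_range]
  exact ⟨by omega, hp, hpm⟩

theorem pp_pos (Y m : ℕ) : 0 < pp Y m := by
  unfold pp
  apply Finset.prod_pos
  intro p hp
  rw [Finset.mem_filter] at hp
  exact hp.2.1.pos

end Pool.Agent.MP_8bf9c2_nt.Dickson
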