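import Mathlib
import Pool.Agent.TwinForm99.QuadMap

/-!
# `q` and `a + qd` with all divisors `± 1` modulo a power of `d` exceeding the logarithm

For `(a, d)` one of `(1, 2), (-1, 2), (2, 3), (-2, 3)` there are infinitely many positive integers `q`
for which some power `M` of `d` exceeds `log q` and `log (a + qd)` and every positive divisor of `q` and
of `a + qd` is `± 1` modulo `M`.
-/

set_option autoImplicit false

namespace Pool.Agent.Results.MP_8bf9c2_nt.DivisorsPlusMinusOne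

open Function Pool.Agent.TwinForm99

/-! ### growth -/

theorem psi_grow (t : ℤ) (ht : 3 ≤ t) (a : ℕ) : t + a ≤ psi^[a] t := by
  induction a with
  | zero => simp
  | succ a ih =>
    rw [Function.iterate_succ_apply']
    have h1 : (3 : ℤ) ≤ psi^[a] t := by linarith [Int.natCast_nonneg a]
    have h2 : psi^[a] t + 1 ≤ psi (psi^[a] t) := by
      generalize psi^[a] t = u at h1 ⊢
      unfold psi
      nlinarith
    push_cast
    linarith

theorem phi_grow (t : ℤ) (ht : 3 ≤ t) (a : ℕ) : t + a ≤ phi^[a] t := by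
  induction a with
  | zero => simp
  | succ a ih =>
    rw [Function.iterate_succ_apply']
    have h1 : (3 : ℤ) ≤ phi^[a] t := by linarith [Int.natCast_nonneg a]
    have h2 : phi^[a] t + 1 ≤ phi (phi^[a] t) := by
      generalize phi^[a] t = u at h1 ⊢
      unfold phi
      nlinarith [mul_nonneg (by linarith : (0 : ℤ) ≤ u - 3) (by linarith : (0 : ℤ) ≤ u),
        mul_nonneg (mul_nonneg (by linarith : (0 : ℤ) ≤ u - 3) (by linarith : (0 : ℤ) ≤ u))
          (by linarith : (0 : ℤ) ≤ u + 3)]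
    push_cast
    linarith

theorem exp_two_gt : (7.3 : ℝ) < Real.exp 2 := by
  have h1 := Real.exp_one_gt_d9
  have h2 : Real.exp 2 = Real.exp 1 ^ 2 := by
    rw [← Real.exp_nat_mul]; norm_num
  rw [h2]
  have h3 : (2.7182818283 : ℝ) ^ 2 < Real.exp 1 ^ 2 := by
    apply pow_lt_pow_left₀ h1 (by norm_num) (by norm_num)
  refine lt_trans ?_ h3
  norm_num

theorem psi_lt_exp (t : ℤ) (ht3 : 3 ≤ t) (ht : t ≤ 7) (a : ℕ) :
    ((psi^[a] t : ℤ) : ℝ) < Real.exp (2 ^ (a + 1)) := by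
  induction a with
  | zero =>
    have h1 : ((t : ℤ) : ℝ) ≤ 7 := by exact_mod_cast ht
    have := exp_two_gt
    simp only [Function.iterate_zero, id_eq, zero_add, pow_one]
    linarith
  | succ a ih =>
    rw [Function.iterate_succ_apply']
    have h0 : (0 : ℤ) < psi^[a] t := by
      have := psi_grow t ht3 a
      linarith [Int.natCast_nonneg a]
    set v : ℤ := psi^[a] t with hv
    have h1 : ((psi v : ℤ) : ℝ) < (v : ℝ) ^ 2 := by
      unfold psi
      push_cast
      linarith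
    have h2 : (v : ℝ) ^ 2 < Real.exp (2 ^ (a + 1)) ^ 2 := by
      apply pow_lt_pow_left₀ ih (by exact_mod_cast h0.le) (by norm_num)
    have h3 : Real.exp (2 ^ (a + 1)) ^ 2 = Real.exp (2 ^ (a + 1 + 1)) := by
      rw [← Real.exp_nat_mul]; congr 1; push_cast; ring
    rw [← h3]
    exact h1.trans h2

theorem phi_lt_exp (t : ℤ) (ht3 : 3 ≤ t) (ht : t ≤ 7) (a : ℕ) :
    ((phi^[a] t : ℤ) : ℝ) < Real.exp (2 * 3 ^ a) := by
  induction a with
  | zero =>
    have h1 : ((t : ℤ) : ℝ) ≤ 7 := by exact_mod_cast ht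
    have := exp_two_gt
    simp only [Function.iterate_zero, id_eq, pow_zero, mul_one]
    linarith
  | succ a ih =>
    rw [Function.iterate_succ_apply']
    have h0 : (0 : ℤ) < phi^[a] t := by
      have := phi_grow t ht3 a
      linarith [Int.natCast_nonneg a]
    set v : ℤ := phi^[a] t with hv
    have h1 : ((phi v : ℤ) : ℝ) < (v : ℝ) ^ 3 := by
      unfold phi
      push_cast
      have : (0 : ℝ) < v := by exact_mod_cast h0
      linarith
    have h2 : (v : ℝ) ^ 3 < Real.exp (2 * 3 ^ a) ^ 3 := by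
      apply pow_lt_pow_left₀ ih (by exact_mod_cast h0.le) (by norm_num)
    have h3 : Real.exp (2 * 3 ^ a) ^ 3 = Real.exp (2 * 3 ^ (a + 1)) := by
      rw [← Real.exp_nat_mul]; congr 1; push_cast; ring
    rw [← h3]
    exact h1.trans h2

/-! ### residues -/

theorem psi3_mod8 (a : ℕ) : psi^[a + 1] (3 : ℤ) % 8 = 7 := by
  induction a with
  | zero => norm_num [psi]
  | succ a ih =>
    rw [Function.iterate_succ_apply']
    generalize psi^[a + 1] (3 : ℤ) = u at ih ⊢
    obtain ⟨w, rfl⟩ : ∃ w, u = 8 * w + 7 := ⟨u / 8, by omega⟩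
    have : psi (8 * w + 7) = 8 * (8 * w ^ 2 + 14 * w + 5) + 7 := by unfold psi; ring
    rw [this]; omega

theorem psi4_mod4 (a : ℕ) : psi^[a + 1] (4 : ℤ) % 4 = 2 := by
  induction a with
  | zero => norm_num [psi]
  | succ a ih =>
    rw [Function.iterate_succ_apply']
    generalize psi^[a + 1] (4 : ℤ) = u at ih ⊢
    obtain ⟨w, rfl⟩ : ∃ w, u = 4 * w + 2 := ⟨u / 4, by omega⟩
    have : psi (4 * w + 2) = 4 * (4 * w ^ 2 + 4 * w) + 2 := by unfold psi; ring
    rw [this]; omega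

theorem phi4_mod9 (a : ℕ) : phi^[a + 1] (4 : ℤ) % 9 = 7 := by
  induction a with
  | zero => norm_num [phi]
  | succ a ih =>
    rw [Function.iterate_succ_apply']
    generalize phi^[a + 1] (4 : ℤ) = u at ih ⊢
    obtain ⟨w, rfl⟩ : ∃ w, u = 9 * w + 7 := ⟨u / 9, by omega⟩
    have : phi (9 * w + 7) = 9 * (81 * w ^ 3 + 189 * w ^ 2 + 144 * w + 35) + 7 := by
      unfold phi; ring
    rw [this]; omega

theorem phi4_even (a : ℕ) : phi^[a] (4 : ℤ) % 2 = 0 := by
  have := phi_dvd 2 4 (by norm_num) a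
  omega

theorem phi5_mod9 (a : ℕ) : phi^[a + 1] (5 : ℤ) % 9 = 2 := by
  induction a with
  | zero => norm_num [phi]
  | succ a ih =>
    rw [Function.iterate_succ_apply']
    generalize phi^[a + 1] (5 : ℤ) = u at ih ⊢
    obtain ⟨w, rfl⟩ : ∃ w, u = 9 * w + 2 := ⟨u / 9, by omega⟩
    have : phi (9 * w + 2) = 9 * (81 * w ^ 3 + 54 * w ^ 2 + 9 * w) + 2 := by
      unfold phi; ring
    rw [this]; omega

/-! ### the four families -/

/-- the property: some power of `d` exceeds both logarithms and all divisors are `± 1` modulo it -/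
def Good (a d : ℤ) (q : ℕ) : Prop :=
  0 < q ∧ ∃ j : ℕ, Real.log q < (d : ℝ) ^ j ∧ Real.log (((a + d * q : ℤ)) : ℝ) < (d : ℝ) ^ j ∧
    0 < a + d * q ∧ ∀ s : ℤ, 0 < s → (s ∣ (q : ℤ) ∨ s ∣ a + d * q) → (d ^ j ∣ s - 1 ∨ d ^ j ∣ s + 1)

theorem log_lt_of (x : ℤ) (hx : 0 < x) (B : ℝ) (h : (x : ℝ) < Real.exp B) :
    Real.log (x : ℝ) < B := by
  rw [Real.log_lt_iff_lt_exp (by exact_mod_cast hx)]
  exact h

theorem fam_1_2 (a : ℕ) : ∃ q : ℕ, a < q ∧ Good 1 2 q := by
  set X : ℤ := psi^[2 * a + 1 + 1] (3 : ℤ) with hX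
  have h8 : X % 8 = 7 := psi3_mod8 (2 * a + 1)
  have hgr : (3 : ℤ) + (2 * a + 1 + 1 : ℕ) ≤ X := psi_grow 3 le_rfl _
  push_cast at hgr
  have hlt : (X : ℝ) < Real.exp (2 ^ (2 * a + 1 + 1 + 1)) := psi_lt_exp 3 le_rfl (by norm_num) _
  obtain ⟨Q, hQ⟩ : ∃ Q : ℤ, X = 2 * Q + 1 := ⟨(X - 1) / 2, by omega⟩
  have hQa : (a : ℤ) < Q := by omega
  obtain ⟨q, rfl⟩ := Int.eq_ofNat_of_zero_le (by linarith [Int.natCast_nonneg a] : (0 : ℤ) ≤ Q)
  have hq0 : 0 < q := by
    have : (0 : ℤ) < q := by linarith [Int.natCast_nonneg a]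
    exact_mod_cast this
  have hqodd : (q : ℤ) % 2 = 1 := by omega
  refine ⟨q, by exact_mod_cast hQa, hq0, 2 * a + 1 + 1 + 1, ?_, ?_, ?_, ?_⟩
  · have h1 : Real.log ((q : ℤ) : ℝ) < 2 ^ (2 * a + 1 + 1 + 1) := by
      apply log_lt_of _ (by exact_mod_cast hq0)
      refine lt_of_le_of_lt ?_ hlt
      have : (q : ℤ) ≤ X := by omega
      exact_mod_cast this
    push_cast at h1 ⊢
    exact h1
  · have h2 : (1 : ℤ) + 2 * q = X := by omega
    rw [h2]
    push_cast
    exact log_lt_of X (by omega) _ hlt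
  · omega
  · intro s hs hdiv
    have h2 : (1 : ℤ) + 2 * q = X := by omega
    rw [h2] at hdiv
    have key := int_of_all (2 ^ (2 * a + 1 + 1 + 1)) s hs ?_
    · push_cast at key ⊢
      exact key
    · intro p hp hps
      rcases hdiv with hd | hd
      · have hp2 : p ≠ 2 := by
          rintro rfl
          have := hps.trans hd
          omega
        have hpX : (p : ℤ) ∣ X - 1 := by
          have : X - 1 = (q : ℤ) * 2 := by omega
          rw [this]
          exact (hps.trans hd).mul_right 2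
        exact psi_prime_dvd_sub_one _ 3 p hp hp2 hpX
      · have hp2 : p ≠ 2 := by
          rintro rfl
          have := hps.trans hd
          omega
        have := psi_prime_dvd _ 3 p hp hp2 (hps.trans hd)
        have hpow : 2 ^ (2 * a + 1 + 1 + 1) ∣ 2 ^ (2 * a + 1 + 1 + 2) :=
          pow_dvd_pow 2 (by omega)
        rcases this with h | h
        · exact Or.inl (hpow.trans h)
        · exact Or.inr (hpow.trans h)

theorem fam_m1_2 (a : ℕ) : ∃ q : ℕ, a < q ∧ Good (-1) 2 q := by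
  set X : ℤ := psi^[2 * a + 1 + 1] (4 : ℤ) with hX
  have h4 : X % 4 = 2 := psi4_mod4 (2 * a + 1)
  have hgr : (4 : ℤ) + (2 * a + 1 + 1 : ℕ) ≤ X := psi_grow 4 (by norm_num) _
  push_cast at hgr
  have hlt : (X : ℝ) < Real.exp (2 ^ (2 * a + 1 + 1 + 1)) :=
    psi_lt_exp 4 (by norm_num) (by norm_num) _
  obtain ⟨Q, hQ⟩ : ∃ Q : ℤ, X = 2 * Q := ⟨X / 2, by omega⟩
  have hQa : (a : ℤ) < Q := by omega
  obtain ⟨q, rfl⟩ := Int.eq_ofNat_of_zero_le (by linarith [Int.natCast_nonneg a] : (0 : ℤ) ≤ Q)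
  have hq0 : 0 < q := by
    have : (0 : ℤ) < q := by linarith [Int.natCast_nonneg a]
    exact_mod_cast this
  have hqodd : (q : ℤ) % 2 = 1 := by omega
  refine ⟨q, by exact_mod_cast hQa, hq0, 2 * a + 1 + 1 + 1, ?_, ?_, ?_, ?_⟩
  · have h1 : Real.log ((q : ℤ) : ℝ) < 2 ^ (2 * a + 1 + 1 + 1) := by
      apply log_lt_of _ (by exact_mod_cast hq0)
      refine lt_of_le_of_lt ?_ hlt
      have : (q : ℤ) ≤ X := by omega
      exact_mod_cast this
    push_cast at h1 ⊢
    exact h1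
  · have h2 : (-1 : ℤ) + 2 * q = X - 1 := by omega
    rw [h2]
    have h3 : (((X - 1 : ℤ)) : ℝ) < Real.exp (2 ^ (2 * a + 1 + 1 + 1)) := by
      push_cast; linarith
    have := log_lt_of (X - 1) (by omega) _ h3
    push_cast at this ⊢
    exact this
  · omega
  · intro s hs hdiv
    have h2 : (-1 : ℤ) + 2 * q = X - 1 := by omega
    rw [h2] at hdiv
    have key := int_of_all (2 ^ (2 * a + 1 + 1 + 1)) s hs ?_
    · push_cast at key ⊢
      exact key
    · intro p hp hps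
      rcases hdiv with hd | hd
      · have hp2 : p ≠ 2 := by
          rintro rfl
          have := hps.trans hd
          omega
        have hpX : (p : ℤ) ∣ X := by
          rw [hQ]
          exact (hps.trans hd).mul_left 2
        have := psi_prime_dvd _ 4 p hp hp2 hpX
        have hpow : 2 ^ (2 * a + 1 + 1 + 1) ∣ 2 ^ (2 * a + 1 + 1 + 2) :=
          pow_dvd_pow 2 (by omega)
        rcases this with h | h
        · exact Or.inl (hpow.trans h)
        · exact Or.inr (hpow.trans h)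
      · have hp2 : p ≠ 2 := by
          rintro rfl
          have := hps.trans hd
          omega
        exact psi_prime_dvd_sub_one _ 4 p hp hp2 (hps.trans hd)

theorem exp_step (X : ℤ) (j : ℕ) (hX : 1 ≤ X) (h : (X : ℝ) < Real.exp (2 * 3 ^ j)) :
    (((X + 1 : ℤ)) : ℝ) < Real.exp (3 ^ (j + 1)) := by
  have h1 : (1 : ℝ) ≤ X := by exact_mod_cast hX
  have h2 : (2 : ℝ) ≤ Real.exp (3 ^ j) := by
    have h3 : (1 : ℝ) ≤ 3 ^ j := one_le_pow₀ (by norm_num)
    have h4 : (1 : ℝ) + 1 ≤ Real.exp 1 := Real.add_one_le_exp 1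
    have h5 : Real.exp 1 ≤ Real.exp (3 ^ j) := Real.exp_le_exp.2 h3
    linarith
  have h3 : Real.exp (3 ^ (j + 1)) = Real.exp (3 ^ j) * Real.exp (2 * 3 ^ j) := by
    rw [← Real.exp_add]; congr 1; ring
  rw [h3]
  push_cast
  have h4 : (X : ℝ) + 1 ≤ 2 * X := by linarith
  calc (X : ℝ) + 1 ≤ 2 * X := h4
    _ ≤ Real.exp (3 ^ j) * X := by nlinarith
    _ < Real.exp (3 ^ j) * Real.exp (2 * 3 ^ j) := by
        apply mul_lt_mul_of_pos_left h; positivity

theorem fam_2_3 (a : ℕ) : ∃ q : ℕ, a < q ∧ Good 2 3 q := by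
  set X : ℤ := phi^[3 * a + 3 + 1] (4 : ℤ) with hX
  have h9 : X % 9 = 7 := phi4_mod9 (3 * a + 3)
  have h2' : X % 2 = 0 := phi4_even _
  have hgr : (4 : ℤ) + (3 * a + 3 + 1 : ℕ) ≤ X := phi_grow 4 (by norm_num) _
  push_cast at hgr
  have hlt0 : (X : ℝ) < Real.exp (2 * 3 ^ (3 * a + 3 + 1)) :=
    phi_lt_exp 4 (by norm_num) (by norm_num) _
  have hlt := exp_step X _ (by omega) hlt0
  obtain ⟨Q, hQ⟩ : ∃ Q : ℤ, X = 3 * Q + 1 := ⟨(X - 1) / 3, by omega⟩
  have hQa : (a : ℤ) < Q := by omega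
  obtain ⟨q, rfl⟩ := Int.eq_ofNat_of_zero_le (by linarith [Int.natCast_nonneg a] : (0 : ℤ) ≤ Q)
  have hq0 : 0 < q := by
    have : (0 : ℤ) < q := by linarith [Int.natCast_nonneg a]
    exact_mod_cast this
  refine ⟨q, by exact_mod_cast hQa, hq0, 3 * a + 3 + 1 + 1, ?_, ?_, ?_, ?_⟩
  · have h1 : Real.log ((q : ℤ) : ℝ) < 3 ^ (3 * a + 3 + 1 + 1) := by
      apply log_lt_of _ (by exact_mod_cast hq0)
      refine lt_of_le_of_lt ?_ hlt
      have : (q : ℤ) ≤ X + 1 := by omega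
      exact_mod_cast this
    push_cast at h1 ⊢
    exact h1
  · have h2 : (2 : ℤ) + 3 * q = X + 1 := by omega
    rw [h2]
    have := log_lt_of (X + 1) (by omega) _ hlt
    push_cast at this ⊢
    exact this
  · omega
  · intro s hs hdiv
    have h2 : (2 : ℤ) + 3 * q = X + 1 := by omega
    rw [h2] at hdiv
    have key := int_of_all (3 ^ (3 * a + 3 + 1 + 1)) s hs ?_
    · push_cast at key ⊢
      exact key
    · intro p hp hps
      rcases hdiv with hd | hd
      · have hp3 : p ≠ 3 := by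
          rintro rfl
          have := hps.trans hd
          omega
        have hpX : (p : ℤ) ∣ X - 1 := by
          have : X - 1 = (q : ℤ) * 3 := by omega
          rw [this]
          exact (hps.trans hd).mul_right 3
        apply prime_dvd_add_one (3 * a + 3 + 1) (-4) p hp hp3
        rw [iter_neg, ← hX]
        have h5 : -X + 1 = -(X - 1) := by ring
        rw [h5]
        exact (dvd_neg).2 hpX
      · have hp3 : p ≠ 3 := by
          rintro rfl
          have := hps.trans hd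
          omega
        exact prime_dvd_add_one (3 * a + 3 + 1) 4 p hp hp3 (hps.trans hd)

theorem fam_m2_3 (a : ℕ) : ∃ q : ℕ, a < q ∧ Good (-2) 3 q := by
  set X : ℤ := phi^[3 * a + 3 + 1] (5 : ℤ) with hX
  have h9 : X % 9 = 2 := phi5_mod9 (3 * a + 3)
  have hgr : (5 : ℤ) + (3 * a + 3 + 1 : ℕ) ≤ X := phi_grow 5 (by norm_num) _
  push_cast at hgr
  have hlt0 : (X : ℝ) < Real.exp (2 * 3 ^ (3 * a + 3 + 1)) :=
    phi_lt_exp 5 (by norm_num) (by norm_num) _
  have hlt := exp_step X _ (by omega) hlt0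
  obtain ⟨Q, hQ⟩ : ∃ Q : ℤ, X = 3 * Q - 1 := ⟨(X + 1) / 3, by omega⟩
  have hQa : (a : ℤ) < Q := by omega
  obtain ⟨q, rfl⟩ := Int.eq_ofNat_of_zero_le (by linarith [Int.natCast_nonneg a] : (0 : ℤ) ≤ Q)
  have hq0 : 0 < q := by
    have : (0 : ℤ) < q := by linarith [Int.natCast_nonneg a]
    exact_mod_cast this
  refine ⟨q, by exact_mod_cast hQa, hq0, 3 * a + 3 + 1 + 1, ?_, ?_, ?_, ?_⟩
  · have h1 : Real.log ((q : ℤ) : ℝ) < 3 ^ (3 * a + 3 + 1 + 1) := by
      apply log_lt_of _ (by exact_mod_cast hq0)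
      refine lt_of_le_of_lt ?_ hlt
      have : (q : ℤ) ≤ X + 1 := by omega
      exact_mod_cast this
    push_cast at h1 ⊢
    exact h1
  · have h2 : (-2 : ℤ) + 3 * q = X - 1 := by omega
    rw [h2]
    have h3 : (((X - 1 : ℤ)) : ℝ) < Real.exp (3 ^ (3 * a + 3 + 1 + 1)) := by
      refine lt_trans ?_ hlt
      push_cast; linarith
    have := log_lt_of (X - 1) (by omega) _ h3
    push_cast at this ⊢
    exact this
  · omega
  · intro s hs hdiv
    have h2 : (-2 : ℤ) + 3 * q = X - 1 := by omega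
    rw [h2] at hdiv
    have key := int_of_all (3 ^ (3 * a + 3 + 1 + 1)) s hs ?_
    · push_cast at key ⊢
      exact key
    · intro p hp hps
      rcases hdiv with hd | hd
      · have hp3 : p ≠ 3 := by
          rintro rfl
          have := hps.trans hd
          omega
        have hpX : (p : ℤ) ∣ X + 1 := by
          have : X + 1 = (q : ℤ) * 3 := by omega
          rw [this]
          exact (hps.trans hd).mul_right 3
        exact prime_dvd_add_one (3 * a + 3 + 1) 5 p hp hp3 hpX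
      · have hp3 : p ≠ 3 := by
          rintro rfl
          have := hps.trans hd
          omega
        apply prime_dvd_add_one (3 * a + 3 + 1) (-5) p hp hp3
        rw [iter_neg, ← hX]
        have h5 : -X + 1 = -(X - 1) := by ring
        rw [h5]
        exact (dvd_neg).2 (hps.trans hd)

theorem result (a d : ℤ)
    (h : (a = 1 ∧ d = 2) ∨ (a = -1 ∧ d = 2) ∨ (a = 2 ∧ d = 3) ∨ (a = -2 ∧ d = 3)) :
    Set.Infinite {q : ℕ | 0 < q ∧ ∃ j : ℕ,
      Real.log q < (d : ℝ) ^ j ∧ Real.log (((a + d * q : ℤ)) : ℝ) < (d : ℝ) ^ j ∧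
      0 < a + d * q ∧
      ∀ s : ℤ, 0 < s → (s ∣ (q : ℤ) ∨ s ∣ a + d * q) → (d ^ j ∣ s - 1 ∨ d ^ j ∣ s + 1)} := by
  rw [Set.infinite_iff_exists_gt]
  intro n
  rcases h with ⟨rfl, rfl⟩ | ⟨rfl, rfl⟩ | ⟨rfl, rfl⟩ | ⟨rfl, rfl⟩
  · obtain ⟨q, h1, h2⟩ := fam_1_2 n
    exact ⟨q, h2, h1⟩
  · obtain ⟨q, h1, h2⟩ := fam_m1_2 n
    exact ⟨q, h2, h1⟩
  · obtain ⟨q, h1, h2⟩ := fam_2_3 n
    exact ⟨q, h2, h1⟩
  · obtain ⟨q, h1, h2⟩ := fam_m2_3 n
    exact ⟨q, h2, h1⟩

end Pool.Agent.Results.MP_8bf9c2_nt.DivisorsPlusMinusOne
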