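import Pool.Agent.PolD.Out

/-!
# MP_8bf9c2_nt: every pair `(a, d)`: a third of the modifications, for one of three multipliers

`Adm a d`: `gcd(a, d) = 1` and `2 ∣ a d` (the hypotheses of the question).
`Good a d`: `Adm a d` and `a + q d` is prime for infinitely many primes `q`.

`result`: let `S` be a set of positive integers which contains `1` and a multiple of `3` and is closed under
multiplication (for example all positive integers), and `ε > 0`.  There are `t 0, t 1, t 2` in `S` with the same prime
factors and a bound `B` such that for EVERY `d` in `S`, EVERY `a` coprime to `d` and EVERY interval `(x, x + X]` with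
`X ≥ B` the numbers of `E` in this interval for which `(a + d E, d t i)` is good, added over `i = 0, 1, 2`, give at least
`1 - ε` times the number of `E` for which `(a + d E, d t 0)` is admissible.

Proof (formalised from scratch).  Four groups of linear forms (`Pool/Agent/SL4`, theorem `dhl4`): if `4 k` linear forms
`s n + h` in four groups of `k` are admissible, two forms of different groups are simultaneously prime infinitely often
(Maynard-Tao sieve for linear forms; upper bound sieve for pairs of primes with all divisors `< N^(1/4-)` and all smooth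
divisors `< N^(1/4+1/2000)`; dispersion method, Siegel-Walfisz, large sieve, Bombieri-Vinogradov).  Then the greedy
argument of `Pool/Agent/PolD/Every3*.lean`: let `n_4 = k`, `n_r = 2 n_(r+1) / ε`, and take `r ≤ 3` with an admissible
chain of `r` groups of `n_r` forms, slopes `s_0 ∣ ... ∣ s_(r-1)` in `S`, all pairs from different groups bad, but
without such a chain of `r + 1` groups of `n_(r+1)` forms.  Let `λ = μ s_(r-1)`, `3 ∣ μ ∈ S`, and add forms of slope
`d λ s_(r-1)` with constant terms `a + d E'`: the new pairs are `(a + d (E' - t_i h), d t_i)`, `t_i = λ s_(r-1) / s_i`,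
with shifts `t_i h` that do not depend on `(a, d)`.  If the conclusion fails, many `E'` have a positive proportion of
bad pairs with every group at once; by the pigeonhole principle `n_(r+1)` of them have the same large sets of bad
partners, and this is a chain of `r + 1` groups.
-/

namespace Pool.Agent.Results.MP_8bf9c2_nt.EveryPair

/-- `(a, d)` is admissible: `gcd(a, d) = 1` and `2 ∣ a d` -/
def Adm (a d : ℤ) : Prop := Int.gcd a d = 1 ∧ 2 ∣ a * d

/-- `(a, d)` is admissible and `a + q d` is prime for infinitely many primes `q` -/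
def Good (a d : ℤ) : Prop :=
  Int.gcd a d = 1 ∧ 2 ∣ a * d ∧ {q : ℕ | q.Prime ∧ ∃ p : ℕ, p.Prime ∧ (p : ℤ) = a + q * d}.Infinite

theorem result (S : Set ℕ) (h1 : 1 ∈ S) (hmul : ∀ m ∈ S, ∀ n ∈ S, m * n ∈ S) (hpos : ∀ m ∈ S, 0 < m)
    (h3 : ∃ m ∈ S, 3 ∣ m) (ε : ℝ) (hε : 0 < ε) :
    ∃ (t : Fin 3 → ℕ) (B : ℕ), (∀ i, t i ∈ S) ∧ (∀ i, (t i).primeFactors = (t 0).primeFactors) ∧
      ∀ d ∈ S, ∀ a : ℤ, Int.gcd a d = 1 → ∀ (x : ℤ) (X : ℕ), B ≤ X →
        (1 - ε) * ({E : ℤ | x < E ∧ E ≤ x + X ∧ Adm (a + d * E) (d * t 0)}.ncard : ℝ) ≤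
          ∑ i, ({E : ℤ | x < E ∧ E ≤ x + X ∧ Good (a + d * E) (d * t i)}.ncard : ℝ) :=
  Pool.Agent.PolD.every_out S h1 hmul hpos h3 ε hε

end Pool.Agent.Results.MP_8bf9c2_nt.EveryPair
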