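import Pool.Agent.ItA.NoFour
import Pool.Agent.PolD.Out

/-!
# MP_8bf9c2_nt: for every pair `(a, d)` a third of the iterates of `q ↦ a + q d`

Q1 asks whether for every pair `(a, d)`, `d ≥ 1`, `gcd(a, d) = 1`, `2 ∣ a d`, the map `f(q) = a + q d` maps infinitely
many primes to primes.  `result`: for EVERY such pair and `ε > 0` every long interval of `X` consecutive natural numbers
contains at least `(1/3 - ε) X` numbers `m` for which the `m`-th iterate `f^[m]`, that is,
`q ↦ a (1 + d + ... + d^(m-1)) + q d^m`, maps infinitely many primes to primes.  The pair `(a, d)` is fixed, there is no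
averaging over `a`.

Proof.  The forms `L_i = f^[i]` have the property: if `L_i` and `L_j`, `i < j`, are simultaneously prime infinitely often
then `f^[j-i]` maps infinitely many primes to primes.  The theorem on four groups of linear forms (`PolD.dhlg4`;
Maynard-Tao sieve, dispersion method, upper bound sieve for pairs) forbids four large groups of indices with all
differences between different groups bad.  A family of the `L_i` is admissible unless a prime `p ∣ d - 1` not dividing `a`
interferes (there `L_i = n + i a` modulo `p`), so the indices of a group are kept in one class modulo all small primes;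
`p = 2` never occurs, for `p ≥ 5` four classes are harmless, and for `p = 3` (`ItA/Third.lean`) the classes of the four
groups are chosen in at most two classes modulo 3.  The groups are built greedily (`ItA/Greedy.lean`).
-/

set_option autoImplicit false

namespace Pool.Agent.Results.MP_8bf9c2_nt.Iterates

theorem result (a : ℤ) (d : ℕ) (hd : 0 < d) (hgcd : Int.gcd a d = 1) (h2 : 2 ∣ a * d) (ε : ℝ) (hε : 0 < ε) :
    ∃ H : ℕ, ∀ x X : ℕ, H ≤ X → (1 / 3 - ε) * X ≤
      ({m : ℕ | x < m ∧ m ≤ x + X ∧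
        {q : ℕ | q.Prime ∧ ∃ p : ℕ, p.Prime ∧ (p : ℤ) = (fun y : ℤ => a + y * d)^[m] q}.Infinite}.ncard : ℝ) := by
  classical
  have hGd : ∀ m : ℕ, {q : ℕ | q.Prime ∧ ∃ p : ℕ, p.Prime ∧ (p : ℤ) = (fun y : ℤ => a + y * d)^[m] q}.Infinite ↔
      Pool.Agent.ItA.GdI a d m := fun m => Iff.rfl
  -- reduction to the counting function
  have hcnt : ∀ x X : ℕ, (Pool.Agent.PolD.cnt (fun z => Pool.Agent.ItA.GdI a d z.toNat) x X : ℝ) ≤
      ({m : ℕ | x < m ∧ m ≤ x + X ∧
        {q : ℕ | q.Prime ∧ ∃ p : ℕ, p.Prime ∧ (p : ℤ) = (fun y : ℤ => a + y * d)^[m] q}.Infinite}.ncard : ℝ) := by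
    intro x X
    have hfin : {m : ℕ | x < m ∧ m ≤ x + X ∧
        {q : ℕ | q.Prime ∧ ∃ p : ℕ, p.Prime ∧ (p : ℤ) = (fun y : ℤ => a + y * d)^[m] q}.Infinite}.Finite :=
      (Set.finite_Iic (x + X)).subset fun h hh => hh.2.1
    have h3 : Pool.Agent.PolD.cnt (fun z => Pool.Agent.ItA.GdI a d z.toNat) x X ≤
        {m : ℕ | x < m ∧ m ≤ x + X ∧
        {q : ℕ | q.Prime ∧ ∃ p : ℕ, p.Prime ∧ (p : ℤ) = (fun y : ℤ => a + y * d)^[m] q}.Infinite}.ncard := by
      have hinj : Function.Injective fun t : ℕ => (t : ℤ) := Nat.cast_injective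
      rw [← Set.ncard_image_of_injective _ hinj, Pool.Agent.PolD.cnt_eq, ← Set.ncard_coe_finset]
      refine Set.ncard_le_ncard ?_ (hfin.image _)
      intro z hz
      rw [Finset.coe_filter, Set.mem_setOf_eq, Finset.mem_Ioc] at hz
      obtain ⟨⟨hz1, hz2⟩, hz3⟩ := hz
      have hz0 : 0 ≤ z := by omega
      obtain ⟨m, rfl⟩ := Int.eq_ofNat_of_zero_le hz0
      refine ⟨m, ⟨by exact_mod_cast hz1, by exact_mod_cast hz2, ?_⟩, rfl⟩
      rw [Int.toNat_natCast] at hz3
      exact hz3
    exact_mod_cast h3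
  by_cases ha : a = 0
  · -- `a = 0`, `d = 1`: the identity
    subst ha
    have hd1 : d = 1 := by simpa using hgcd
    subst hd1
    refine ⟨0, fun x X _ => le_trans ?_ (hcnt x X)⟩
    have h3 : ∀ m : ℕ, Pool.Agent.ItA.GdI 0 1 m := by
      intro m
      have h4 : ∀ y : ℤ, (Pool.Agent.ItA.af 0 1)^[m] y = y := by
        intro y
        have h5 : Pool.Agent.ItA.af 0 1 = id := by
          funext y
          simp [Pool.Agent.ItA.af]
        rw [h5, Function.iterate_id, id_eq]
      refine Set.infinite_of_injective_forall_mem (f := Nat.nth Nat.Prime)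
        (Nat.nth_injective Nat.infinite_setOf_prime) fun n => ?_
      exact ⟨Nat.prime_nth_prime n, Nat.nth Nat.Prime n, Nat.prime_nth_prime n, (h4 _).symm⟩
    have h5 : (Pool.Agent.PolD.cnt (fun z => Pool.Agent.ItA.GdI 0 ((1 : ℕ)) z.toNat) x X : ℝ) = X := by
      rw [Pool.Agent.PolD.cnt_eq, Finset.filter_true_of_mem (fun z _ => h3 z.toNat), Int.card_Ioc]
      norm_num
    rw [h5]
    have h6 : (0 : ℝ) ≤ X := Nat.cast_nonneg _
    nlinarith
  · obtain ⟨K, hK, hD⟩ := Pool.Agent.PolD.dhlg4
    obtain ⟨H, hH⟩ := Pool.Agent.ItA.third (fun z => Pool.Agent.ItA.GdI a d z.toNat)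
      (3 * (4 * K).factorial) (by positivity) (dvd_mul_right _ _)
      (fun u hu => Pool.Agent.ItA.no_four K hK hD a ha d hd hgcd h2 u hu) (3 * ε) (by positivity)
    refine ⟨H, fun x X hX => le_trans ?_ (hcnt x X)⟩
    refine le_trans (le_of_eq ?_) (hH x X (Int.natCast_nonneg x) hX)
    ring

end Pool.Agent.Results.MP_8bf9c2_nt.Iterates
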