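import Mathlib
import Pool.Agent.TwinForm99.RoughValues

/-!
# `q` and `a + qd`: few divisors, all large and all `± 1` modulo `d^j`

For `(a, d)` one of `(1, 2), (-1, 2), (2, 3), (-2, 3)` and every `j` there are `δ > 0` and `R` such that for
infinitely many `q` both `q` and `a + qd` have at most `R` divisors, and every divisor `s > 1` of `q` or
`a + qd` is `± 1` modulo `d^j` and exceeds `q^δ` and `(a + qd)^δ`.
-/

set_option autoImplicit false

namespace Pool.Agent.Results.MP_8bf9c2_nt.SizeAndClass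

open Function Pool.Agent.TwinForm99 Pool.Agent.BrunHooley Finset

/-! ### polynomial facts -/

theorem psi_sub_dvd (t t' : ℤ) (a : ℕ) : (t - t') ∣ psi^[a] t - psi^[a] t' := by
  induction a with
  | zero => simp
  | succ a ih =>
    rw [Function.iterate_succ_apply', Function.iterate_succ_apply']
    generalize psi^[a] t = u at ih ⊢
    generalize psi^[a] t' = v at ih ⊢
    have : psi u - psi v = (u - v) * (u + v) := by unfold psi; ring
    rw [this]
    exact ih.mul_right _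

theorem phi_sub_dvd (t t' : ℤ) (a : ℕ) : (t - t') ∣ phi^[a] t - phi^[a] t' := by
  induction a with
  | zero => simp
  | succ a ih =>
    rw [Function.iterate_succ_apply', Function.iterate_succ_apply']
    generalize phi^[a] t = u at ih ⊢
    generalize phi^[a] t' = v at ih ⊢
    have : phi u - phi v = (u - v) * (u ^ 2 + u * v + v ^ 2 - 3) := by unfold phi; ring
    rw [this]
    exact ih.mul_right _

theorem psi_bounds (t : ℤ) (ht : 3 ≤ t) (a : ℕ) : t ≤ psi^[a] t ∧ psi^[a] t ≤ t ^ 2 ^ a := by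
  induction a with
  | zero => simp
  | succ a ih =>
    rw [Function.iterate_succ_apply']
    have h1 : (3 : ℤ) ≤ psi^[a] t := ht.trans ih.1
    have h2 : psi^[a] t ≤ psi (psi^[a] t) := by
      generalize psi^[a] t = u at h1 ⊢
      unfold psi
      nlinarith
    refine ⟨ih.1.trans h2, ?_⟩
    have h3 : psi (psi^[a] t) ≤ (psi^[a] t) ^ 2 := by
      generalize psi^[a] t = u at h1 ⊢
      unfold psi
      linarith
    refine h3.trans ?_
    rw [pow_succ 2 a, pow_mul]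
    exact pow_le_pow_left₀ (by linarith) ih.2 2

theorem phi_bounds (t : ℤ) (ht : 3 ≤ t) (a : ℕ) : t ≤ phi^[a] t ∧ phi^[a] t ≤ t ^ 3 ^ a := by
  induction a with
  | zero => simp
  | succ a ih =>
    rw [Function.iterate_succ_apply']
    have h1 : (3 : ℤ) ≤ phi^[a] t := ht.trans ih.1
    refine ⟨ih.1.trans (phi_ge _ (by linarith)), ?_⟩
    have h3 : phi (phi^[a] t) ≤ (phi^[a] t) ^ 3 := by
      generalize phi^[a] t = u at h1 ⊢
      unfold phi
      linarith
    refine h3.trans ?_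
    rw [pow_succ 3 a, pow_mul]
    exact pow_le_pow_left₀ (by linarith) ih.2 3

theorem psi_odd_mod8 (t : ℤ) (ht : t % 2 = 1) (a : ℕ) : psi^[a + 1] t % 8 = 7 := by
  induction a with
  | zero =>
    simp only [zero_add, Function.iterate_one]
    obtain ⟨w, rfl⟩ : ∃ w, t = 2 * w + 1 := ⟨t / 2, by omega⟩
    have h2 : (2 : ℤ) ∣ w * (w + 1) := by
      rcases Int.even_or_odd w with h | h
      · exact Dvd.dvd.mul_right h.two_dvd _
      · exact Dvd.dvd.mul_left (by obtain ⟨v, hv⟩ := h; exact ⟨v + 1, by omega⟩) _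
    obtain ⟨v, hv⟩ := h2
    have : psi (2 * w + 1) = 4 * (w * (w + 1)) - 1 := by unfold psi; ring
    rw [this, hv]; omega
  | succ a ih =>
    rw [Function.iterate_succ_apply']
    generalize psi^[a + 1] t = u at ih ⊢
    obtain ⟨w, rfl⟩ : ∃ w, u = 8 * w + 7 := ⟨u / 8, by omega⟩
    have : psi (8 * w + 7) = 8 * (8 * w ^ 2 + 14 * w + 5) + 7 := by unfold psi; ring
    rw [this]; omega

theorem psi_even_mod4 (t : ℤ) (ht : t % 2 = 0) (a : ℕ) : psi^[a + 1] t % 4 = 2 := by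
  induction a with
  | zero =>
    simp only [zero_add, Function.iterate_one]
    obtain ⟨w, rfl⟩ : ∃ w, t = 2 * w := ⟨t / 2, by omega⟩
    have : psi (2 * w) = 4 * w ^ 2 - 2 := by unfold psi; ring
    rw [this]; omega
  | succ a ih =>
    rw [Function.iterate_succ_apply']
    generalize psi^[a + 1] t = u at ih ⊢
    obtain ⟨w, rfl⟩ : ∃ w, u = 4 * w + 2 := ⟨u / 4, by omega⟩
    have : psi (4 * w + 2) = 4 * (4 * w ^ 2 + 4 * w) + 2 := by unfold psi; ring
    rw [this]; omega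

theorem phi_one_mod9 (t : ℤ) (ht : t % 3 = 1) (a : ℕ) : phi^[a + 1] t % 9 = 7 := by
  induction a with
  | zero =>
    simp only [zero_add, Function.iterate_one]
    obtain ⟨w, rfl⟩ : ∃ w, t = 3 * w + 1 := ⟨t / 3, by omega⟩
    have : phi (3 * w + 1) = 9 * (3 * w ^ 3 + 3 * w ^ 2 - 1) + 7 := by unfold phi; ring
    rw [this]; omega
  | succ a ih =>
    rw [Function.iterate_succ_apply']
    generalize phi^[a + 1] t = u at ih ⊢
    obtain ⟨w, rfl⟩ : ∃ w, u = 9 * w + 7 := ⟨u / 9, by omega⟩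
    have : phi (9 * w + 7) = 9 * (81 * w ^ 3 + 189 * w ^ 2 + 144 * w + 35) + 7 := by
      unfold phi; ring
    rw [this]; omega

theorem phi_two_mod9 (t : ℤ) (ht : t % 3 = 2) (a : ℕ) : phi^[a + 1] t % 9 = 2 := by
  induction a with
  | zero =>
    simp only [zero_add, Function.iterate_one]
    obtain ⟨w, rfl⟩ : ∃ w, t = 3 * w + 2 := ⟨t / 3, by omega⟩
    have : phi (3 * w + 2) = 9 * (3 * w ^ 3 + 6 * w ^ 2 + 3 * w) + 2 := by unfold phi; ring
    rw [this]; omega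
  | succ a ih =>
    rw [Function.iterate_succ_apply']
    generalize phi^[a + 1] t = u at ih ⊢
    obtain ⟨w, rfl⟩ : ∃ w, u = 9 * w + 2 := ⟨u / 9, by omega⟩
    have : phi (9 * w + 2) = 9 * (81 * w ^ 3 + 54 * w ^ 2 + 9 * w) + 2 := by
      unfold phi; ring
    rw [this]; omega

theorem phi_even (t : ℤ) (a : ℕ) : phi^[a + 1] t % 2 = 0 := by
  rw [Function.iterate_succ_apply']
  generalize phi^[a] t = u
  rcases Int.even_or_odd' u with ⟨w, rfl | rfl⟩
  · have : phi (2 * w) = 2 * (4 * w ^ 3 - 3 * w) := by unfold phi; ring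
    rw [this]; omega
  · have : phi (2 * w + 1) = 2 * (4 * w ^ 3 + 6 * w ^ 2 - 1) := by unfold phi; ring
    rw [this]; omega

/-! ### root counting -/

open Classical in
theorem psi_roots (p : ℕ) (hp : p.Prime) (hp2 : p ≠ 2) (a : ℕ) (b v : ℤ) (T : Finset ℕ)
    (hT : ∀ m ∈ T, m < p ∧ (p : ℤ) ∣ psi^[a] (2 * m + b) - v) : T.card ≤ 2 ^ a := by
  have : Fact p.Prime := ⟨hp⟩
  apply card_roots_le p hp 2 b v _ (2 ^ a) (fun t => psi^[a] t) (fun t => psi^[a] t)
    (fun t => psi_iter_cast' a t p)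
    (Finset.univ.filter (fun t : ZMod p => psi^[a] t = (v : ZMod p)))
    (fun x hx => by rw [Finset.mem_filter]; exact ⟨Finset.mem_univ _, hx⟩)
    (by convert psi_iter_fiber a (v : ZMod p)) T hT
  intro h
  have h2 : p ∣ 2 := by exact_mod_cast h
  exact hp2 ((Nat.prime_dvd_prime_iff_eq hp Nat.prime_two).1 h2)

open Classical in
theorem phi_roots (p : ℕ) (hp : p.Prime) (hp3 : p ≠ 3) (a : ℕ) (b v : ℤ) (T : Finset ℕ)
    (hT : ∀ m ∈ T, m < p ∧ (p : ℤ) ∣ phi^[a] (3 * m + b) - v) : T.card ≤ 3 ^ a := by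
  have : Fact p.Prime := ⟨hp⟩
  apply card_roots_le p hp 3 b v _ (3 ^ a) (fun t => phi^[a] t) (fun t => phi^[a] t)
    (fun t => phi_iter_cast a t p)
    (Finset.univ.filter (fun t : ZMod p => phi^[a] t = (v : ZMod p)))
    (fun x hx => by rw [Finset.mem_filter]; exact ⟨Finset.mem_univ _, hx⟩)
    (by convert phi_iter_fiber a (v : ZMod p)) T hT
  intro h
  have h2 : p ∣ 3 := by exact_mod_cast h
  exact hp3 ((Nat.prime_dvd_prime_iff_eq hp Nat.prime_three).1 h2)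

/-- rho bound for a pair of sequences built from `ψ` -/
theorem psi_rho (Q1 Q2 : ℕ → ℤ) (a : ℕ) (b : ℤ) (ha : 1 ≤ a)
    (h2 : ∀ m, ¬ (2 : ℤ) ∣ Q1 m ∧ ¬ (2 : ℤ) ∣ Q2 m)
    (hQ : ∀ (p : ℕ) (m : ℕ), (p : ℤ) ∣ Q1 m ∨ (p : ℤ) ∣ Q2 m →
      (p : ℤ) ∣ psi^[a] (2 * m + b) ∨ (p : ℤ) ∣ psi^[a] (2 * m + b) - 1)
    (p : ℕ) (hp : p.Prime) :
    rho (Apair Q1 Q2) p ≤ 2 * 2 ^ a ∧ rho (Apair Q1 Q2) p < p := by
  classical
  have ha2 : 2 ≤ 2 ^ a := by
    calc 2 = 2 ^ 1 := by norm_num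
      _ ≤ 2 ^ a := Nat.pow_le_pow_right (by norm_num) ha
  by_cases hp2 : p = 2
  · subst hp2
    have : rho (Apair Q1 Q2) 2 = 0 := by
      unfold rho
      rw [Finset.card_eq_zero, Finset.filter_eq_empty_iff]
      intro m _ hA
      rcases hA with h | h
      · exact (h2 m).1 (by exact_mod_cast h)
      · exact (h2 m).2 (by exact_mod_cast h)
    rw [this]
    exact ⟨by positivity, by norm_num⟩
  set T0 : Finset ℕ := (Finset.range p).filter (fun m => (p : ℤ) ∣ psi^[a] (2 * (m : ℤ) + b))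
    with hT0
  set T1 : Finset ℕ := (Finset.range p).filter (fun m => (p : ℤ) ∣ psi^[a] (2 * (m : ℤ) + b) - 1)
    with hT1
  have hc0 : T0.card ≤ 2 ^ a := by
    apply psi_roots p hp hp2 a b 0
    intro m hm
    rw [hT0, Finset.mem_filter, Finset.mem_range] at hm
    exact ⟨hm.1, by rw [sub_zero]; exact hm.2⟩
  have hc1 : T1.card ≤ 2 ^ a := by
    apply psi_roots p hp hp2 a b 1
    intro m hm
    rw [hT1, Finset.mem_filter, Finset.mem_range] at hm
    exact hm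
  have hsub : (Finset.range p).filter (fun m => Apair Q1 Q2 p m) ⊆ T0 ∪ T1 := by
    intro m hm
    rw [Finset.mem_filter] at hm
    rw [Finset.mem_union, hT0, hT1, Finset.mem_filter, Finset.mem_filter]
    rcases hQ p m hm.2 with h | h
    · exact Or.inl ⟨hm.1, h⟩
    · exact Or.inr ⟨hm.1, h⟩
  have hle : rho (Apair Q1 Q2) p ≤ T0.card + T1.card := by
    unfold rho
    exact (Finset.card_le_card hsub).trans (Finset.card_union_le _ _)
  refine ⟨by omega, ?_⟩
  rcases T0.eq_empty_or_nonempty with h0 | ⟨m, hm⟩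
  · rw [h0] at hle
    simp only [Finset.card_empty, zero_add] at hle
    rcases T1.eq_empty_or_nonempty with h1 | ⟨m, hm⟩
    · rw [h1] at hle
      simp only [Finset.card_empty] at hle
      have := hp.pos
      omega
    · rw [hT1, Finset.mem_filter] at hm
      have h3 := psi_prime_dvd_sub_one a _ p hp hp2 hm.2
      have h4 : 2 ^ (a + 1) ≤ p + 1 := by
        rcases h3 with h | h
        · have := Nat.le_of_dvd (by have := hp.two_le; omega) h
          omega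
        · exact Nat.le_of_dvd (by omega) h
      have h5 : 2 ^ (a + 1) = 2 * 2 ^ a := by ring
      omega
  · rw [hT0, Finset.mem_filter] at hm
    have h3 := psi_prime_dvd a _ p hp hp2 hm.2
    have h4 : 2 ^ (a + 2) ≤ p + 1 := by
      rcases h3 with h | h
      · have := Nat.le_of_dvd (by have := hp.two_le; omega) h
        omega
      · exact Nat.le_of_dvd (by omega) h
    have h5 : 2 ^ (a + 2) = 4 * 2 ^ a := by ring
    omega

theorem phi_prime_dvd_pm (a : ℕ) (t : ℤ) (p : ℕ) (hp : p.Prime) (hp3 : p ≠ 3)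
    (h : (p : ℤ) ∣ phi^[a] t + 1 ∨ (p : ℤ) ∣ phi^[a] t - 1) :
    3 ^ (a + 1) ∣ p - 1 ∨ 3 ^ (a + 1) ∣ p + 1 := by
  rcases h with h | h
  · exact prime_dvd_add_one a t p hp hp3 h
  · apply prime_dvd_add_one a (-t) p hp hp3
    rw [iter_neg]
    have h5 : -phi^[a] t + 1 = -(phi^[a] t - 1) := by ring
    rw [h5]
    exact (dvd_neg).2 h

/-- rho bound for a pair of sequences built from `φ` -/
theorem phi_rho (Q1 Q2 : ℕ → ℤ) (a : ℕ) (b : ℤ) (ha : 1 ≤ a)
    (h3' : ∀ m, ¬ (3 : ℤ) ∣ Q1 m ∧ ¬ (3 : ℤ) ∣ Q2 m)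
    (hQ : ∀ (p : ℕ) (m : ℕ), (p : ℤ) ∣ Q1 m ∨ (p : ℤ) ∣ Q2 m →
      (p : ℤ) ∣ phi^[a] (3 * m + b) + 1 ∨ (p : ℤ) ∣ phi^[a] (3 * m + b) - 1)
    (p : ℕ) (hp : p.Prime) :
    rho (Apair Q1 Q2) p ≤ 2 * 3 ^ a ∧ rho (Apair Q1 Q2) p < p := by
  classical
  have ha2 : 3 ≤ 3 ^ a := by
    calc 3 = 3 ^ 1 := by norm_num
      _ ≤ 3 ^ a := Nat.pow_le_pow_right (by norm_num) ha
  by_cases hp3 : p = 3
  · subst hp3
    have : rho (Apair Q1 Q2) 3 = 0 := by
      unfold rho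
      rw [Finset.card_eq_zero, Finset.filter_eq_empty_iff]
      intro m _ hA
      rcases hA with h | h
      · exact (h3' m).1 (by exact_mod_cast h)
      · exact (h3' m).2 (by exact_mod_cast h)
    rw [this]
    exact ⟨by positivity, by norm_num⟩
  set T0 : Finset ℕ := (Finset.range p).filter (fun m => (p : ℤ) ∣ phi^[a] (3 * (m : ℤ) + b) + 1)
    with hT0
  set T1 : Finset ℕ := (Finset.range p).filter (fun m => (p : ℤ) ∣ phi^[a] (3 * (m : ℤ) + b) - 1)
    with hT1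
  have hc0 : T0.card ≤ 3 ^ a := by
    apply phi_roots p hp hp3 a b (-1)
    intro m hm
    rw [hT0, Finset.mem_filter, Finset.mem_range] at hm
    exact ⟨hm.1, by rw [sub_neg_eq_add]; exact hm.2⟩
  have hc1 : T1.card ≤ 3 ^ a := by
    apply phi_roots p hp hp3 a b 1
    intro m hm
    rw [hT1, Finset.mem_filter, Finset.mem_range] at hm
    exact hm
  have hsub : (Finset.range p).filter (fun m => Apair Q1 Q2 p m) ⊆ T0 ∪ T1 := by
    intro m hm
    rw [Finset.mem_filter] at hm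
    rw [Finset.mem_union, hT0, hT1, Finset.mem_filter, Finset.mem_filter]
    rcases hQ p m hm.2 with h | h
    · exact Or.inl ⟨hm.1, h⟩
    · exact Or.inr ⟨hm.1, h⟩
  have hle : rho (Apair Q1 Q2) p ≤ T0.card + T1.card := by
    unfold rho
    exact (Finset.card_le_card hsub).trans (Finset.card_union_le _ _)
  refine ⟨by omega, ?_⟩
  have key : (∃ m ∈ Finset.range p, (p : ℤ) ∣ phi^[a] (3 * (m : ℤ) + b) + 1 ∨
      (p : ℤ) ∣ phi^[a] (3 * (m : ℤ) + b) - 1) → 3 ^ (a + 1) ≤ p + 1 := by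
    rintro ⟨m, _, h⟩
    rcases phi_prime_dvd_pm a _ p hp hp3 h with h | h
    · have := Nat.le_of_dvd (by have := hp.two_le; omega) h
      omega
    · exact Nat.le_of_dvd (by omega) h
  have h5 : 3 ^ (a + 1) = 3 * 3 ^ a := by ring
  rcases T0.eq_empty_or_nonempty with h0 | ⟨m, hm⟩
  · rcases T1.eq_empty_or_nonempty with h1 | ⟨m, hm⟩
    · rw [h0, h1] at hle
      simp only [Finset.card_empty, add_zero] at hle
      have := hp.pos
      omega
    · rw [hT1, Finset.mem_filter] at hm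
      have := key ⟨m, hm.1, Or.inr hm.2⟩
      omega
  · rw [hT0, Finset.mem_filter] at hm
    have := key ⟨m, hm.1, Or.inl hm.2⟩
    omega

/-! ### assembling -/

/-- the conclusion for one pair -/
def Concl (a d : ℤ) (j : ℕ) : Prop :=
  ∃ (δ : ℝ) (R : ℕ), 0 < δ ∧ Set.Infinite {q : ℕ | 0 < q ∧ 0 < a + d * q ∧
    q.divisors.card ≤ R ∧ (a + d * q).natAbs.divisors.card ≤ R ∧
    ∀ s : ℤ, 1 < s → (s ∣ (q : ℤ) ∨ s ∣ a + d * q) →
      ((d ^ j ∣ s - 1 ∨ d ^ j ∣ s + 1) ∧ (q : ℝ) ^ δ < s ∧ (((a + d * q : ℤ)) : ℝ) ^ δ < s)}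

theorem concl_of (a d : ℤ) (j : ℕ) (Q1 Q2 : ℕ → ℤ) (hQ2 : ∀ m, Q2 m = a + d * Q1 m)
    (hcls : ∀ (m : ℕ) (s : ℤ), 0 < s → (s ∣ Q1 m ∨ s ∣ Q2 m) → (d ^ j ∣ s - 1 ∨ d ^ j ∣ s + 1))
    (hp1 : ∀ m, 1 < Q1 m) (hp2 : ∀ m, 1 < Q2 m)
    (h1 : ∀ p m : ℕ, (p : ℤ) ∣ Q1 (m + p) - Q1 m) (h2 : ∀ p m : ℕ, (p : ℤ) ∣ Q2 (m + p) - Q2 m)
    (κ : ℕ) (hrho : ∀ p : ℕ, p.Prime → rho (Apair Q1 Q2) p ≤ κ ∧ rho (Apair Q1 Q2) p < p)
    (C D : ℕ) (hg1 : ∀ m : ℕ, Q1 m ≤ ((C : ℤ) * (m + 1)) ^ D)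
    (hg2 : ∀ m : ℕ, Q2 m ≤ ((C : ℤ) * (m + 1)) ^ D) : Concl a d j := by
  obtain ⟨δ, R, hδ, hX⟩ := rough_values Q1 Q2 hp1 hp2 h1 h2 κ hrho C D hg1 hg2
  refine ⟨δ, R, hδ, ?_⟩
  rw [Set.infinite_iff_exists_gt]
  intro n
  obtain ⟨m, hm1, hm2, hm3, hm4⟩ := hX n
  obtain ⟨q, hq⟩ := Int.eq_ofNat_of_zero_le (by linarith [hp1 m] : (0 : ℤ) ≤ Q1 m)
  have hQ2' := hQ2 m
  have hp1' := hp1 m
  have hp2' := hp2 m
  rw [hq] at hm1 hm2 hQ2' hp1'
  refine ⟨q, ⟨?_, ?_, ?_, ?_, ?_⟩, by exact_mod_cast hm1⟩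
  · have : (0 : ℤ) < q := by linarith
    exact_mod_cast this
  · rw [← hQ2']; linarith
  · simpa using hm2
  · rw [← hQ2']; exact hm3
  · intro s hs hdiv
    rw [← hQ2', ← hq] at hdiv
    refine ⟨hcls m s (by linarith) hdiv, ?_, ?_⟩
    · have := (hm4 s hs hdiv).1
      rw [hq] at this
      exact_mod_cast this
    · rw [← hQ2']
      exact (hm4 s hs hdiv).2

theorem dvd_pm_mono {M N : ℤ} (h : N ∣ M) {s : ℤ} (hs : M ∣ s - 1 ∨ M ∣ s + 1) :
    N ∣ s - 1 ∨ N ∣ s + 1 := by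
  rcases hs with h1 | h1
  · exact Or.inl (h.trans h1)
  · exact Or.inr (h.trans h1)

theorem psi_class (a : ℕ) (t : ℤ) (s : ℤ) (hs : 0 < s) (h2 : ¬ (2 : ℤ) ∣ s)
    (h : s ∣ psi^[a] t ∨ s ∣ psi^[a] t - 1) :
    (2 : ℤ) ^ (a + 1) ∣ s - 1 ∨ (2 : ℤ) ^ (a + 1) ∣ s + 1 := by
  have key := int_of_all (2 ^ (a + 1)) s hs ?_
  · push_cast at key
    exact key
  · intro p hp hps
    have hp2 : p ≠ 2 := by
      rintro rfl
      exact h2 (by exact_mod_cast hps)
    rcases h with h | h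
    · have := psi_prime_dvd a t p hp hp2 (hps.trans h)
      have hpow : 2 ^ (a + 1) ∣ 2 ^ (a + 2) := pow_dvd_pow 2 (by omega)
      rcases this with h | h
      · exact Or.inl (hpow.trans h)
      · exact Or.inr (hpow.trans h)
    · exact psi_prime_dvd_sub_one a t p hp hp2 (hps.trans h)

theorem phi_class (a : ℕ) (t : ℤ) (s : ℤ) (hs : 0 < s) (h3 : ¬ (3 : ℤ) ∣ s)
    (h : s ∣ phi^[a] t + 1 ∨ s ∣ phi^[a] t - 1) :
    (3 : ℤ) ^ (a + 1) ∣ s - 1 ∨ (3 : ℤ) ^ (a + 1) ∣ s + 1 := by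
  have key := int_of_all (3 ^ (a + 1)) s hs ?_
  · push_cast at key
    exact key
  · intro p hp hps
    have hp3 : p ≠ 3 := by
      rintro rfl
      exact h3 (by exact_mod_cast hps)
    apply phi_prime_dvd_pm a t p hp hp3
    rcases h with h | h
    · exact Or.inl (hps.trans h)
    · exact Or.inr (hps.trans h)

theorem case_1_2 (j : ℕ) : Concl 1 2 j := by
  set X : ℕ → ℤ := fun m => psi^[j + 1] (2 * (m : ℤ) + 3) with hX
  have h8 : ∀ m, X m % 8 = 7 := fun m => psi_odd_mod8 _ (by omega) j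
  have hb : ∀ m : ℕ, 2 * (m : ℤ) + 3 ≤ X m ∧ X m ≤ (2 * (m : ℤ) + 3) ^ 2 ^ (j + 1) :=
    fun m => psi_bounds _ (by linarith [Int.natCast_nonneg m]) (j + 1)
  have hper : ∀ p m : ℕ, 2 * (p : ℤ) ∣ X (m + p) - X m := by
    intro p m
    have := psi_sub_dvd (2 * ((m + p : ℕ) : ℤ) + 3) (2 * (m : ℤ) + 3) (j + 1)
    have h1 : 2 * ((m + p : ℕ) : ℤ) + 3 - (2 * (m : ℤ) + 3) = 2 * (p : ℤ) := by push_cast; ring
    rw [h1] at this
    exact this
  have hQ : ∀ m, X m = 2 * ((X m - 1) / 2) + 1 := fun m => by have := h8 m; omega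
  have hX7 : ∀ m, 7 ≤ X m := by
    intro m
    have h1 := h8 m
    have h2 := (hb m).1
    have := Int.natCast_nonneg m
    omega
  have hodd : ∀ m, ¬ (2 : ℤ) ∣ (X m - 1) / 2 ∧ ¬ (2 : ℤ) ∣ X m := by
    intro m
    have := h8 m
    constructor <;> intro h <;> omega
  apply concl_of 1 2 j (fun m => (X m - 1) / 2) X (fun m => by have := hQ m; omega) _
    (fun m => by have := hX7 m; show 1 < (X m - 1) / 2; omega) (fun m => by have := hX7 m; omega)
    _ _ (2 * 2 ^ (j + 1)) _ 3 (2 ^ (j + 1)) _ _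
  · intro m s hs hdiv
    apply dvd_pm_mono (pow_dvd_pow 2 (by omega : j ≤ j + 1 + 1))
    apply psi_class (j + 1) (2 * (m : ℤ) + 3) s hs
    · intro h
      rcases hdiv with h1 | h1
      · exact (hodd m).1 (h.trans h1)
      · exact (hodd m).2 (h.trans h1)
    · rcases hdiv with h1 | h1
      · right
        have : psi^[j + 1] (2 * (m : ℤ) + 3) - 1 = (X m - 1) / 2 * 2 := by
          have := hQ m
          simp only [hX] at this ⊢
          omega
        rw [this]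
        exact h1.mul_right 2
      · left; exact h1
  · intro p m
    have h1 := hper p m
    have e1 := hQ m
    have e2 := hQ (m + p)
    obtain ⟨c, hc⟩ := h1
    refine ⟨c, ?_⟩
    show (X (m + p) - 1) / 2 - (X m - 1) / 2 = p * c
    have : 2 * ((X (m + p) - 1) / 2 - (X m - 1) / 2) = 2 * (p * c) := by
      rw [← mul_assoc, ← hc]; omega
    linarith
  · intro p m
    exact (Dvd.intro_left 2 rfl).trans (hper p m)
  · intro p hp
    apply psi_rho _ _ (j + 1) 3 (by omega) (fun m => hodd m) _ p hp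
    intro p m hdiv
    rcases hdiv with h1 | h1
    · right
      have : psi^[j + 1] (2 * (m : ℤ) + 3) - 1 = (X m - 1) / 2 * 2 := by
        have := hQ m
        simp only [hX] at this ⊢
        omega
      rw [this]
      exact h1.mul_right 2
    · left; exact h1
  · intro m
    have h1 := (hb m).2
    have h2 : (2 * (m : ℤ) + 3) ^ 2 ^ (j + 1) ≤ ((3 : ℕ) * ((m : ℤ) + 1)) ^ 2 ^ (j + 1) := by
      apply pow_le_pow_left₀ (by positivity)
      push_cast
      linarith [Int.natCast_nonneg m]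
    have h3 := hX7 m
    show (X m - 1) / 2 ≤ _
    omega
  · intro m
    have h1 := (hb m).2
    have h2 : (2 * (m : ℤ) + 3) ^ 2 ^ (j + 1) ≤ ((3 : ℕ) * ((m : ℤ) + 1)) ^ 2 ^ (j + 1) := by
      apply pow_le_pow_left₀ (by positivity)
      push_cast
      linarith [Int.natCast_nonneg m]
    exact h1.trans h2

theorem case_m1_2 (j : ℕ) : Concl (-1) 2 j := by
  set X : ℕ → ℤ := fun m => psi^[j + 1] (2 * (m : ℤ) + 4) with hX
  have h4 : ∀ m, X m % 4 = 2 := fun m => psi_even_mod4 _ (by omega) j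
  have hb : ∀ m : ℕ, 2 * (m : ℤ) + 4 ≤ X m ∧ X m ≤ (2 * (m : ℤ) + 4) ^ 2 ^ (j + 1) :=
    fun m => psi_bounds _ (by linarith [Int.natCast_nonneg m]) (j + 1)
  have hper : ∀ p m : ℕ, 2 * (p : ℤ) ∣ X (m + p) - X m := by
    intro p m
    have := psi_sub_dvd (2 * ((m + p : ℕ) : ℤ) + 4) (2 * (m : ℤ) + 4) (j + 1)
    have h1 : 2 * ((m + p : ℕ) : ℤ) + 4 - (2 * (m : ℤ) + 4) = 2 * (p : ℤ) := by push_cast; ring
    rw [h1] at this
    exact this
  have hQ : ∀ m, X m = 2 * (X m / 2) := fun m => by have := h4 m; omega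
  have hX6 : ∀ m, 6 ≤ X m := by
    intro m
    have h1 := h4 m
    have h2 := (hb m).1
    have := Int.natCast_nonneg m
    omega
  have hodd : ∀ m, ¬ (2 : ℤ) ∣ X m / 2 ∧ ¬ (2 : ℤ) ∣ X m - 1 := by
    intro m
    have := h4 m
    constructor <;> intro h <;> omega
  apply concl_of (-1) 2 j (fun m => X m / 2) (fun m => X m - 1)
    (fun m => by have := hQ m; show X m - 1 = -1 + 2 * (X m / 2); omega) _
    (fun m => by have := hX6 m; show 1 < X m / 2; omega)
    (fun m => by have := hX6 m; show 1 < X m - 1; omega)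
    _ _ (2 * 2 ^ (j + 1)) _ 4 (2 ^ (j + 1)) _ _
  · intro m s hs hdiv
    apply dvd_pm_mono (pow_dvd_pow 2 (by omega : j ≤ j + 1 + 1))
    apply psi_class (j + 1) (2 * (m : ℤ) + 4) s hs
    · intro h
      rcases hdiv with h1 | h1
      · exact (hodd m).1 (h.trans h1)
      · exact (hodd m).2 (h.trans h1)
    · rcases hdiv with h1 | h1
      · left
        have : psi^[j + 1] (2 * (m : ℤ) + 4) = X m / 2 * 2 := by
          have := hQ m
          simp only [hX] at this ⊢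
          omega
        rw [this]
        exact h1.mul_right 2
      · right; exact h1
  · intro p m
    have h1 := hper p m
    have e1 := hQ m
    have e2 := hQ (m + p)
    obtain ⟨c, hc⟩ := h1
    refine ⟨c, ?_⟩
    show X (m + p) / 2 - X m / 2 = p * c
    have : 2 * (X (m + p) / 2 - X m / 2) = 2 * (p * c) := by
      rw [← mul_assoc, ← hc]; omega
    linarith
  · intro p m
    show (p : ℤ) ∣ (X (m + p) - 1) - (X m - 1)
    have : (X (m + p) - 1) - (X m - 1) = X (m + p) - X m := by ring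
    rw [this]
    exact (Dvd.intro_left 2 rfl).trans (hper p m)
  · intro p hp
    apply psi_rho _ _ (j + 1) 4 (by omega) (fun m => hodd m) _ p hp
    intro p m hdiv
    rcases hdiv with h1 | h1
    · left
      have : psi^[j + 1] (2 * (m : ℤ) + 4) = X m / 2 * 2 := by
        have := hQ m
        simp only [hX] at this ⊢
        omega
      rw [this]
      exact h1.mul_right 2
    · right; exact h1
  · intro m
    have h1 := (hb m).2
    have h2 : (2 * (m : ℤ) + 4) ^ 2 ^ (j + 1) ≤ ((4 : ℕ) * ((m : ℤ) + 1)) ^ 2 ^ (j + 1) := by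
      apply pow_le_pow_left₀ (by positivity)
      push_cast
      linarith [Int.natCast_nonneg m]
    have h3 := hX6 m
    show X m / 2 ≤ _
    omega
  · intro m
    have h1 := (hb m).2
    have h2 : (2 * (m : ℤ) + 4) ^ 2 ^ (j + 1) ≤ ((4 : ℕ) * ((m : ℤ) + 1)) ^ 2 ^ (j + 1) := by
      apply pow_le_pow_left₀ (by positivity)
      push_cast
      linarith [Int.natCast_nonneg m]
    show X m - 1 ≤ _
    linarith

theorem phi_growth (m : ℕ) (b : ℤ) (hb0 : 4 ≤ b) (hb : b ≤ 5) (j : ℕ) :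
    phi^[j + 1] (3 * (m : ℤ) + b) + 1 ≤ ((10 : ℕ) * ((m : ℤ) + 1)) ^ 3 ^ (j + 1) := by
  have hm := Int.natCast_nonneg m
  have h1 := (phi_bounds (3 * (m : ℤ) + b) (by linarith) (j + 1)).2
  have h2 : (1 : ℤ) ≤ (3 * (m : ℤ) + b) ^ 3 ^ (j + 1) := one_le_pow₀ (by linarith)
  have h3 : 2 * (3 * (m : ℤ) + b) ^ 3 ^ (j + 1) ≤
      (2 : ℤ) ^ 3 ^ (j + 1) * (3 * (m : ℤ) + b) ^ 3 ^ (j + 1) := by
    apply mul_le_mul_of_nonneg_right _ (by positivity)
    have h0 : 3 ^ (j + 1) ≠ 0 := by positivity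
    exact le_self_pow₀ (by norm_num) h0
  rw [← mul_pow] at h3
  have h4 : (2 * (3 * (m : ℤ) + b)) ^ 3 ^ (j + 1) ≤ ((10 : ℕ) * ((m : ℤ) + 1)) ^ 3 ^ (j + 1) := by
    apply pow_le_pow_left₀ (by positivity)
    push_cast
    linarith
  linarith

theorem case_2_3 (j : ℕ) : Concl 2 3 j := by
  set X : ℕ → ℤ := fun m => phi^[j + 1] (3 * (m : ℤ) + 4) with hX
  have h9 : ∀ m, X m % 9 = 7 := fun m => phi_one_mod9 _ (by omega) j
  have hb : ∀ m : ℕ, 3 * (m : ℤ) + 4 ≤ X m :=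
    fun m => (phi_bounds _ (by linarith [Int.natCast_nonneg m]) (j + 1)).1
  have hper : ∀ p m : ℕ, 3 * (p : ℤ) ∣ X (m + p) - X m := by
    intro p m
    have := phi_sub_dvd (3 * ((m + p : ℕ) : ℤ) + 4) (3 * (m : ℤ) + 4) (j + 1)
    have h1 : 3 * ((m + p : ℕ) : ℤ) + 4 - (3 * (m : ℤ) + 4) = 3 * (p : ℤ) := by push_cast; ring
    rw [h1] at this
    exact this
  have hQ : ∀ m, X m = 3 * ((X m - 1) / 3) + 1 := fun m => by have := h9 m; omega
  have hX7 : ∀ m, 7 ≤ X m := by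
    intro m
    have h1 := h9 m
    have h2 := hb m
    have := Int.natCast_nonneg m
    omega
  have h3' : ∀ m, ¬ (3 : ℤ) ∣ (X m - 1) / 3 ∧ ¬ (3 : ℤ) ∣ X m + 1 := by
    intro m
    have := h9 m
    constructor <;> intro h <;> omega
  have hkey : ∀ (s : ℤ) (m : ℕ), s ∣ (X m - 1) / 3 ∨ s ∣ X m + 1 →
      s ∣ phi^[j + 1] (3 * (m : ℤ) + 4) + 1 ∨ s ∣ phi^[j + 1] (3 * (m : ℤ) + 4) - 1 := by
    intro s m hdiv
    rcases hdiv with h1 | h1
    · right
      have : phi^[j + 1] (3 * (m : ℤ) + 4) - 1 = (X m - 1) / 3 * 3 := by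
        have := hQ m
        simp only [hX] at this ⊢
        omega
      rw [this]
      exact h1.mul_right 3
    · left; exact h1
  apply concl_of 2 3 j (fun m => (X m - 1) / 3) (fun m => X m + 1)
    (fun m => by have := hQ m; show X m + 1 = 2 + 3 * ((X m - 1) / 3); omega) _
    (fun m => by have := hX7 m; show 1 < (X m - 1) / 3; omega)
    (fun m => by have := hX7 m; show 1 < X m + 1; omega)
    _ _ (2 * 3 ^ (j + 1)) _ 10 (3 ^ (j + 1)) _ _
  · intro m s hs hdiv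
    apply dvd_pm_mono (pow_dvd_pow 3 (by omega : j ≤ j + 1 + 1))
    apply phi_class (j + 1) (3 * (m : ℤ) + 4) s hs
    · intro h
      rcases hdiv with h1 | h1
      · exact (h3' m).1 (h.trans h1)
      · exact (h3' m).2 (h.trans h1)
    · exact hkey s m hdiv
  · intro p m
    have h1 := hper p m
    have e1 := hQ m
    have e2 := hQ (m + p)
    obtain ⟨c, hc⟩ := h1
    refine ⟨c, ?_⟩
    show (X (m + p) - 1) / 3 - (X m - 1) / 3 = p * c
    have : 3 * ((X (m + p) - 1) / 3 - (X m - 1) / 3) = 3 * (p * c) := by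
      rw [← mul_assoc, ← hc]; omega
    linarith
  · intro p m
    show (p : ℤ) ∣ (X (m + p) + 1) - (X m + 1)
    have : (X (m + p) + 1) - (X m + 1) = X (m + p) - X m := by ring
    rw [this]
    exact (Dvd.intro_left 3 rfl).trans (hper p m)
  · intro p hp
    exact phi_rho _ _ (j + 1) 4 (by omega) (fun m => h3' m) (fun p m h => hkey p m h) p hp
  · intro m
    have h1 := phi_growth m 4 le_rfl (by norm_num) j
    have h3 := hX7 m
    show (X m - 1) / 3 ≤ _
    have h4 : X m + 1 ≤ ((10 : ℕ) * ((m : ℤ) + 1)) ^ 3 ^ (j + 1) := h1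
    omega
  · intro m
    exact phi_growth m 4 le_rfl (by norm_num) j

theorem case_m2_3 (j : ℕ) : Concl (-2) 3 j := by
  set X : ℕ → ℤ := fun m => phi^[j + 1] (3 * (m : ℤ) + 5) with hX
  have h9 : ∀ m, X m % 9 = 2 := fun m => phi_two_mod9 _ (by omega) j
  have hb : ∀ m : ℕ, 3 * (m : ℤ) + 5 ≤ X m :=
    fun m => (phi_bounds _ (by linarith [Int.natCast_nonneg m]) (j + 1)).1
  have hper : ∀ p m : ℕ, 3 * (p : ℤ) ∣ X (m + p) - X m := by
    intro p m
    have := phi_sub_dvd (3 * ((m + p : ℕ) : ℤ) + 5) (3 * (m : ℤ) + 5) (j + 1)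
    have h1 : 3 * ((m + p : ℕ) : ℤ) + 5 - (3 * (m : ℤ) + 5) = 3 * (p : ℤ) := by push_cast; ring
    rw [h1] at this
    exact this
  have hQ : ∀ m, X m = 3 * ((X m + 1) / 3) - 1 := fun m => by have := h9 m; omega
  have hX7 : ∀ m, 7 ≤ X m := by
    intro m
    have h1 := h9 m
    have h2 := hb m
    have := Int.natCast_nonneg m
    omega
  have h3' : ∀ m, ¬ (3 : ℤ) ∣ (X m + 1) / 3 ∧ ¬ (3 : ℤ) ∣ X m - 1 := by
    intro m
    have := h9 m
    constructor <;> intro h <;> omega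
  have hkey : ∀ (s : ℤ) (m : ℕ), s ∣ (X m + 1) / 3 ∨ s ∣ X m - 1 →
      s ∣ phi^[j + 1] (3 * (m : ℤ) + 5) + 1 ∨ s ∣ phi^[j + 1] (3 * (m : ℤ) + 5) - 1 := by
    intro s m hdiv
    rcases hdiv with h1 | h1
    · left
      have : phi^[j + 1] (3 * (m : ℤ) + 5) + 1 = (X m + 1) / 3 * 3 := by
        have := hQ m
        simp only [hX] at this ⊢
        omega
      rw [this]
      exact h1.mul_right 3
    · right; exact h1
  apply concl_of (-2) 3 j (fun m => (X m + 1) / 3) (fun m => X m - 1)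
    (fun m => by have := hQ m; show X m - 1 = -2 + 3 * ((X m + 1) / 3); omega) _
    (fun m => by have := hX7 m; show 1 < (X m + 1) / 3; omega)
    (fun m => by have := hX7 m; show 1 < X m - 1; omega)
    _ _ (2 * 3 ^ (j + 1)) _ 10 (3 ^ (j + 1)) _ _
  · intro m s hs hdiv
    apply dvd_pm_mono (pow_dvd_pow 3 (by omega : j ≤ j + 1 + 1))
    apply phi_class (j + 1) (3 * (m : ℤ) + 5) s hs
    · intro h
      rcases hdiv with h1 | h1
      · exact (h3' m).1 (h.trans h1)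
      · exact (h3' m).2 (h.trans h1)
    · exact hkey s m hdiv
  · intro p m
    have h1 := hper p m
    have e1 := hQ m
    have e2 := hQ (m + p)
    obtain ⟨c, hc⟩ := h1
    refine ⟨c, ?_⟩
    show (X (m + p) + 1) / 3 - (X m + 1) / 3 = p * c
    have : 3 * ((X (m + p) + 1) / 3 - (X m + 1) / 3) = 3 * (p * c) := by
      rw [← mul_assoc, ← hc]; omega
    linarith
  · intro p m
    show (p : ℤ) ∣ (X (m + p) - 1) - (X m - 1)
    have : (X (m + p) - 1) - (X m - 1) = X (m + p) - X m := by ring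
    rw [this]
    exact (Dvd.intro_left 3 rfl).trans (hper p m)
  · intro p hp
    exact phi_rho _ _ (j + 1) 5 (by omega) (fun m => h3' m) (fun p m h => hkey p m h) p hp
  · intro m
    have h1 := phi_growth m 5 (by norm_num) le_rfl j
    have h3 := hX7 m
    show (X m + 1) / 3 ≤ _
    have h4 : X m + 1 ≤ ((10 : ℕ) * ((m : ℤ) + 1)) ^ 3 ^ (j + 1) := h1
    omega
  · intro m
    have h1 := phi_growth m 5 (by norm_num) le_rfl j
    show X m - 1 ≤ _
    have h4 : X m + 1 ≤ ((10 : ℕ) * ((m : ℤ) + 1)) ^ 3 ^ (j + 1) := h1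
    omega

theorem result (a d : ℤ)
    (h : (a = 1 ∧ d = 2) ∨ (a = -1 ∧ d = 2) ∨ (a = 2 ∧ d = 3) ∨ (a = -2 ∧ d = 3)) (j : ℕ) :
    ∃ (δ : ℝ) (R : ℕ), 0 < δ ∧ Set.Infinite {q : ℕ | 0 < q ∧ 0 < a + d * q ∧
      q.divisors.card ≤ R ∧ (a + d * q).natAbs.divisors.card ≤ R ∧
      ∀ s : ℤ, 1 < s → (s ∣ (q : ℤ) ∨ s ∣ a + d * q) →
        ((d ^ j ∣ s - 1 ∨ d ^ j ∣ s + 1) ∧ (q : ℝ) ^ δ < s ∧
          (((a + d * q : ℤ)) : ℝ) ^ δ < s)} := by
  rcases h with ⟨rfl, rfl⟩ | ⟨rfl, rfl⟩ | ⟨rfl, rfl⟩ | ⟨rfl, rfl⟩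
  · exact case_1_2 j
  · exact case_m1_2 j
  · exact case_2_3 j
  · exact case_m2_3 j

end Pool.Agent.Results.MP_8bf9c2_nt.SizeAndClass
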