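import Pool.Agent.SLT.MainE

/-!
# MP_8bf9c2_nt: for every pair `(a, d)` at least one third of all admissible modifications `(a + d E, d t)` are good

`Good a d`: `gcd(a, d) = 1`, `2 ∣ a d` and `a + q d` is prime for infinitely many primes `q`.  `share a d t y x`: the number
of `E` in `(y, y + x]` with `Good (a + d E) (d t)` divided by the number of `E` in `(y, y + x]` with `(a + d E, d t)`
admissible (`gcd(a + d E, d t) = 1`, `2 ∣ (a + d E) d t`).

`result`: let `S` be a set of positive integers closed under multiplication and `Φ n` finite nonempty subsets of `S` with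
`#{t ∈ Φ n : m t ∉ Φ n} = o(#Φ n)` for every `m ∈ S` (a Foelner sequence).  Then for every `ε > 0`, all large `n` and some
`H`: for EVERY `d` in `S` or `d = 1`, every `a` coprime to `d` and all intervals of at least `H` consecutive integers the
mean of `share a d t` over `t ∈ Φ n` is at least `1 / 3 - ε`.

For `(a, d) = (0, 1)` this is a statement on all pairs `(E, t)`, `t ∈ S`: `S = {1}` (`Φ n = {1}`): at least a third of the
even numbers in every long interval are differences `p - q` of infinitely many pairs of primes.  `S = {D^j}`: for every `D`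
at least a third of all admissible pairs `(a, D^j)`, on average over `j ≤ n`.  `S` = all positive integers, `Φ n` = the
divisors of `(n!)^n`: a third of all admissible pairs in multiplicative density.

Proof: the four group theorem for primes in linear forms (`Pool/Agent/SL4`: Maynard-Tao sieve with an upper bound sieve for
pairs using smooth divisors beyond `N^(1/4)` and equidistribution of the primes beyond `N^(1/2)`), and a chain of four groups
of forms `s n + h`, `s` in `S`, built greedily such that all pairs from different groups are bad if the mean of the shares is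
less than `1 / 3 - ε` (`Pool/Agent/SLT`).  The only local obstruction for four groups of forms (constant classes mod all
small primes) is the prime 3, which is treated by a case distinction on the classes in the affine group of `F_3`.
-/

namespace Pool.Agent.Results.MP_8bf9c2_nt.OneThird

open Filter Topology

/-- `gcd(a, d) = 1`, `2 ∣ a d` and `a + q d` is prime for infinitely many primes `q` -/
def Good (a : ℤ) (d : ℕ) : Prop :=
  Int.gcd a d = 1 ∧ 2 ∣ a * d ∧ {q : ℕ | q.Prime ∧ ∃ p : ℕ, p.Prime ∧ (p : ℤ) = a + q * d}.Infinite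

open Classical in
/-- the proportion of the `E` with `(a + d E, d t)` good among the `E` with `(a + d E, d t)` admissible,
`E` in `(y, y + x]` -/
noncomputable def share (a : ℤ) (d t : ℕ) (y : ℤ) (x : ℕ) : ℝ :=
  (((Finset.Ioc y (y + x)).filter fun E => Good (a + d * E) (d * t)).card : ℝ) /
    (((Finset.Ioc y (y + x)).filter fun E =>
      Int.gcd (a + d * E) ((d * t : ℕ) : ℤ) = 1 ∧ 2 ∣ (a + d * E) * ((d * t : ℕ) : ℤ)).card : ℝ)

open Classical in
theorem result (S : Set ℕ) (Φ : ℕ → Finset ℕ) (hS : ∀ m ∈ S, 0 < m) (hmul : ∀ a ∈ S, ∀ b ∈ S, a * b ∈ S)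
    (hΦ : ∀ n, (Φ n).Nonempty ∧ ∀ t ∈ Φ n, t ∈ S)
    (hF : ∀ m ∈ S, Tendsto (fun n => (((Φ n).filter fun t => m * t ∉ Φ n).card : ℝ) / (Φ n).card) atTop (𝓝 0))
    (ε : ℝ) (hε : 0 < ε) :
    ∀ᶠ n in atTop, ∃ H : ℕ, ∀ (a : ℤ) (d : ℕ), (d = 1 ∨ d ∈ S) → Int.gcd a d = 1 → ∀ (y : ℤ) (x : ℕ), H ≤ x →
      (1 / 3 - ε) * (Φ n).card ≤ ∑ t ∈ Φ n, share a d t y x := by
  have h : ∀ (a : ℤ) (d t : ℕ) (y : ℤ) (x : ℕ), share a d t y x = Pool.Agent.SL.shE a d t y x := by
    intro a d t y x
    unfold share Pool.Agent.SL.shE
    rw [Pool.Agent.SL.cntI_eq, Pool.Agent.SL.cntI_eq]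
    rfl
  simp only [h]
  exact Pool.Agent.SL.one_third_every S Φ hS hmul hΦ hF ε hε

end Pool.Agent.Results.MP_8bf9c2_nt.OneThird
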