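import Pool.Agent.MP_8bf9c2_nt.PolySieve

/-!
# Pairs of almost primes with prescribed parity relation: the engine

`OmegaIn S n` is the number of prime factors of `n` in `S`, counted with multiplicity.  If for all
completely multiplicative signs `f, g` every value `F(w)` of an integer polynomial without fixed prime
divisor yields a pair `n, a + d n` dividing a power of `F(w)` with `f(n) = g(a + d n)`, then the sieve
gives infinitely many pairs of almost primes `n, a + d n` with `f(n) = g(a + d n)`.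
-/

set_option autoImplicit false

namespace Pool.Agent.MP_8bf9c2_nt.Parity

open Polynomial Finset Pool.Agent.MP_8bf9c2_nt.PolySieve

open Classical in
/-- number of prime factors of `n` in `S`, counted with multiplicity -/
noncomputable def OmegaIn (S : Set ℕ) (n : ℕ) : ℕ :=
  (n.primeFactorsList.filter (fun p => decide (p ∈ S))).length

/-- completely multiplicative with values `1, -1` -/
def Sgn (f : ℕ → ℤ) : Prop :=
  (∀ n, f n = 1 ∨ f n = -1) ∧ ∀ m n, 0 < m → 0 < n → f (m * n) = f m * f n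

/-- for all completely multiplicative signs `f, g` there are infinitely many `n` such that `n` and
`a + d n` are almost prime with `f(n) = g(a + d n)` -/
def Pairs (a : ℤ) (d : ℕ) : Prop :=
  ∃ δ : ℝ, 0 < δ ∧ ∃ R : ℕ, ∀ f g : ℕ → ℤ, Sgn f → Sgn g → ∀ N : ℕ, ∃ n : ℕ,
    N < n ∧ 0 < a + d * n ∧
    n.divisors.card ≤ R ∧ (a + d * n).natAbs.divisors.card ≤ R ∧
    (∀ q : ℤ, 1 < q → (q ∣ (n : ℤ) ∨ q ∣ a + d * n) →
      (n : ℝ) ^ δ < q ∧ ((a + d * n : ℤ) : ℝ) ^ δ < q) ∧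
    f n = g (a + d * n).natAbs

theorem omegaIn_mul (S : Set ℕ) (m n : ℕ) (hm : 0 < m) (hn : 0 < n) :
    OmegaIn S (m * n) = OmegaIn S m + OmegaIn S n := by
  classical
  unfold OmegaIn
  have h := Nat.perm_primeFactorsList_mul hm.ne' hn.ne'
  rw [(h.filter _).length_eq, List.filter_append, List.length_append]

theorem sgn_omegaIn (S : Set ℕ) : Sgn (fun n => (-1) ^ OmegaIn S n) := by
  constructor
  · intro n
    exact neg_one_pow_eq_or ℤ _
  · intro m n hm hn
    simp only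
    rw [omegaIn_mul S m n hm hn, pow_add]

theorem engine (a : ℤ) (d : ℕ) (F : ℤ[X]) (c : ℕ) (hc : 0 < c)
    (hloc : ∀ p : ℕ, p.Prime → ∃ m : ℤ, ¬ (p : ℤ) ∣ F.eval m)
    (h : ∀ f g : ℕ → ℤ, Sgn f → Sgn g → ∀ w : ℕ, F.eval (w : ℤ) ≠ 0 ∧ ∃ n : ℕ,
        1 < n ∧ 0 < a + d * n ∧
        (n : ℤ) * (a + d * n) ∣ (F.eval (w : ℤ)) ^ c ∧ f n = g (a + d * n).natAbs) :
    Pairs a d := by
  obtain ⟨k, hk, hs⟩ := poly_sieve F hloc
  have hkc : 0 < k * c := Nat.mul_pos hk hc
  refine ⟨1 / ((k * c : ℕ) : ℝ), by positivity, 2 ^ (k * c), ?_⟩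
  intro f g hf0 hg0 N
  obtain ⟨z, w, hNz, hz2, hp, hsize⟩ := hs (N + 1)
  obtain ⟨hF0, n, hn1, hpos, hdvd, hf⟩ := h f g hf0 hg0 w
  have hpc : ∀ p : ℕ, p.Prime → (p : ℤ) ∣ (F.eval (w : ℤ)) ^ c → z ≤ p := by
    intro p hpp hd
    exact hp p hpp ((Nat.prime_iff_prime_int.1 hpp).dvd_of_dvd_pow hd)
  have hFc0 : (F.eval (w : ℤ)) ^ c ≠ 0 := pow_ne_zero _ hF0
  have hsize2 : |(n : ℤ) * (a + d * n)| < (z : ℤ) ^ (k * c) := by
    have h1 : |(n : ℤ) * (a + d * n)| ≤ |(F.eval (w : ℤ)) ^ c| := by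
      apply Int.le_of_dvd (abs_pos.2 hFc0)
      rw [abs_dvd, dvd_abs]
      exact hdvd
    refine h1.trans_lt ?_
    rw [abs_pow, pow_mul]
    exact pow_lt_pow_left₀ hsize (abs_nonneg _) hc.ne'
  obtain ⟨hb1, hb2, hb3⟩ := pair_bounds z (k * c) hkc hz2 n (a + d * n) (by omega) hpos
    (fun p hpp hd => hpc p hpp (hd.trans hdvd)) hsize2
  refine ⟨n, ?_, hpos, hb1, hb2, ?_, hf⟩
  · have h1 : (1 : ℤ) < n := by exact_mod_cast hn1
    have h2 := le_of_dvd z _ hpc n h1 ((Dvd.intro _ rfl : (n : ℤ) ∣ n * (a + d * n)).trans hdvd)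
    have h3 : z ≤ n := by exact_mod_cast h2
    omega
  · intro q hq hqd
    exact (hb3 q hq hqd).2

/-- local condition from a nonzero value of the reduction -/
theorem loc_of_zmod (F : ℤ[X]) (p : ℕ) (s : ZMod p)
    (h : (F.map (Int.castRingHom (ZMod p))).eval s ≠ 0) : ∃ m : ℤ, ¬ (p : ℤ) ∣ F.eval m := by
  obtain ⟨m, rfl⟩ := ZMod.intCast_surjective s
  refine ⟨m, fun hd => h ?_⟩
  have h2 := Polynomial.eval_intCast_map (Int.castRingHom (ZMod p)) F m
  rw [h2]
  simp only [eq_intCast]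
  rwa [ZMod.intCast_zmod_eq_zero_iff_dvd]

/-- local condition at large primes -/
theorem loc_of_deg (F : ℤ[X]) (p : ℕ) (hp : p.Prime) (hdeg : F.natDegree < p)
    (h : F.map (Int.castRingHom (ZMod p)) ≠ 0) : ∃ m : ℤ, ¬ (p : ℤ) ∣ F.eval m := by
  have : Fact p.Prime := ⟨hp⟩
  obtain ⟨s, hs⟩ := Polynomial.exists_eval_ne_zero_of_natDegree_lt_card
    (F.map (Int.castRingHom (ZMod p))) h (by
      rw [Cardinal.mk_fintype, ZMod.card]
      exact_mod_cast lt_of_le_of_lt natDegree_map_le hdeg)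
  exact loc_of_zmod F p s hs

/-- the engine, in natural numbers: `F(w) = W > 0` -/
theorem engine' (a : ℤ) (d : ℕ) (F : ℤ[X]) (c : ℕ) (hc : 0 < c)
    (hloc : ∀ p : ℕ, p.Prime → ∃ m : ℤ, ¬ (p : ℤ) ∣ F.eval m)
    (h : ∀ f g : ℕ → ℤ, Sgn f → Sgn g → ∀ w : ℕ, ∃ W n m : ℕ, F.eval (w : ℤ) = W ∧ 0 < W ∧
      1 < n ∧ 0 < m ∧ (m : ℤ) = a + d * n ∧ n * m ∣ W ^ c ∧ f n = g m) :
    Pairs a d := by
  apply engine a d F c hc hloc
  intro f g hf hg w
  obtain ⟨W, n, m, hW, hW0, hn, hm, hmn, hd, hfe⟩ := h f g hf hg w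
  refine ⟨by rw [hW]; exact_mod_cast hW0.ne', n, hn, ?_, ?_, ?_⟩
  · rw [← hmn]; exact_mod_cast hm
  · rw [hW, ← hmn]; exact_mod_cast hd
  · rw [← hmn, Int.natAbs_natCast]; exact hfe

open Classical in
/-- a real character `t` modulo `q`, extended by `1` at the primes where it vanishes -/
theorem omegaIn_char (q : ℕ) (t : ZMod q → ℤ) (hm : ∀ a b, t (a * b) = t a * t b) (h1 : t 1 = 1)
    (hv : ∀ a, t a = 0 ∨ t a = 1 ∨ t a = -1) (S : Set ℕ) (hS : ∀ p : ℕ, p ∈ S ↔ t p = -1)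
    (n : ℕ) (hn : 0 < n) (hn0 : t n ≠ 0) : (-1 : ℤ) ^ OmegaIn S n = t n := by
  have key : ∀ l : List ℕ, t ((l.prod : ℕ) : ZMod q) ≠ 0 →
      (-1 : ℤ) ^ (l.filter (fun p => decide (p ∈ S))).length = t ((l.prod : ℕ) : ZMod q) := by
    intro l
    induction l with
    | nil => intro _; simp [h1]
    | cons a l ih =>
      intro h0
      rw [List.prod_cons] at h0 ⊢
      push_cast at h0 ⊢
      rw [hm] at h0 ⊢
      have ha := left_ne_zero_of_mul h0
      have hl := right_ne_zero_of_mul h0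
      have ih' := ih (by push_cast; exact hl)
      push_cast at ih'
      by_cases ha1 : a ∈ S
      · rw [List.filter_cons_of_pos (by simpa using ha1), List.length_cons, pow_succ, ih',
          (hS a).1 ha1]
        ring
      · rw [List.filter_cons_of_neg (by simpa using ha1), ih']
        have : t (a : ZMod q) = 1 := by
          rcases hv (a : ZMod q) with h | h | h
          · exact absurd h ha
          · exact h
          · exact absurd ((hS a).2 h) ha1
        rw [this, one_mul]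
  have h2 := key n.primeFactorsList (by rw [Nat.prod_primeFactorsList hn.ne']; exact hn0)
  rw [Nat.prod_primeFactorsList hn.ne'] at h2
  exact h2

/-- a linear polynomial with a coefficient prime to `p` is nonzero modulo `p` -/
theorem lin_ne (p : ℕ) (A B : ℤ) (h : ¬ ((p : ℤ) ∣ A ∧ (p : ℤ) ∣ B)) :
    (C A * X + C B : ℤ[X]).map (Int.castRingHom (ZMod p)) ≠ 0 := by
  intro h0
  apply h
  have h1 := congrArg (fun g => eval 1 g) h0
  have h2 := congrArg (fun g => eval 0 g) h0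
  simp at h1 h2
  rw [h2, add_zero] at h1
  constructor
  · rwa [← ZMod.intCast_zmod_eq_zero_iff_dvd]
  · rwa [← ZMod.intCast_zmod_eq_zero_iff_dvd]

end Pool.Agent.MP_8bf9c2_nt.Parity
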