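import Pool.Agent.MP_8bf9c2_nt.Parity

/-!
# All gaps `24 k`

`c = 2k`, `K = 3c = 6k`, `x = 27c⁴w + 1 + 3c² + 18c⁶`, `81c⁴s = x³ - 9c²x - 1`,
`X = x - 6c`, `X' = x + 6c`, `Z = 1 + sX`, `Z' = 1 + sX'`, `u = x² + 3cx - 9c²`, `v = x² - 3cx - 9c²`:
`X' = X + 12c`, `X'Z = XZ' + 12c`, `Zu² = Z'v² + 12c`, and the product of the three pairs is a square.
-/

set_option autoImplicit false

namespace Pool.Agent.MP_8bf9c2_nt.Parity

open Polynomial Finset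

/-- the constant term of `x` -/
def bb {R : Type*} [CommRing R] (c : R) : R := 1 + 3 * c ^ 2 + 18 * c ^ 6

/-- `x` as a polynomial in `w` -/
noncomputable def xP (c : ℤ) : ℤ[X] := C (27 * c ^ 4) * X + C (bb c)

/-- `s` as a polynomial in `w` -/
noncomputable def sP (c : ℤ) : ℤ[X] :=
  C (243 * c ^ 8) * X ^ 3 + C (27 * bb c * c ^ 4) * X ^ 2 +
  C (1 + 3 * c ^ 2 + 9 * c ^ 4 + 36 * c ^ 6 + 108 * c ^ 8 + 324 * c ^ 12) * X +
  C (c ^ 2 + 2 * c ^ 4 + 6 * c ^ 6 + 12 * c ^ 8 + 36 * c ^ 10 + 72 * c ^ 14)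

/-- `x(w)` in a commutative ring -/
def xv {R : Type*} [CommRing R] (c w : R) : R := 27 * c ^ 4 * w + bb c

/-- `s(w)` in a commutative ring -/
def sv {R : Type*} [CommRing R] (c w : R) : R :=
  243 * c ^ 8 * w ^ 3 + 27 * bb c * c ^ 4 * w ^ 2 +
  (1 + 3 * c ^ 2 + 9 * c ^ 4 + 36 * c ^ 6 + 108 * c ^ 8 + 324 * c ^ 12) * w +
  (c ^ 2 + 2 * c ^ 4 + 6 * c ^ 6 + 12 * c ^ 8 + 36 * c ^ 10 + 72 * c ^ 14)

theorem sv_eq {R : Type*} [CommRing R] (c w : R) :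
    81 * c ^ 4 * sv c w = xv c w ^ 3 - 9 * c ^ 2 * xv c w - 1 := by
  unfold sv xv bb
  ring

/-- the product of the six forms -/
noncomputable def G (c : ℤ) : ℤ[X] :=
  (xP c - C (6 * c)) * (xP c + C (6 * c)) *
  (xP c ^ 2 + C (3 * c) * xP c - C (9 * c ^ 2)) * (xP c ^ 2 - C (3 * c) * xP c - C (9 * c ^ 2)) *
  (1 + sP c * (xP c - C (6 * c))) * (1 + sP c * (xP c + C (6 * c)))

/-- the product of the six forms in terms of `x` and `s` -/
def gv {R : Type*} [CommRing R] (c x s : R) : R :=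
  (x - 6 * c) * (x + 6 * c) * (x ^ 2 + 3 * c * x - 9 * c ^ 2) * (x ^ 2 - 3 * c * x - 9 * c ^ 2) *
  (1 + s * (x - 6 * c)) * (1 + s * (x + 6 * c))

theorem G_eval (c w : ℤ) : (G c).eval w = gv c (xv c w) (sv c w) := by
  simp [G, gv, xP, sP, xv, sv, bb]

theorem G_natDegree (c : ℤ) : (G c).natDegree ≤ 14 := by
  unfold G xP sP
  compute_degree

theorem map_bb (p : ℕ) (c : ℤ) : ((bb c : ℤ) : ZMod p) = bb (c : ZMod p) := by
  unfold bb
  push_cast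
  ring

theorem G_zmod (p : ℕ) (c : ℤ) (w : ZMod p) :
    ((G c).map (Int.castRingHom (ZMod p))).eval w = gv (c : ZMod p) (xv c w) (sv c w) := by
  simp [G, gv, xP, sP, xv, sv, bb]

theorem xP_zmod (p : ℕ) (c : ℤ) (w : ZMod p) :
    ((xP c).map (Int.castRingHom (ZMod p))).eval w = xv (c : ZMod p) w := by
  simp [xP, xv, bb]

theorem factor_ne (p : ℕ) (hp : p.Prime) (c : ℤ) (h2' : (2 : ZMod p) ≠ 0)
    (h3' : (3 : ZMod p) ≠ 0) (h5' : (c : ZMod p) ≠ 0) :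
    (G c).map (Int.castRingHom (ZMod p)) ≠ 0 := by
  have : Fact p.Prime := ⟨hp⟩
  have hA : (27 * (c : ZMod p) ^ 4) ≠ 0 := by
    have h27 : (27 : ZMod p) = 3 ^ 3 := by norm_num
    rw [h27]
    exact mul_ne_zero (pow_ne_zero _ h3') (pow_ne_zero _ h5')
  have h6 : (6 : ZMod p) * c ≠ 0 := by
    have h23 : (6 : ZMod p) = 2 * 3 := by norm_num
    rw [h23]
    exact mul_ne_zero (mul_ne_zero h2' h3') h5'
  have h9 : (9 : ZMod p) * (c : ZMod p) ^ 2 ≠ 0 := by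
    have h23 : (9 : ZMod p) = 3 ^ 2 := by norm_num
    rw [h23]
    exact mul_ne_zero (pow_ne_zero _ h3') (pow_ne_zero _ h5')
  have hpt : ∀ t : ZMod p, ∃ w : ZMod p, ((xP c).map (Int.castRingHom (ZMod p))).eval w = t := by
    intro t
    refine ⟨(t - bb (c : ZMod p)) / (27 * (c : ZMod p) ^ 4), ?_⟩
    rw [xP_zmod]
    unfold xv
    rw [mul_div_cancel₀ _ hA]
    ring
  unfold G
  simp only [Polynomial.map_mul, Polynomial.map_add, Polynomial.map_sub, Polynomial.map_pow,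
    Polynomial.map_one, Polynomial.map_C]
  refine mul_ne_zero (mul_ne_zero (mul_ne_zero (mul_ne_zero (mul_ne_zero ?_ ?_) ?_) ?_) ?_) ?_
  · intro h0
    obtain ⟨w, hw⟩ := hpt 0
    have h1 := congrArg (fun g => eval w g) h0
    simp [hw] at h1
    rcases h1 with h1 | h1
    · exact h6 (by rw [h1, zero_mul])
    · exact h5' h1
  · intro h0
    obtain ⟨w, hw⟩ := hpt 0
    have h1 := congrArg (fun g => eval w g) h0
    simp [hw] at h1
    rcases h1 with h1 | h1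
    · exact h6 (by rw [h1, zero_mul])
    · exact h5' h1
  · intro h0
    obtain ⟨w, hw⟩ := hpt 0
    have h1 := congrArg (fun g => eval w g) h0
    simp [hw] at h1
    rcases h1 with h1 | h1
    · exact h9 (by rw [h1, zero_mul])
    · exact h5' h1
  · intro h0
    obtain ⟨w, hw⟩ := hpt 0
    have h1 := congrArg (fun g => eval w g) h0
    simp [hw] at h1
    rcases h1 with h1 | h1
    · exact h9 (by rw [h1, zero_mul])
    · exact h5' h1
  · intro h0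
    obtain ⟨w, hw⟩ := hpt (6 * c)
    have h1 := congrArg (fun g => eval w g) h0
    simp [hw] at h1
  · intro h0
    obtain ⟨w, hw⟩ := hpt (-(6 * c))
    have h1 := congrArg (fun g => eval w g) h0
    simp [hw] at h1

theorem dec3 : ∀ c : ZMod 3, c ≠ 0 → gv c (xv c 0) (sv c 0) ≠ 0 := by decide

theorem dec5 : ∀ c : ZMod 5, c ≠ 0 → ∃ w : ZMod 5, gv c (xv c w) (sv c w) ≠ 0 := by decide

theorem dec7 : ∀ c : ZMod 7, c ≠ 0 → ∃ w : ZMod 7, gv c (xv c w) (sv c w) ≠ 0 := by decide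

theorem dec11 : ∀ c : ZMod 11, c ≠ 0 → ∃ w : ZMod 11, gv c (xv c w) (sv c w) ≠ 0 := by decide

theorem dec13 : ∀ c : ZMod 13, c ≠ 0 → ∃ w : ZMod 13, gv c (xv c w) (sv c w) ≠ 0 := by decide

theorem G_loc (c : ℤ) (hc : (2 : ℤ) ∣ c) (p : ℕ) (hp : p.Prime) :
    ∃ m : ℤ, ¬ (p : ℤ) ∣ (G c).eval m := by
  have : Fact p.Prime := ⟨hp⟩
  by_cases hpc : (c : ZMod p) = 0
  · apply loc_of_zmod _ _ 0
    rw [G_zmod, hpc]
    simp [gv, xv, sv, bb]
  by_cases hp3 : p = 3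
  · subst hp3
    apply loc_of_zmod _ _ 0
    rw [G_zmod]
    exact dec3 _ hpc
  by_cases hp5 : p = 5
  · subst hp5
    obtain ⟨w, hw⟩ := dec5 _ hpc
    apply loc_of_zmod _ _ w
    rw [G_zmod]
    exact hw
  by_cases hp7 : p = 7
  · subst hp7
    obtain ⟨w, hw⟩ := dec7 _ hpc
    apply loc_of_zmod _ _ w
    rw [G_zmod]
    exact hw
  by_cases hp11 : p = 11
  · subst hp11
    obtain ⟨w, hw⟩ := dec11 _ hpc
    apply loc_of_zmod _ _ w
    rw [G_zmod]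
    exact hw
  by_cases hp13 : p = 13
  · subst hp13
    obtain ⟨w, hw⟩ := dec13 _ hpc
    apply loc_of_zmod _ _ w
    rw [G_zmod]
    exact hw
  have hp2 : p ≠ 2 := by
    rintro rfl
    exact hpc ((ZMod.intCast_zmod_eq_zero_iff_dvd c 2).2 (by exact_mod_cast hc))
  apply loc_of_deg _ p hp
  · refine lt_of_le_of_lt (G_natDegree _) ?_
    by_contra hlt
    have : p ≤ 14 := by omega
    interval_cases p <;> first | omega | (exfalso; revert hp; norm_num)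
  · apply factor_ne p hp c _ _ hpc
    · intro h
      have h1 := (ZMod.natCast_eq_zero_iff 2 p).1 (by exact_mod_cast h)
      exact hp2 ((Nat.prime_dvd_prime_iff_eq hp Nat.prime_two).1 h1)
    · intro h
      have h1 := (ZMod.natCast_eq_zero_iff 3 p).1 (by exact_mod_cast h)
      exact hp3 ((Nat.prime_dvd_prime_iff_eq hp Nat.prime_three).1 h1)

/-- the three relations -/
theorem rel3 (c x s : ℤ) (hs : 81 * c ^ 4 * s = x ^ 3 - 9 * c ^ 2 * x - 1) :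
    (1 + s * (x - 6 * c)) * ((x ^ 2 + 3 * c * x - 9 * c ^ 2) * (x ^ 2 + 3 * c * x - 9 * c ^ 2)) =
    12 * c + 1 * ((1 + s * (x + 6 * c)) *
      ((x ^ 2 - 3 * c * x - 9 * c ^ 2) * (x ^ 2 - 3 * c * x - 9 * c ^ 2))) := by
  linear_combination (-12 * c) * hs

theorem all_gaps (k : ℕ) (hk : 0 < k) : Pairs (24 * k) 1 := by
  obtain ⟨c, hc⟩ : ∃ c : ℤ, c = 2 * k := ⟨_, rfl⟩
  have hc2 : 2 ≤ c := by
    have : (1 : ℤ) ≤ k := by exact_mod_cast hk
    linarith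
  apply engine' _ _ (G c) 2 (by norm_num) (fun p hp => G_loc c ⟨k, hc⟩ p hp)
  intro f g hf hg w
  have hw : (0 : ℤ) ≤ w := Int.natCast_nonneg w
  obtain ⟨x, hx⟩ : ∃ x : ℤ, x = xv c (w : ℤ) := ⟨_, rfl⟩
  obtain ⟨s, hs⟩ : ∃ s : ℤ, s = sv c (w : ℤ) := ⟨_, rfl⟩
  have hxs : 81 * c ^ 4 * s = x ^ 3 - 9 * c ^ 2 * x - 1 := by rw [hx, hs]; exact sv_eq c (w : ℤ)
  have hc0 : 0 < c := by linarith
  have hx1 : 6 * c + 1 < x := by
    rw [hx]
    unfold xv bb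
    have h1 : 0 ≤ 27 * c ^ 4 * (w : ℤ) := by positivity
    have h2 : 0 < 18 * c ^ 6 := by positivity
    nlinarith
  have hs0 : 0 < s := by
    rw [hs]
    unfold sv bb
    positivity
  have hX0 : 1 < x - 6 * c := by linarith
  have hX'0 : 1 < x + 6 * c := by linarith
  have hv0 : 1 < x ^ 2 - 3 * c * x - 9 * c ^ 2 := by nlinarith
  have hu0 : 1 < x ^ 2 + 3 * c * x - 9 * c ^ 2 := by nlinarith
  have hZ0 : 1 < 1 + s * (x - 6 * c) := by nlinarith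
  have hZ'0 : 1 < 1 + s * (x + 6 * c) := by nlinarith
  have lift : ∀ t : ℤ, 1 < t → ∃ T : ℕ, (T : ℤ) = t ∧ 1 < T := by
    intro t ht
    refine ⟨t.toNat, Int.toNat_of_nonneg (by linarith), ?_⟩
    omega
  obtain ⟨X, hX, hX1⟩ := lift _ hX0
  obtain ⟨X', hX', hX'1⟩ := lift _ hX'0
  obtain ⟨v, hv, hv1⟩ := lift _ hv0
  obtain ⟨u, hu, hu1⟩ := lift _ hu0
  obtain ⟨Z, hZ, hZ1⟩ := lift _ hZ0
  obtain ⟨Z', hZ', hZ'1⟩ := lift _ hZ'0
  have hF : (G c).eval (w : ℤ) = ((X * X' * u * v * Z * Z' : ℕ) : ℤ) := by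
    rw [G_eval, ← hx, ← hs]
    push_cast
    rw [hX, hX', hv, hu, hZ, hZ']
    rfl
  have hW : 0 < X * X' * u * v * Z * Z' := by positivity
  have e1 : (X' : ℤ) = 24 * k + 1 * X := by
    rw [hX', hX, hc]
    ring
  have e2 : ((X' * Z : ℕ) : ℤ) = 24 * k + 1 * ((X * Z' : ℕ) : ℤ) := by
    push_cast
    rw [hX', hX, hZ, hZ', hc]
    ring
  have e3 : ((Z * (u * u) : ℕ) : ℤ) = 24 * k + 1 * ((Z' * (v * v) : ℕ) : ℤ) := by
    push_cast
    rw [hZ, hZ', hu, hv, rel3 c x s hxs, hc]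
    ring
  by_cases h1 : f X = g X'
  · exact ⟨_, X, X', hF, hW, hX1, by omega, by exact_mod_cast e1,
      ⟨(u * v * Z * Z') ^ 2 * (X * X'), by ring⟩, h1⟩
  by_cases h2 : f (X * Z') = g (X' * Z)
  · exact ⟨_, X * Z', X' * Z, hF, hW, by nlinarith, by positivity, by exact_mod_cast e2,
      ⟨(u * v) ^ 2 * (X * X' * Z * Z'), by ring⟩, h2⟩
  by_cases h3 : f (Z' * (v * v)) = g (Z * (u * u))
  · exact ⟨_, Z' * (v * v), Z * (u * u), hF, hW, by nlinarith [Nat.mul_pos (by omega : 0 < v) (by omega : 0 < v)],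
      by positivity, by exact_mod_cast e3, ⟨(X * X') ^ 2 * (Z * Z'), by ring⟩, h3⟩
  exfalso
  have v0 : 0 < v := by omega
  have u0 : 0 < u := by omega
  rw [hf.2 X Z' (by omega) (by omega), hg.2 X' Z (by omega) (by omega)] at h2
  rw [hf.2 Z' (v * v) (by omega) (Nat.mul_pos v0 v0), hg.2 Z (u * u) (by omega) (Nat.mul_pos u0 u0),
    hf.2 v v v0 v0, hg.2 u u u0 u0] at h3
  rcases hf.1 X with a1 | a1 <;> rcases hg.1 X' with a2 | a2 <;> rcases hg.1 Z with a3 | a3 <;>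
    rcases hf.1 Z' with a4 | a4 <;> rcases hf.1 v with a5 | a5 <;> rcases hg.1 u with a6 | a6 <;>
    simp [a1, a2, a3, a4, a5, a6] at h1 h2 h3

end Pool.Agent.MP_8bf9c2_nt.Parity
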