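import Pool.Agent.MP_8bf9c2_nt.Parity

/-!
# Obstructions: if `h` is even and not divisible by `24`, a real character modulo `3`, `4` or `8`
changes its sign between `n` and `n + h` whenever both are prime to `6`.
-/

set_option autoImplicit false

namespace Pool.Agent.MP_8bf9c2_nt.Parity

/-- the character modulo 3 -/
def t3 (a : ZMod 3) : ℤ := if a = 1 then 1 else if a = 2 then -1 else 0

/-- the odd character modulo 4 -/
def t4 (a : ZMod 4) : ℤ := if a = 1 then 1 else if a = 3 then -1 else 0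

/-- the even primitive character modulo 8 -/
def t8 (a : ZMod 8) : ℤ := if a = 1 ∨ a = 7 then 1 else if a = 3 ∨ a = 5 then -1 else 0

theorem obstruction (h : ℕ) (h2 : 2 ∣ h) (h24 : ¬ 24 ∣ h) :
    ∃ f : ℕ → ℤ, Sgn f ∧ ∀ n : ℕ, 0 < n → ¬ 2 ∣ n → ¬ 3 ∣ n → ¬ 3 ∣ n + h → f n ≠ f (n + h) := by
  have conv : ∀ (q : ℕ) (t : ZMod q → ℤ), (∀ a b, t (a * b) = t a * t b) → t 1 = 1 →
      (∀ a, t a = 0 ∨ t a = 1 ∨ t a = -1) →
      (∀ n : ℕ, 0 < n → ¬ 2 ∣ n → ¬ 3 ∣ n → ¬ 3 ∣ n + h → t n ≠ 0 ∧ t (n + h : ℕ) = - t n) →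
      ∃ f : ℕ → ℤ, Sgn f ∧ ∀ n : ℕ, 0 < n → ¬ 2 ∣ n → ¬ 3 ∣ n → ¬ 3 ∣ n + h → f n ≠ f (n + h) := by
    intro q t hm h1 hv ht
    refine ⟨fun n => (-1) ^ OmegaIn {p : ℕ | t p = -1} n, sgn_omegaIn _, ?_⟩
    intro n hn0 hn2 hn3 hnh
    obtain ⟨h0, hflip⟩ := ht n hn0 hn2 hn3 hnh
    simp only
    rw [omegaIn_char q t hm h1 hv {p : ℕ | t p = -1} (fun _ => Iff.rfl) n hn0 h0,
      omegaIn_char q t hm h1 hv {p : ℕ | t p = -1} (fun _ => Iff.rfl) (n + h) (by omega)
        (by rw [hflip]; exact neg_ne_zero.2 h0), hflip]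
    intro hcon
    apply h0
    linarith
  by_cases h3 : 3 ∣ h
  · by_cases h4 : 4 ∣ h
    · apply conv 8 t8 (by decide) (by decide) (by decide)
      intro n hn0 hn2 hn3 hnh
      have h84 : h % 8 = 4 := by omega
      have e1 : ((n + h : ℕ) : ZMod 8) = (n : ZMod 8) + 4 := by
        have : ((h : ℕ) : ZMod 8) = ((4 : ℕ) : ZMod 8) := (ZMod.natCast_eq_natCast_iff' _ _ _).2 h84
        push_cast
        rw [this]
        norm_num
      rw [e1]
      have e2 : (n : ZMod 8) = 1 ∨ (n : ZMod 8) = 3 ∨ (n : ZMod 8) = 5 ∨ (n : ZMod 8) = 7 := by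
        have : n % 8 = 1 ∨ n % 8 = 3 ∨ n % 8 = 5 ∨ n % 8 = 7 := by omega
        rcases this with h | h | h | h
        · left; exact (ZMod.natCast_eq_natCast_iff' n 1 8).2 h
        · right; left; exact (ZMod.natCast_eq_natCast_iff' n 3 8).2 h
        · right; right; left; exact (ZMod.natCast_eq_natCast_iff' n 5 8).2 h
        · right; right; right; exact (ZMod.natCast_eq_natCast_iff' n 7 8).2 h
      revert e2
      generalize (n : ZMod 8) = y
      revert y
      decide
    · apply conv 4 t4 (by decide) (by decide) (by decide)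
      intro n hn0 hn2 hn3 hnh
      have h42 : h % 4 = 2 := by omega
      have e1 : ((n + h : ℕ) : ZMod 4) = (n : ZMod 4) + 2 := by
        have : ((h : ℕ) : ZMod 4) = ((2 : ℕ) : ZMod 4) := (ZMod.natCast_eq_natCast_iff' _ _ _).2 h42
        push_cast
        rw [this]
        norm_num
      rw [e1]
      have e2 : (n : ZMod 4) = 1 ∨ (n : ZMod 4) = 3 := by
        have : n % 4 = 1 ∨ n % 4 = 3 := by omega
        rcases this with h | h
        · left; exact (ZMod.natCast_eq_natCast_iff' n 1 4).2 h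
        · right; exact (ZMod.natCast_eq_natCast_iff' n 3 4).2 h
      revert e2
      generalize (n : ZMod 4) = y
      revert y
      decide
  · apply conv 3 t3 (by decide) (by decide) (by decide)
    intro n hn0 hn2 hn3 hnh
    have e1 : (n : ZMod 3) = h := by
      apply (ZMod.natCast_eq_natCast_iff' n h 3).2
      have a1 : n % 3 = 1 ∨ n % 3 = 2 := by omega
      have a2 : h % 3 = 1 ∨ h % 3 = 2 := by omega
      rcases a1 with a1 | a1 <;> rcases a2 with a2 | a2 <;> omega
    have e2 : (n : ZMod 3) ≠ 0 := by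
      intro h
      exact hn3 ((ZMod.natCast_eq_zero_iff n 3).1 h)
    push_cast
    rw [← e1]
    revert e2
    generalize (n : ZMod 3) = y
    revert y
    decide

end Pool.Agent.MP_8bf9c2_nt.Parity
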