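import Mathlib
import Pool.Agent.BrunHooley.Positive
import Pool.Agent.TwinForm99.SieveFamily

/-!
# Values of an integer polynomial without small prime factors

If no prime divides all values of `f`, then for some `k` and arbitrarily large `z` some value `f(m)`,
`m ≥ 0`, has no prime factor below `z` and is less than `z^k` in absolute value.
-/

set_option autoImplicit false

namespace Pool.Agent.MP_8bf9c2_nt.PolySieve

open Polynomial Finset

/-- the sieve condition -/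
def Af (f : ℤ[X]) (p m : ℕ) : Prop := (p : ℤ) ∣ f.eval (m : ℤ)

theorem Af_congr (f : ℤ[X]) (p : ℕ) (x y : ℤ) (h : (p : ℤ) ∣ x - y) :
    (p : ℤ) ∣ f.eval x ↔ (p : ℤ) ∣ f.eval y := by
  have h1 : (p : ℤ) ∣ f.eval x - f.eval y := h.trans (sub_dvd_eval_sub x y f)
  constructor
  · intro h2
    have := dvd_sub h2 h1
    rwa [sub_sub_cancel] at this
  · intro h2
    have := dvd_add h1 h2
    rwa [sub_add_cancel] at this

theorem Af_per (f : ℤ[X]) : BrunHooley.Per (Af f) := by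
  intro p m
  unfold Af
  apply Af_congr
  push_cast
  simp

theorem Af_rho_le (f : ℤ[X]) (p : ℕ) (hp : p.Prime) (h : ∃ m : ℤ, ¬ (p : ℤ) ∣ f.eval m) :
    BrunHooley.rho (Af f) p ≤ f.natDegree := by
  classical
  have : Fact p.Prime := ⟨hp⟩
  set g : (ZMod p)[X] := f.map (Int.castRingHom (ZMod p)) with hg
  have hev : ∀ m : ℤ, g.eval (m : ZMod p) = ((f.eval m : ℤ) : ZMod p) := by
    intro m
    rw [hg]
    have := Polynomial.eval_map (Int.castRingHom (ZMod p)) ((m : ℤ) : ZMod p) (p := f)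
    rw [this]
    have h2 := Polynomial.hom_eval₂ f (RingHom.id ℤ) (Int.castRingHom (ZMod p)) m
    simp only [RingHom.comp_id, eq_intCast] at h2
    rw [Polynomial.eval, h2]
  have hg0 : g ≠ 0 := by
    intro h0
    obtain ⟨m, hm⟩ := h
    apply hm
    rw [← ZMod.intCast_zmod_eq_zero_iff_dvd, ← hev, h0, eval_zero]
  unfold BrunHooley.rho
  calc _ ≤ g.roots.toFinset.card := by
        apply Finset.card_le_card_of_injOn (fun m : ℕ => (m : ZMod p))
        · intro m hm
          simp only [Finset.coe_filter, Finset.mem_range, Set.mem_ofPred_eq] at hm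
          rw [Finset.mem_coe, Multiset.mem_toFinset, mem_roots hg0, IsRoot.def]
          have h1 := hev (m : ℤ)
          rw [Int.cast_natCast] at h1
          rw [h1, ZMod.intCast_zmod_eq_zero_iff_dvd]
          exact hm.2
        · intro m1 h1 m2 h2 heq
          simp only [Finset.coe_filter, Finset.mem_range, Set.mem_ofPred_eq] at h1 h2
          simp only at heq
          rw [ZMod.natCast_eq_natCast_iff'] at heq
          rwa [Nat.mod_eq_of_lt h1.1, Nat.mod_eq_of_lt h2.1] at heq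
    _ ≤ Multiset.card g.roots := Multiset.toFinset_card_le _
    _ ≤ g.natDegree := card_roots' g
    _ ≤ f.natDegree := natDegree_map_le

theorem Af_rho_lt (f : ℤ[X]) (p : ℕ) (hp : p.Prime) (h : ∃ m : ℤ, ¬ (p : ℤ) ∣ f.eval m) :
    BrunHooley.rho (Af f) p < p := by
  classical
  obtain ⟨m, hm⟩ := h
  have hpZ : (0 : ℤ) < p := by exact_mod_cast hp.pos
  obtain ⟨r, hr⟩ := Int.eq_ofNat_of_zero_le (Int.emod_nonneg m hpZ.ne')
  have hrp : r < p := by
    have := Int.emod_lt_of_pos m hpZ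
    rw [hr] at this
    exact_mod_cast this
  have hnot : ¬ Af f p r := by
    unfold Af
    intro h1
    apply hm
    rw [Af_congr f p m r]
    · exact h1
    · have h2 : (r : ℤ) = m % p := hr.symm
      rw [h2]
      exact Int.dvd_self_sub_emod
  unfold BrunHooley.rho
  calc _ < (Finset.range p).card := by
        apply Finset.card_lt_card
        rw [Finset.ssubset_iff_of_subset (Finset.filter_subset _ _)]
        refine ⟨r, Finset.mem_range.2 hrp, ?_⟩
        rw [Finset.mem_filter]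
        exact fun h => hnot h.2
    _ = p := Finset.card_range p

theorem abs_eval_le (f : ℤ[X]) (m : ℕ) :
    |f.eval (m : ℤ)| ≤ (∑ i ∈ range (f.natDegree + 1), |f.coeff i|) * ((m : ℤ) + 1) ^ f.natDegree := by
  rw [eval_eq_sum_range, Finset.sum_mul]
  refine (Finset.abs_sum_le_sum_abs _ _).trans (Finset.sum_le_sum ?_)
  intro i hi
  rw [Finset.mem_range] at hi
  rw [abs_mul, abs_pow, abs_of_nonneg (Int.natCast_nonneg m)]
  apply mul_le_mul_of_nonneg_left _ (abs_nonneg _)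
  calc (m : ℤ) ^ i ≤ ((m : ℤ) + 1) ^ i :=
        pow_le_pow_left₀ (Int.natCast_nonneg m) (by linarith) i
    _ ≤ _ := pow_le_pow_right₀ (by linarith [Int.natCast_nonneg m]) (by omega)

theorem poly_sieve (f : ℤ[X]) (hloc : ∀ p : ℕ, p.Prime → ∃ m : ℤ, ¬ (p : ℤ) ∣ f.eval m) :
    ∃ k : ℕ, 0 < k ∧ ∀ N : ℕ, ∃ z m : ℕ, N ≤ z ∧ 2 ≤ z ∧
      (∀ p : ℕ, p.Prime → (p : ℤ) ∣ f.eval (m : ℤ) → z ≤ p) ∧ |f.eval (m : ℤ)| < (z : ℤ) ^ k := by
  classical
  obtain ⟨u, r0, hsieve⟩ := BrunHooley.sift_pos f.natDegree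
  refine ⟨u * f.natDegree + 1, Nat.succ_pos _, ?_⟩
  intro N
  obtain ⟨C, hC⟩ := Int.eq_ofNat_of_zero_le
    (Finset.sum_nonneg (fun i _ => abs_nonneg (f.coeff i)) :
      0 ≤ ∑ i ∈ range (f.natDegree + 1), |f.coeff i|)
  obtain ⟨r, hr⟩ : ∃ r : ℕ, r = r0 + N + C + 1 := ⟨_, rfl⟩
  obtain ⟨z, hz⟩ : ∃ z : ℕ, z = 2 ^ 2 ^ r := ⟨_, rfl⟩
  have hrz : r < z := by
    have h1 : r < 2 ^ r := Nat.lt_two_pow_self
    have h2 : 2 ^ r < 2 ^ 2 ^ r := Nat.lt_two_pow_self
    omega
  have hpos := hsieve r (by omega) (Af f) (Af_per f)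
    (fun p hp => by
      have hpp : p.Prime := by
        simp only [BrunHooley.Pz, Finset.mem_filter] at hp
        exact hp.2
      exact ⟨Af_rho_le f p hpp (hloc p hpp), Af_rho_lt f p hpp (hloc p hpp)⟩)
    (2 ^ (2 ^ r * u)) le_rfl
  unfold BrunHooley.sift at hpos
  rw [Finset.card_pos] at hpos
  obtain ⟨m, hm⟩ := hpos
  rw [Finset.mem_filter, Finset.mem_range] at hm
  obtain ⟨hmM, hm2⟩ := hm
  refine ⟨z, m, by omega, by omega, ?_, ?_⟩
  · intro p hp hdiv
    by_contra hcon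
    push Not at hcon
    apply hm2 p _ hdiv
    simp only [BrunHooley.Pz, Finset.mem_filter, Finset.mem_range]
    exact ⟨by rw [← hz]; exact hcon, hp⟩
  · have h1 := abs_eval_le f m
    rw [hC] at h1
    have h4 : 2 ^ (2 ^ r * u) = z ^ u := by rw [hz, ← pow_mul]
    have h5 : ((m : ℤ) + 1) ≤ (z : ℤ) ^ u := by
      have : m + 1 ≤ z ^ u := by rw [← h4]; exact hmM
      exact_mod_cast this
    have h6 : ((m : ℤ) + 1) ^ f.natDegree ≤ ((z : ℤ) ^ u) ^ f.natDegree :=
      pow_le_pow_left₀ (by positivity) h5 _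
    have hzpos : (0 : ℤ) < z := by
      have : 0 < z := by omega
      exact_mod_cast this
    have hCz : (C : ℤ) < z := by
      have : C < z := by omega
      exact_mod_cast this
    calc |f.eval (m : ℤ)| ≤ (C : ℤ) * ((m : ℤ) + 1) ^ f.natDegree := h1
      _ ≤ (C : ℤ) * ((z : ℤ) ^ u) ^ f.natDegree :=
          mul_le_mul_of_nonneg_left h6 (Int.natCast_nonneg C)
      _ < (z : ℤ) * ((z : ℤ) ^ u) ^ f.natDegree :=
          mul_lt_mul_of_pos_right hCz (by positivity)
      _ = (z : ℤ) ^ (u * f.natDegree + 1) := by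
          rw [← pow_mul, pow_succ, mul_comm]

/-- an integer `> 1` dividing a value without prime factors below `z` is at least `z` -/
theorem le_of_dvd (z : ℕ) (v : ℤ) (h : ∀ p : ℕ, p.Prime → (p : ℤ) ∣ v → z ≤ p) (q : ℤ) (hq : 1 < q)
    (hqv : q ∣ v) : (z : ℤ) ≤ q := by
  obtain ⟨Q, rfl⟩ := Int.eq_ofNat_of_zero_le (by linarith : 0 ≤ q)
  have hQ1 : Q ≠ 1 := by rintro rfl; norm_num at hq
  have hQ0 : 0 < Q := by
    have : (0 : ℤ) < Q := by linarith
    exact_mod_cast this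
  have h1 := h Q.minFac (Nat.minFac_prime hQ1)
    ((Int.natCast_dvd_natCast.2 (Nat.minFac_dvd Q)).trans hqv)
  have h2 := Nat.minFac_le hQ0
  exact_mod_cast h1.trans h2

/-- size: `n^(1/k) < q` if `0 < n < z^k` and `z ≤ q` -/
theorem rpow_lt (z k : ℕ) (hk : 0 < k) (n : ℕ) (q : ℤ) (hn : (n : ℤ) < (z : ℤ) ^ k)
    (hq : (z : ℤ) ≤ q) : (n : ℝ) ^ (1 / (k : ℝ)) < q := by
  have hk' : (0 : ℝ) < k := by exact_mod_cast hk
  have hq' : (z : ℝ) ≤ q := by exact_mod_cast hq
  have hn' : (n : ℝ) < (z : ℝ) ^ k := by exact_mod_cast hn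
  have hz0 : (0 : ℝ) ≤ z := by positivity
  calc (n : ℝ) ^ (1 / (k : ℝ)) < ((z : ℝ) ^ k) ^ (1 / (k : ℝ)) :=
        Real.rpow_lt_rpow (by positivity) hn' (by positivity)
    _ = z := by
        rw [← Real.rpow_natCast, ← Real.rpow_mul hz0, mul_one_div_cancel hk'.ne', Real.rpow_one]
    _ ≤ q := hq'

/-- all consequences for a pair `n, X` of positive integers with `n X` a sifted value -/
theorem pair_bounds (z k : ℕ) (hk : 0 < k) (hz2 : 2 ≤ z) (n : ℕ) (X : ℤ) (hn : 0 < n) (hX : 0 < X)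
    (hz : ∀ p : ℕ, p.Prime → (p : ℤ) ∣ (n : ℤ) * X → z ≤ p)
    (hsize : |(n : ℤ) * X| < (z : ℤ) ^ k) :
    n.divisors.card ≤ 2 ^ k ∧ X.natAbs.divisors.card ≤ 2 ^ k ∧
    ∀ q : ℤ, 1 < q → (q ∣ (n : ℤ) ∨ q ∣ X) →
      (z : ℤ) ≤ q ∧ (n : ℝ) ^ (1 / (k : ℝ)) < q ∧ (X : ℝ) ^ (1 / (k : ℝ)) < q := by
  obtain ⟨x, rfl⟩ := Int.eq_ofNat_of_zero_le hX.le
  have hx : 0 < x := by exact_mod_cast hX
  have hnx : n * x < z ^ k := by
    rw [abs_of_nonneg (by positivity)] at hsize
    exact_mod_cast hsize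
  have hn1 : n < z ^ k := lt_of_le_of_lt (Nat.le_mul_of_pos_right n hx) hnx
  have hx1 : x < z ^ k := lt_of_le_of_lt (Nat.le_mul_of_pos_left x hn) hnx
  have hzk : z ^ k ≤ z ^ (k + 1) := Nat.pow_le_pow_right (by omega) (by omega)
  refine ⟨?_, ?_, ?_⟩
  · apply TwinForm99.card_divisors_le z k n hn _ (by omega)
    intro p hp hd
    apply hz p hp
    exact (Int.natCast_dvd_natCast.2 hd).mul_right _
  · rw [Int.natAbs_natCast]
    apply TwinForm99.card_divisors_le z k x hx _ (by omega)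
    intro p hp hd
    apply hz p hp
    exact (Int.natCast_dvd_natCast.2 hd).mul_left _
  · intro q hq hqd
    have hzq : (z : ℤ) ≤ q := by
      apply le_of_dvd z _ hz q hq
      rcases hqd with h1 | h1
      · exact h1.mul_right _
      · exact h1.mul_left _
    refine ⟨hzq, rpow_lt z k hk n q (by exact_mod_cast hn1) hzq, ?_⟩
    exact rpow_lt z k hk x q (by exact_mod_cast hx1) hzq

end Pool.Agent.MP_8bf9c2_nt.PolySieve
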