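import Pool.Agent.MP_8bf9c2_nt.Dickson
import Pool.Agent.MP_8bf9c2_nt.PolySieve

/-!
# The pairs (a, d) = (1, 2r) and (-1, 2r): size and residue class of all divisors of n and a + dn
-/

set_option autoImplicit false

namespace Pool.Agent.Results.MP_8bf9c2_nt.PlusMinusOne

open Pool.Agent.MP_8bf9c2_nt.Dickson Pool.Agent.MP_8bf9c2_nt.PolySieve Function

theorem not_dvd_one (p : ℕ) (hp : p.Prime) : ¬ (p : ℤ) ∣ 1 := by
  intro h
  have h6 : p ∣ 1 := by exact_mod_cast h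
  exact hp.one_lt.ne' (Nat.dvd_one.1 h6)

theorem psi_mod3 (k : ℕ) (hk : 1 ≤ k) (t : ℤ) (h : (3 : ℤ) ∣ t - 1) : (3 : ℤ) ∣ psi^[k] t - 2 := by
  obtain ⟨i, rfl⟩ : ∃ i, k = i + 1 := ⟨k - 1, by omega⟩
  induction i with
  | zero =>
    obtain ⟨u, hu⟩ := h
    have ht : t = 1 + 3 * u := by linear_combination hu
    exact ⟨2 * u + 3 * u ^ 2 - 1, by simp only [zero_add, Function.iterate_one]; unfold psi; rw [ht]; ring⟩
  | succ i ih =>
    obtain ⟨u, hu⟩ := ih (by omega)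
    rw [Function.iterate_succ_apply']
    have ht : psi^[i + 1] t = 2 + 3 * u := by linear_combination hu
    rw [ht]
    exact ⟨4 * u + 3 * u ^ 2, by unfold psi; ring⟩

theorem psi_mod4_even (k : ℕ) (hk : 1 ≤ k) (t : ℤ) (h : (2 : ℤ) ∣ t) : (4 : ℤ) ∣ psi^[k] t - 2 := by
  have hstep : ∀ s : ℤ, (2 : ℤ) ∣ s → (4 : ℤ) ∣ psi s - 2 := by
    rintro s ⟨u, rfl⟩
    exact ⟨u ^ 2 - 1, by unfold psi; ring⟩
  obtain ⟨i, rfl⟩ : ∃ i, k = i + 1 := ⟨k - 1, by omega⟩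
  induction i with
  | zero => simpa using hstep _ h
  | succ i ih =>
    rw [Function.iterate_succ_apply']
    apply hstep
    obtain ⟨u, hu⟩ := ih (by omega)
    exact ⟨2 * u + 1, by linear_combination hu⟩

theorem psi_mod4_odd (k : ℕ) (hk : 1 ≤ k) (t : ℤ) (h : (2 : ℤ) ∣ t - 1) :
    (4 : ℤ) ∣ psi^[k] t + 1 := by
  have hstep : ∀ s : ℤ, (2 : ℤ) ∣ s - 1 → (4 : ℤ) ∣ psi s + 1 := by
    rintro s ⟨u, hu⟩
    have : s = 1 + 2 * u := by linear_combination hu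
    rw [this]
    exact ⟨u + u ^ 2, by unfold psi; ring⟩
  obtain ⟨i, rfl⟩ : ∃ i, k = i + 1 := ⟨k - 1, by omega⟩
  induction i with
  | zero => simpa using hstep _ h
  | succ i ih =>
    rw [Function.iterate_succ_apply']
    apply hstep
    obtain ⟨u, hu⟩ := ih (by omega)
    exact ⟨2 * u - 1, by linear_combination hu⟩

/-- primes dividing `psi^[k] t - c` -/
theorem prime_dvd_fibre (k c : ℕ) (hc : c = 0 ∨ c = 1) (t : ℤ) (p : ℕ) (hp : p.Prime) (hp2 : p ≠ 2)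
    (hp3 : p ≠ 3) (h : (p : ℤ) ∣ psi^[k] t - c) :
    modulus k c ∣ p - 1 ∨ modulus k c ∣ p + 1 := by
  unfold modulus
  rcases hc with rfl | rfl
  · rw [if_pos rfl]
    apply prime_dvd_T k 0 t p hp hp2
    simpa [T] using h
  · rw [if_neg (by norm_num)]
    exact prime_dvd_psi_sub_one k t p hp hp2 hp3 (by exact_mod_cast h)

/-- arithmetic of a value `psi^[k] t` -/
theorem key (k r c c' : ℕ) (hk : 1 ≤ k) (hcc : (c = 0 ∧ c' = 1) ∨ (c = 1 ∧ c' = 0))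
    (hr : 0 < r) (hr2 : ¬ 2 ∣ r) (t : ℤ)
    (hmod3 : (3 : ℤ) ∣ t - 1) (hmod2 : (2 : ℤ) ∣ t - c)
    (hmodr : ((r : ℤ)) ^ 2 ∣ psi^[k] t - (c + r)) :
    ∃ n : ℤ, psi^[k] t - c = (2 * r : ℤ) * n ∧ (¬ (2 : ℤ) ∣ n ∧ ¬ (2 : ℤ) ∣ psi^[k] t - c') ∧
      (¬ (3 : ℤ) ∣ n ∧ ¬ (3 : ℤ) ∣ psi^[k] t - c') ∧
      ∀ p : ℕ, p.Prime → p ∣ r → ¬ (p : ℤ) ∣ n ∧ ¬ (p : ℤ) ∣ psi^[k] t - c' := by
  obtain ⟨T0, hT0⟩ : ∃ T0 : ℤ, T0 = psi^[k] t := ⟨_, rfl⟩
  have h3 := psi_mod3 k hk t hmod3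
  have h4 : (4 : ℤ) ∣ T0 - c - 2 := by
    rcases hcc with ⟨rfl, -⟩ | ⟨rfl, -⟩
    · have := psi_mod4_even k hk t (by simpa using hmod2)
      rw [← hT0] at this
      simpa using this
    · have := psi_mod4_odd k hk t (by simpa using hmod2)
      rw [← hT0] at this
      push_cast
      omega
  rw [← hT0] at hmodr h3 ⊢
  obtain ⟨x, hx⟩ := hmodr
  have hTr : T0 - c = r * (1 + r * x) := by linear_combination hx
  obtain ⟨v, hv⟩ := h4
  have hTv : T0 - c = 2 * (2 * v + 1) := by linear_combination hv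
  have hrdvd : (r : ℤ) ∣ 2 * v + 1 := by
    have h1 : (r : ℤ) ∣ 2 * (2 * v + 1) := by rw [← hTv, hTr]; exact dvd_mul_right _ _
    have h2 : IsCoprime (r : ℤ) 2 := by
      exact_mod_cast Nat.isCoprime_iff_coprime.2
        ((Nat.Prime.coprime_iff_not_dvd Nat.prime_two).2 hr2).symm
    exact h2.dvd_of_dvd_mul_left h1
  obtain ⟨n, hn⟩ := hrdvd
  have hTn : T0 - c = (2 * r : ℤ) * n := by rw [hTv, hn]; ring
  have hc01 : ((c : ℤ) = 0 ∧ (c' : ℤ) = 1) ∨ ((c : ℤ) = 1 ∧ (c' : ℤ) = 0) := by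
    rcases hcc with ⟨rfl, rfl⟩ | ⟨rfl, rfl⟩
    · left; exact ⟨rfl, rfl⟩
    · right; exact ⟨rfl, rfl⟩
  refine ⟨n, hTn, ⟨?_, ?_⟩, ⟨?_, ?_⟩, ?_⟩
  · intro h
    have h1 : (2 : ℤ) ∣ 2 * v + 1 := by rw [hn]; exact h.mul_left _
    omega
  · intro h
    rcases hc01 with ⟨h1, h2⟩ | ⟨h1, h2⟩ <;> omega
  · intro h
    have h1 : (3 : ℤ) ∣ T0 - c := by rw [hTn]; exact h.mul_left _
    rcases hc01 with ⟨h1, h2⟩ | ⟨h1, h2⟩ <;> omega
  · intro h
    rcases hc01 with ⟨h1, h2⟩ | ⟨h1, h2⟩ <;> omega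
  · intro p hp hpr
    have hprZ : (p : ℤ) ∣ r := Int.natCast_dvd_natCast.2 hpr
    constructor
    · intro h
      have h1 : (r : ℤ) * (1 + r * x) = r * (2 * n) := by rw [← hTr, hTn]; ring
      have h2 : 1 + r * x = 2 * n := mul_left_cancel₀ (by exact_mod_cast hr.ne') h1
      have h3 : (p : ℤ) ∣ 1 + r * x := by rw [h2]; exact h.mul_left _
      exact not_dvd_one p hp ((Int.dvd_add_left (hprZ.mul_right _)).1 h3)
    · intro h
      have h1 : (p : ℤ) ∣ T0 - c := by rw [hTr]; exact hprZ.mul_right _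
      have h2 := dvd_sub h1 h
      have h3 : T0 - c - (T0 - c') = c' - c := by ring
      rw [h3] at h2
      rcases hc01 with ⟨h4, h5⟩ | ⟨h4, h5⟩
      · rw [h4, h5] at h2; exact not_dvd_one p hp (by simpa using h2)
      · rw [h4, h5] at h2
        exact not_dvd_one p hp ((dvd_neg).1 (by simpa using h2))

/-- the general statement: `n = (T - c) / (2r)`, `a + 2rn = T - c'`, `a = c - c'` -/
theorem main (k r c c' : ℕ) (hk : 1 ≤ k) (hcc : (c = 0 ∧ c' = 1) ∨ (c = 1 ∧ c' = 0))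
    (hr : 0 < r) (hrp : ∀ p : ℕ, p.Prime → p ∣ r → modulus k c ∣ p - 1 ∨ modulus k c ∣ p + 1) :
    ∃ (δ : ℝ) (R : ℕ), 0 < δ ∧ Set.Infinite {n : ℕ | 0 < n ∧
      0 < ((c : ℤ) - c') + (2 * r : ℤ) * n ∧
      n.divisors.card ≤ R ∧ (((c : ℤ) - c') + (2 * r : ℤ) * n).natAbs.divisors.card ≤ R ∧
      (∀ q : ℤ, 1 < q → (q ∣ (n : ℤ) ∨ q ∣ ((c : ℤ) - c') + (2 * r : ℤ) * n) →
        (n : ℝ) ^ δ < q ∧ ((((c : ℤ) - c') + (2 * r : ℤ) * n : ℤ) : ℝ) ^ δ < q) ∧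
      (∀ q : ℤ, 0 < q → q ∣ (n : ℤ) → (modulus k c : ℤ) ∣ q - 1 ∨ (modulus k c : ℤ) ∣ q + 1) ∧
      (∀ q : ℤ, 0 < q → q ∣ ((c : ℤ) - c') + (2 * r : ℤ) * n →
        (modulus k c' : ℤ) ∣ q - 1 ∨ (modulus k c' : ℤ) ∣ q + 1)} := by
  have hc : c = 0 ∨ c = 1 := by rcases hcc with ⟨h, -⟩ | ⟨h, -⟩ <;> omega
  have hc' : c' = 0 ∨ c' = 1 := by rcases hcc with ⟨-, h⟩ | ⟨-, h⟩ <;> omega
  have hge : 8 ≤ modulus k c := by
    unfold modulus
    obtain ⟨i, rfl⟩ : ∃ i, k = i + 1 := ⟨k - 1, by omega⟩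
    have h1 : 1 ≤ 2 ^ i := Nat.one_le_two_pow
    split_ifs
    · have : 2 ^ (i + 1 + 2) = 8 * 2 ^ i := by ring
      omega
    · have : 3 * 2 ^ (i + 1 + 1) = 12 * 2 ^ i := by ring
      omega
  have hr2 : ¬ 2 ∣ r := by
    intro h
    rcases hrp 2 Nat.prime_two h with h | h
    · have := Nat.le_of_dvd (by norm_num) h; omega
    · have := Nat.le_of_dvd (by norm_num) h; omega
  have hr3 : ¬ 3 ∣ r := by
    intro h
    rcases hrp 3 Nat.prime_three h with h | h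
    · have := Nat.le_of_dvd (by norm_num) h; omega
    · have := Nat.le_of_dvd (by norm_num) h; omega
  have hcZ : (0 : ℤ) ≤ c ∧ (c : ℤ) ≤ 1 := by rcases hc with h | h <;> rw [h] <;> norm_num
  have hcZ' : (0 : ℤ) ≤ c' ∧ (c' : ℤ) ≤ 1 := by rcases hc' with h | h <;> rw [h] <;> norm_num
  obtain ⟨t1, ht1⟩ := lift_all3 k c hk hc (r ^ 2) (pow_ne_zero _ hr.ne')
    (fun p hp hpd => hrp p hp (hp.dvd_of_dvd_pow hpd)) ((c : ℤ) + r)
    (fun p hp hpd => by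
      have := Int.natCast_dvd_natCast.2 (hp.dvd_of_dvd_pow hpd)
      have h1 : (c : ℤ) + r - c = r := by ring
      rw [h1]; exact this)
  -- residues modulo 6
  obtain ⟨s6, hs6⟩ : ∃ s6 : ℤ, s6 = 4 - 3 * c := ⟨_, rfl⟩
  have hc6 : Nat.Coprime 6 (r ^ 2) := by
    apply Nat.Coprime.pow_right
    have h2 := (Nat.Prime.coprime_iff_not_dvd Nat.prime_two).2 hr2
    have h3 := (Nat.Prime.coprime_iff_not_dvd Nat.prime_three).2 hr3
    exact (show (6 : ℕ) = 2 * 3 by norm_num) ▸ Nat.Coprime.mul_left h2 h3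
  obtain ⟨t2, ht2a, ht2b⟩ := crt (6 : ℤ) ((r : ℤ) ^ 2)
    (by exact_mod_cast Nat.isCoprime_iff_coprime.2 hc6) s6 t1
  obtain ⟨M, hM⟩ : ∃ M : ℤ, M = 6 * (r : ℤ) ^ 2 := ⟨_, rfl⟩
  have hMpos : 0 < M := by rw [hM]; positivity
  have hrpos : (0 : ℤ) < r := by exact_mod_cast hr
  obtain ⟨t0, ht0big, s0, hs0⟩ : ∃ t0 : ℤ, 4 * (r : ℤ) + 5 ≤ t0 ∧ ∃ s0 : ℤ, t0 = t2 + M * s0 := by
    refine ⟨t2 + M * (|t2| + (4 * (r : ℤ) + 5)), ?_, _, rfl⟩
    have h1 : -|t2| ≤ t2 := neg_abs_le _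
    have h2 : (1 : ℤ) * (|t2| + (4 * (r : ℤ) + 5)) ≤ M * (|t2| + (4 * (r : ℤ) + 5)) := by
      apply mul_le_mul_of_nonneg_right (by linarith)
      positivity
    linarith
  have h6 : ∀ m : ℤ, (6 : ℤ) ∣ (t0 + M * m) - s6 := by
    intro m
    have h1 : (t0 + M * m) - s6 = (t2 - s6) + 6 * ((r : ℤ) ^ 2 * (s0 + m)) := by
      rw [hs0, hM]; ring
    rw [h1]
    exact dvd_add ht2a (dvd_mul_right _ _)
  have hcong : ∀ m : ℤ, (3 : ℤ) ∣ (t0 + M * m) - 1 ∧ (2 : ℤ) ∣ (t0 + M * m) - c ∧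
      ((r : ℤ)) ^ 2 ∣ psi^[k] (t0 + M * m) - (c + r) := by
    intro m
    have h7 := h6 m
    refine ⟨?_, ?_, ?_⟩
    · omega
    · omega
    · have h1 : (r : ℤ) ^ 2 ∣ (t0 + M * m) - t1 := by
        have h2 : (t0 + M * m) - t1 = (t2 - t1) + (r : ℤ) ^ 2 * (6 * (s0 + m)) := by
          rw [hs0, hM]; ring
        rw [h2]
        exact dvd_add ht2b (dvd_mul_right _ _)
      have h2 := h1.trans (iter_psi_sub_dvd k (t0 + M * m) t1)
      have h4 : psi^[k] (t0 + M * m) - (c + r)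
          = (psi^[k] (t0 + M * m) - psi^[k] t1) + (psi^[k] t1 - (c + r)) := by
        ring
      rw [h4]
      apply dvd_add h2
      have := ht1
      push_cast at this
      exact this
  have hkey := fun m : ℤ => key k r c c' hk hcc hr hr2 (t0 + M * m)
    (hcong m).1 (hcong m).2.1 (hcong m).2.2
  -- the polynomial n(m)
  obtain ⟨P, hP⟩ := exists_poly k 0
  have hP' : ∀ t : ℤ, P.eval t = psi^[k] t := fun t => by rw [hP]; rfl
  have hdM : (2 * r : ℤ) ∣ M := by rw [hM]; exact ⟨3 * r, by ring⟩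
  have hd0 : (2 * r : ℤ) ∣ P.eval t0 + (-c : ℤ) := by
    obtain ⟨n, hn, -⟩ := hkey 0
    rw [hP']
    rw [mul_zero, add_zero] at hn
    exact ⟨n, by linear_combination hn⟩
  obtain ⟨h, hh⟩ := exists_quot P t0 M (2 * r) (-c) hdM hd0
  have hh' : ∀ m : ℤ, psi^[k] (t0 + M * m) - c = (2 * r : ℤ) * h.eval m := by
    intro m
    rw [← hh m, hP']; ring
  obtain ⟨f, hf⟩ : ∃ f : Polynomial ℤ,
      ∀ m : ℤ, f.eval m = h.eval m * (((c : ℤ) - c') + (2 * r : ℤ) * h.eval m) :=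
    ⟨h * (Polynomial.C ((c : ℤ) - c') + Polynomial.C (2 * r : ℤ) * h), fun m => by
      simp only [Polynomial.eval_mul, Polynomial.eval_add, Polynomial.eval_C]⟩
  have hX : ∀ m : ℤ, ((c : ℤ) - c') + (2 * r : ℤ) * h.eval m = psi^[k] (t0 + M * m) - c' := by
    intro m; rw [← hh' m]; ring
  have hnq : ∀ m : ℤ, (¬ (2 : ℤ) ∣ h.eval m ∧ ¬ (2 : ℤ) ∣ ((c : ℤ) - c') + (2 * r : ℤ) * h.eval m) ∧
      (¬ (3 : ℤ) ∣ h.eval m ∧ ¬ (3 : ℤ) ∣ ((c : ℤ) - c') + (2 * r : ℤ) * h.eval m) ∧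
      ∀ p : ℕ, p.Prime → p ∣ r → ¬ (p : ℤ) ∣ h.eval m ∧
        ¬ (p : ℤ) ∣ ((c : ℤ) - c') + (2 * r : ℤ) * h.eval m := by
    intro m
    obtain ⟨n, hn1, hn2, hn3, hn4⟩ := hkey m
    have hnh : n = h.eval m := by
      have h1 : (2 * r : ℤ) * n = (2 * r : ℤ) * h.eval m := by rw [← hh' m, hn1]
      exact mul_left_cancel₀ (by positivity) h1
    rw [hX m, ← hnh]
    exact ⟨hn2, hn3, hn4⟩
  have hloc : ∀ p : ℕ, p.Prime → ∃ m : ℤ, ¬ (p : ℤ) ∣ f.eval m := by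
    intro p hp
    have hpZ : Prime (p : ℤ) := Nat.prime_iff_prime_int.1 hp
    by_cases hpM : (p : ℤ) ∣ M
    · refine ⟨0, ?_⟩
      rw [hf]
      intro hdiv
      have hp3d : (p = 2 ∨ p = 3) ∨ p ∣ r := by
        rw [hM] at hpM
        rcases hpZ.dvd_or_dvd hpM with h1 | h1
        · left
          have h2 : p ∣ 2 * 3 := by norm_num; exact_mod_cast h1
          rcases hp.dvd_mul.1 h2 with h3 | h3
          · left; exact (Nat.prime_dvd_prime_iff_eq hp Nat.prime_two).1 h3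
          · right; exact (Nat.prime_dvd_prime_iff_eq hp Nat.prime_three).1 h3
        · right
          have h2 := hpZ.dvd_of_dvd_pow h1
          exact_mod_cast h2
      obtain ⟨h1, h2, h3⟩ := hnq 0
      rcases hp3d with (h4 | h4) | h4
      · rw [h4] at hdiv
        rcases (Nat.prime_iff_prime_int.1 Nat.prime_two).dvd_or_dvd hdiv with h5 | h5
        · exact h1.1 h5
        · exact h1.2 h5
      · rw [h4] at hdiv
        rcases (Nat.prime_iff_prime_int.1 Nat.prime_three).dvd_or_dvd hdiv with h5 | h5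
        · exact h2.1 h5
        · exact h2.2 h5
      · rcases hpZ.dvd_or_dvd hdiv with h5 | h5
        · exact (h3 p hp h4).1 h5
        · exact (h3 p hp h4).2 h5
    · -- choose m with p ∣ t
      have hp2 : p ≠ 2 := by
        rintro rfl; apply hpM; rw [hM]; exact ⟨3 * (r : ℤ) ^ 2, by push_cast; ring⟩
      have hp3 : p ≠ 3 := by
        rintro rfl; apply hpM; rw [hM]; exact ⟨2 * (r : ℤ) ^ 2, by push_cast; ring⟩
      have hthree : ¬ (p : ℤ) ∣ 3 := by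
        intro h
        have h6 : p ∣ 3 := by exact_mod_cast h
        exact hp3 ((Nat.prime_dvd_prime_iff_eq hp Nat.prime_three).1 h6)
      have hcop : IsCoprime (p : ℤ) M := (Prime.coprime_iff_not_dvd hpZ).2 hpM
      obtain ⟨u, v, huv⟩ := hcop
      refine ⟨-t0 * v, ?_⟩
      rw [hf]
      intro hdiv
      have hpt : (p : ℤ) ∣ (t0 + M * (-t0 * v)) - 0 :=
        ⟨t0 * u, by linear_combination (-t0) * huv⟩
      have hpT := hpt.trans (iter_psi_sub_dvd k _ _)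
      obtain ⟨T0, hT0⟩ : ∃ T0 : ℤ, T0 = psi^[k] (t0 + M * (-t0 * v)) := ⟨_, rfl⟩
      rw [← hT0] at hpT
      have hT01 : (p : ℤ) ∣ T0 ∨ (p : ℤ) ∣ T0 - 1 := by
        have h01 : (p : ℤ) ∣ T0 - c ∨ (p : ℤ) ∣ T0 - c' := by
          rcases hpZ.dvd_or_dvd hdiv with h5 | h5
          · left; rw [hT0, hh']; exact h5.mul_left _
          · right; rw [hX] at h5; rw [hT0]; exact h5
        rcases hcc with ⟨rfl, rfl⟩ | ⟨rfl, rfl⟩ <;> rcases h01 with h5 | h5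
        · left; simpa using h5
        · right; simpa using h5
        · right; simpa using h5
        · left; simpa using h5
      have hnd := not_dvd_two p hp hp2
      rcases iter_psi_zero k hk with h7 | h7 <;> rw [h7] at hpT <;> rcases hT01 with h8 | h8
      · exact hnd ((dvd_sub_right h8).1 hpT)
      · have := dvd_sub h8 hpT
        have h9 : T0 - 1 - (T0 - 2) = 1 := by ring
        rw [h9] at this
        exact not_dvd_one p hp this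
      · exact hnd ((dvd_neg).1 ((dvd_sub_right h8).1 hpT))
      · have := dvd_sub hpT h8
        have h9 : T0 - -2 - (T0 - 1) = 3 := by ring
        rw [h9] at this
        exact hthree this
  -- sieve
  obtain ⟨K, hK, hsieve⟩ := poly_sieve f hloc
  refine ⟨1 / (K : ℝ), 2 ^ K, by positivity, ?_⟩
  rw [Set.infinite_iff_exists_gt]
  intro N
  obtain ⟨z, m, hNz, hz2, hz, hsize⟩ := hsieve (N + 1)
  have hm0 : (0 : ℤ) ≤ M * m := by positivity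
  have ht2 : 2 ≤ t0 + M * m := by linarith
  have hT := iter_psi_ge k (t0 + M * m) ht2
  have hhm := hh' m
  have hn1 : 1 < h.eval (m : ℤ) := by
    by_contra hcon
    push Not at hcon
    have h1 : (2 * r : ℤ) * h.eval (m : ℤ) ≤ (2 * r : ℤ) * 1 :=
      mul_le_mul_of_nonneg_left hcon (by linarith)
    linarith [hcZ.2]
  obtain ⟨n, hn⟩ := Int.eq_ofNat_of_zero_le (by linarith : 0 ≤ h.eval (m : ℤ))
  have hXm := hX m
  have hXpos : 1 ≤ ((c : ℤ) - c') + (2 * r : ℤ) * h.eval (m : ℤ) := by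
    rw [hXm]; linarith [hcZ'.2]
  rw [hf] at hsize
  rw [hf] at hz
  rw [hn] at hn1 hsize hz hXpos hXm hhm
  have hn0 : 0 < n := by
    have : (0 : ℤ) < n := by linarith
    exact_mod_cast this
  obtain ⟨hb1, hb2, hb3⟩ := pair_bounds z K hK hz2 n (((c : ℤ) - c') + (2 * r : ℤ) * n) hn0
    (by linarith) hz hsize
  have hnz : (z : ℤ) ≤ n := (hb3 n hn1 (Or.inl dvd_rfl)).1
  have hNn : N < n := by
    have h1 : z ≤ n := by exact_mod_cast hnz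
    omega
  obtain ⟨hq2, hq3, -⟩ := hnq m
  rw [hn] at hq2 hq3
  refine ⟨n, ⟨by omega, by linarith, hb1, hb2, ?_, ?_, ?_⟩, hNn⟩
  · intro q hq hqd
    exact (hb3 q hq hqd).2
  · intro q hq hqd
    obtain ⟨Q, rfl⟩ := Int.eq_ofNat_of_zero_le hq.le
    have hQ0 : Q ≠ 0 := by rintro rfl; norm_num at hq
    apply dvd_of_all (modulus k c) Q hQ0
    intro p hp hpQ
    have hpq : (p : ℤ) ∣ (n : ℤ) := (Int.natCast_dvd_natCast.2 hpQ).trans hqd
    have hp2 : p ≠ 2 := by rintro rfl; exact hq2.1 (by exact_mod_cast hpq)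
    have hp3 : p ≠ 3 := by rintro rfl; exact hq3.1 (by exact_mod_cast hpq)
    apply prime_dvd_fibre k c hc (t0 + M * m) p hp hp2 hp3
    rw [hhm]; exact hpq.mul_left _
  · intro q hq hqd
    obtain ⟨Q, rfl⟩ := Int.eq_ofNat_of_zero_le hq.le
    have hQ0 : Q ≠ 0 := by rintro rfl; norm_num at hq
    apply dvd_of_all (modulus k c') Q hQ0
    intro p hp hpQ
    have hpq := (Int.natCast_dvd_natCast.2 hpQ).trans hqd
    have hp2 : p ≠ 2 := by rintro rfl; exact hq2.2 (by exact_mod_cast hpq)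
    have hp3 : p ≠ 3 := by rintro rfl; exact hq3.2 (by exact_mod_cast hpq)
    apply prime_dvd_fibre k c' hc' (t0 + M * m) p hp hp2 hp3
    rw [← hXm]; exact hpq

theorem result (k r : ℕ) (hk : 1 ≤ k) (hr : 0 < r) (a : ℤ) (M₁ M₂ : ℕ)
    (haM : (a = 1 ∧ M₁ = 3 * 2 ^ (k + 1) ∧ M₂ = 2 ^ (k + 2)) ∨
      (a = -1 ∧ M₁ = 2 ^ (k + 2) ∧ M₂ = 3 * 2 ^ (k + 1)))
    (hrp : ∀ p : ℕ, p.Prime → p ∣ r → M₁ ∣ p - 1 ∨ M₁ ∣ p + 1) :
    ∃ (δ : ℝ) (R : ℕ), 0 < δ ∧ Set.Infinite {n : ℕ | 0 < n ∧ 0 < a + (2 * r : ℤ) * n ∧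
      n.divisors.card ≤ R ∧ (a + (2 * r : ℤ) * n).natAbs.divisors.card ≤ R ∧
      (∀ q : ℤ, 1 < q → (q ∣ (n : ℤ) ∨ q ∣ a + (2 * r : ℤ) * n) →
        (n : ℝ) ^ δ < q ∧ ((a + (2 * r : ℤ) * n : ℤ) : ℝ) ^ δ < q) ∧
      (∀ q : ℤ, 0 < q → q ∣ (n : ℤ) → (M₁ : ℤ) ∣ q - 1 ∨ (M₁ : ℤ) ∣ q + 1) ∧
      (∀ q : ℤ, 0 < q → q ∣ a + (2 * r : ℤ) * n → (M₂ : ℤ) ∣ q - 1 ∨ (M₂ : ℤ) ∣ q + 1)} := by
  have m0 : modulus k 0 = 2 ^ (k + 2) := by unfold modulus; rw [if_pos rfl]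
  have m1 : modulus k 1 = 3 * 2 ^ (k + 1) := by unfold modulus; rw [if_neg (by norm_num)]
  rcases haM with ⟨rfl, rfl, rfl⟩ | ⟨rfl, rfl, rfl⟩
  · have := main k r 1 0 hk (Or.inr ⟨rfl, rfl⟩) hr (by rw [m1]; exact hrp)
    rw [m0, m1] at this
    simpa using this
  · have := main k r 0 1 hk (Or.inl ⟨rfl, rfl⟩) hr (by rw [m0]; exact hrp)
    rw [m0, m1] at this
    simpa using this

end Pool.Agent.Results.MP_8bf9c2_nt.PlusMinusOne
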