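import Pool.Agent.MP_8bf9c2_nt.Dickson
import Pool.Agent.MP_8bf9c2_nt.PolySieve

/-!
# The pairs (a, d) with a = 2 or a = -2: size and residue class of all divisors of n and a + dn
-/

set_option autoImplicit false

namespace Pool.Agent.Results.MP_8bf9c2_nt.PlusMinusTwo

open Pool.Agent.MP_8bf9c2_nt.Dickson Pool.Agent.MP_8bf9c2_nt.PolySieve Function

theorem not_dvd_sign (σ : ℤ) (hσ : σ = 1 ∨ σ = -1) (p : ℕ) (hp : p.Prime) : ¬ (p : ℤ) ∣ σ := by
  intro h
  have h1 : (p : ℤ) ∣ 1 := by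
    rcases hσ with rfl | rfl
    · exact h
    · exact (dvd_neg).1 h
  have h6 : p ∣ 1 := by exact_mod_cast h1
  exact hp.one_lt.ne' (Nat.dvd_one.1 h6)

/-- arithmetic of a value `phi^[e] t` with `t` in the right classes -/
theorem key (e d' g : ℕ) (he : 1 ≤ e) (hg : g = 1 ∨ g = 3) (h3d' : ¬ 3 ∣ d') 
    (hp2 : ∀ p : ℕ, p.Prime → p ∣ d' → p ≠ 2) (σ : ℤ) (hσ : σ = 1 ∨ σ = -1) (t : ℤ)
    (hmod3 : (3 : ℤ) ∣ t - σ * (if g = 1 then 0 else -1))
    (hmodd : ((d' : ℤ)) ^ 2 ∣ phi^[e] t - σ * (-1 + d')) :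
    ∃ n : ℤ, phi^[e] t + σ = ((g * d' : ℕ) : ℤ) * n ∧ ¬ (3 : ℤ) ∣ n ∧ ¬ (3 : ℤ) ∣ phi^[e] t - σ ∧
      ∀ p : ℕ, p.Prime → p ∣ d' → ¬ (p : ℤ) ∣ n ∧ ¬ (p : ℤ) ∣ phi^[e] t - σ := by
  have hσ2 : σ * σ = 1 := by rcases hσ with rfl | rfl <;> norm_num
  obtain ⟨r, hr⟩ : ∃ r : ℤ, r = if g = 1 then 0 else -1 := ⟨_, rfl⟩
  rw [← hr] at hmod3
  obtain ⟨T0, hT0⟩ : ∃ T0 : ℤ, T0 = phi^[e] t := ⟨_, rfl⟩
  rw [← hT0] at hmodd ⊢
  have hunit := fun p hp => not_dvd_sign σ hσ p hp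
  have hT3 : (3 : ℤ) ∣ T0 - σ * r := by
    have h1 : ∀ (i : ℕ), (3 : ℤ) ∣ phi^[i] t - σ * r := by
      intro i
      induction i with
      | zero => simpa using hmod3
      | succ i ih =>
        rw [Function.iterate_succ_apply']
        have h2 := ih.trans (phi_sub_dvd (phi^[i] t) (σ * r))
        have h3 : (3 : ℤ) ∣ phi (σ * r) - σ * r := by
          rw [hr]
          split_ifs with hg1
          · simp [phi]
          · rcases hσ with rfl | rfl <;> norm_num [phi]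
        have h4 : phi (phi^[i] t) - σ * r = (phi (phi^[i] t) - phi (σ * r)) + (phi (σ * r) - σ * r) := by
          ring
        rw [h4]
        exact dvd_add h2 h3
    rw [hT0]; exact h1 e
  obtain ⟨c, hc⟩ := hmodd
  have hTd : T0 + σ = d' * (σ + d' * c) := by linear_combination hc
  have hX3 : ¬ (3 : ℤ) ∣ T0 - σ := by
    intro h
    have h1 : (3 : ℤ) ∣ σ * r - σ := by
      have h2 := dvd_sub h hT3
      have h3 : T0 - σ - (T0 - σ * r) = σ * r - σ := by ring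
      rwa [h3] at h2
    rw [hr] at h1
    split_ifs at h1 <;> rcases hσ with rfl | rfl <;> norm_num at h1
  obtain ⟨n, hn, hn3⟩ : ∃ n : ℤ, σ + d' * c = g * n ∧ ¬ (3 : ℤ) ∣ n := by
    rcases hg with hg1 | hg3
    · refine ⟨σ + d' * c, by rw [hg1]; push_cast; ring, ?_⟩
      intro h3
      have h4 : (3 : ℤ) ∣ T0 + σ := by rw [hTd]; exact h3.mul_left _
      have h5 : (3 : ℤ) ∣ T0 := by
        have := hT3; rw [hr, if_pos hg1] at this; simpa using this
      exact hunit 3 Nat.prime_three ((Int.dvd_add_right h5).1 (by exact_mod_cast h4))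
    · have hrm : r = -1 := by rw [hr, hg3]; norm_num
      have h5 : (3 : ℤ) ∣ T0 + σ := by
        have := hT3; rw [hrm] at this
        have h6 : T0 - σ * -1 = T0 + σ := by ring
        rwa [h6] at this
      have h9 : ¬ (9 : ℤ) ∣ T0 + σ := by
        obtain ⟨s, hs⟩ : ∃ s : ℤ, s = phi^[e - 1] t := ⟨_, rfl⟩
        have hTs : T0 = phi s := by
          rw [hT0, hs, ← Function.iterate_succ_apply' phi, show (e - 1).succ = e by omega]
        have hs3 : (3 : ℤ) ∣ s + σ := by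
          have h7 : (3 : ℤ) ∣ phi s - s := by
            have h8 : phi s - s = (s - 1) * s * (s + 1) - 3 * s := by unfold phi; ring
            rw [h8]
            refine dvd_sub ?_ (dvd_mul_right _ _)
            have h9 : s % 3 = 0 ∨ s % 3 = 1 ∨ s % 3 = 2 := by omega
            rcases h9 with h | h | h
            · exact Dvd.dvd.mul_right (Dvd.dvd.mul_left (by omega) _) _
            · exact Dvd.dvd.mul_right (Dvd.dvd.mul_right (by omega) _) _
            · exact Dvd.dvd.mul_left (by omega) _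
          have h8 := dvd_sub h5 (by rw [hTs]; exact h7 : (3 : ℤ) ∣ T0 - s)
          have h9 : T0 + σ - (T0 - s) = s + σ := by ring
          rwa [h9] at h8
        obtain ⟨u, hu⟩ := hs3
        have hsu : s = -σ + 3 * u := by linear_combination hu
        intro h10
        have h11 : T0 + σ = 3 * σ + 9 * (3 * (u ^ 3 - σ * u ^ 2)) := by
          rw [hTs, hsu]
          unfold phi
          rcases hσ with rfl | rfl <;> ring
        rw [h11] at h10
        have h12 : (9 : ℤ) ∣ 3 * σ := (Int.dvd_add_left (dvd_mul_right _ _)).1 h10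
        rcases hσ with rfl | rfl <;> omega
      have h3w : (3 : ℤ) ∣ σ + d' * c := by
        rw [hTd] at h5
        have hc3 : IsCoprime (3 : ℤ) (d' : ℤ) := by
          exact_mod_cast Nat.isCoprime_iff_coprime.2
            ((Nat.Prime.coprime_iff_not_dvd Nat.prime_three).2 h3d')
        exact hc3.dvd_of_dvd_mul_left h5
      obtain ⟨n, hn⟩ := h3w
      refine ⟨n, by rw [hn, hg3]; norm_num, ?_⟩
      rintro ⟨u, hu⟩
      apply h9
      rw [hTd, hn, hu]
      exact ⟨d' * u, by ring⟩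
  refine ⟨n, by rw [hTd, hn]; push_cast; ring, hn3, hX3, ?_⟩
  intro p hp hpd
  have hpdZ : (p : ℤ) ∣ d' := Int.natCast_dvd_natCast.2 hpd
  constructor
  · intro h
    apply hunit p hp
    have h1 : (p : ℤ) ∣ σ + d' * c := by rw [hn]; exact h.mul_left _
    exact (Int.dvd_add_left (hpdZ.mul_right _)).1 h1
  · intro h
    have h1 : (p : ℤ) ∣ T0 + σ := by rw [hTd]; exact hpdZ.mul_right _
    have h2 := dvd_sub h1 h
    have h3 : T0 + σ - (T0 - σ) = 2 * σ := by ring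
    rw [h3] at h2
    rcases (Nat.prime_iff_prime_int.1 hp).dvd_or_dvd h2 with h4 | h4
    · apply hp2 p hp hpd
      have h5 : p ∣ 2 := by exact_mod_cast h4
      exact (Nat.prime_dvd_prime_iff_eq hp Nat.prime_two).1 h5
    · exact hunit p hp h4

theorem result (e d : ℕ) (he : 1 ≤ e) (hd : 0 < d) (h9 : ¬ 9 ∣ d)
    (hdp : ∀ p : ℕ, p.Prime → p ∣ d → p = 3 ∨ 3 ^ (e + 1) ∣ p - 1 ∨ 3 ^ (e + 1) ∣ p + 1)
    (a : ℤ) (ha : a = 2 ∨ a = -2) :
    ∃ (δ : ℝ) (R : ℕ), 0 < δ ∧ Set.Infinite {n : ℕ | 0 < n ∧ 0 < a + d * n ∧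
      n.divisors.card ≤ R ∧ (a + d * n).natAbs.divisors.card ≤ R ∧
      ∀ q : ℤ, 1 < q → (q ∣ (n : ℤ) ∨ q ∣ a + d * n) →
        (n : ℝ) ^ δ < q ∧ ((a + d * n : ℤ) : ℝ) ^ δ < q ∧
        ((3 : ℤ) ^ (e + 1) ∣ q - 1 ∨ (3 : ℤ) ^ (e + 1) ∣ q + 1)} := by
  -- the sign
  obtain ⟨σ, hσ, haσ⟩ : ∃ σ : ℤ, (σ = 1 ∨ σ = -1) ∧ a = -2 * σ := by
    rcases ha with rfl | rfl
    · exact ⟨-1, Or.inr rfl, by norm_num⟩
    · exact ⟨1, Or.inl rfl, by norm_num⟩
  have hσ2 : σ * σ = 1 := by rcases hσ with rfl | rfl <;> norm_num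
  have hσle : -1 ≤ σ ∧ σ ≤ 1 := by rcases hσ with rfl | rfl <;> norm_num
  have h27 : (9 : ℕ) ∣ 3 ^ (e + 1) := ⟨3 ^ (e - 1), by
    rw [show e + 1 = (e - 1) + 2 by omega, pow_add]; ring⟩
  -- split off the 3-part of d
  obtain ⟨g, d', hg, hgd, h3d'⟩ : ∃ g d' : ℕ, (g = 1 ∨ g = 3) ∧ d = g * d' ∧ ¬ 3 ∣ d' := by
    by_cases h3 : 3 ∣ d
    · obtain ⟨c, hc⟩ := h3
      refine ⟨3, c, Or.inr rfl, hc, ?_⟩
      rintro ⟨b, hb⟩
      apply h9
      exact ⟨b, by rw [hc, hb]; ring⟩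
    · exact ⟨1, d, Or.inl rfl, by ring, h3⟩
  have hd'0 : d' ≠ 0 := by rintro rfl; simp at h3d'
  have hd'p : ∀ p : ℕ, p.Prime → p ∣ d' → 3 ^ (e + 1) ∣ p - 1 ∨ 3 ^ (e + 1) ∣ p + 1 := by
    intro p hp hpd
    rcases hdp p hp (by rw [hgd]; exact hpd.mul_left g) with h | h
    · exfalso; apply h3d'; rw [← h]; exact hpd
    · exact h
  have hp2 : ∀ p : ℕ, p.Prime → p ∣ d' → p ≠ 2 := by
    rintro p hp hpd rfl
    rcases hd'p 2 hp hpd with h | h
    · have := h27.trans h; omega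
    · have := h27.trans h; omega
  -- solve the congruence modulo d'^2
  obtain ⟨t1, ht1⟩ := lift_all e (d' ^ 2) (pow_ne_zero _ hd'0)
    (fun p hp hpd => hd'p p hp (hp.dvd_of_dvd_pow hpd)) (-1 + d')
    (fun p hp hpd => by
      have := Int.natCast_dvd_natCast.2 (hp.dvd_of_dvd_pow hpd)
      have h1 : (-1 : ℤ) + d' + 1 = d' := by ring
      rw [h1]; exact this)
  have h3d2 : Nat.Coprime 3 (d' ^ 2) :=
    Nat.Coprime.pow_right 2 ((Nat.Prime.coprime_iff_not_dvd Nat.prime_three).2 h3d')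
  obtain ⟨r, hr⟩ : ∃ r : ℤ, r = if g = 1 then 0 else -1 := ⟨_, rfl⟩
  obtain ⟨t2, ht2a, ht2b⟩ := crt (3 : ℤ) ((d' : ℤ) ^ 2)
    (by exact_mod_cast Nat.isCoprime_iff_coprime.2 h3d2) r t1
  obtain ⟨M, hM⟩ : ∃ M : ℤ, M = 3 * (d' : ℤ) ^ 2 := ⟨_, rfl⟩
  have hMpos : 0 < M := by rw [hM]; positivity
  have hdpos : (0 : ℤ) < d := by exact_mod_cast hd
  -- the base point t0, large
  obtain ⟨t0, ht0big, s0, hs0⟩ : ∃ t0 : ℤ, (d : ℤ) + d + 5 ≤ t0 ∧ ∃ s0 : ℤ, t0 = σ * t2 + M * s0 := by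
    refine ⟨σ * t2 + M * (|σ * t2| + ((d : ℤ) + d + 5)), ?_, _, rfl⟩
    have h1 : -|σ * t2| ≤ σ * t2 := neg_abs_le _
    have h2 : (1 : ℤ) * (|σ * t2| + ((d : ℤ) + d + 5)) ≤
        M * (|σ * t2| + ((d : ℤ) + d + 5)) := by
      apply mul_le_mul_of_nonneg_right (by linarith)
      positivity
    linarith
  -- congruences for t = t0 + M m
  have hcong : ∀ m : ℤ, (3 : ℤ) ∣ (t0 + M * m) - σ * (if g = 1 then 0 else -1) ∧
      ((d' : ℤ)) ^ 2 ∣ phi^[e] (t0 + M * m) - σ * (-1 + d') := by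
    intro m
    rw [← hr]
    constructor
    · have h1 : (t0 + M * m) - σ * r = σ * (t2 - r) + 3 * ((d' : ℤ) ^ 2 * (s0 + m)) := by
        rw [hs0, hM]; ring
      rw [h1]
      exact dvd_add (ht2a.mul_left _) (dvd_mul_right _ _)
    · have h1 : (d' : ℤ) ^ 2 ∣ (t0 + M * m) - σ * t1 := by
        have h2 : (t0 + M * m) - σ * t1 = σ * (t2 - t1) + (d' : ℤ) ^ 2 * (3 * (s0 + m)) := by
          rw [hs0, hM]; ring
        rw [h2]
        exact dvd_add (ht2b.mul_left _) (dvd_mul_right _ _)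
      have h2 := h1.trans (iter_phi_sub_dvd e (t0 + M * m) (σ * t1))
      have h3 : phi^[e] (σ * t1) = σ * phi^[e] t1 := by
        rcases hσ with rfl | rfl
        · simp
        · rw [show (-1 : ℤ) * t1 = -t1 by ring, iter_phi_neg]; ring
      rw [h3] at h2
      have h4 : phi^[e] (t0 + M * m) - σ * (-1 + d')
          = (phi^[e] (t0 + M * m) - σ * phi^[e] t1) + σ * (phi^[e] t1 - (-1 + d')) := by
        ring
      rw [h4]
      apply dvd_add h2
      apply Dvd.dvd.mul_left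
      have := ht1
      push_cast at this
      exact this
  have hkey := fun m : ℤ => key e d' g he hg h3d' hp2 σ hσ (t0 + M * m)
    (hcong m).1 (hcong m).2
  -- the polynomial n(m)
  obtain ⟨P, hP⟩ := exists_poly 0 e
  have hdM : (d : ℤ) ∣ M := by
    rw [hM, hgd]
    push_cast
    rcases hg with h | h
    · rw [h]; exact ⟨3 * d', by push_cast; ring⟩
    · rw [h]; exact ⟨d', by push_cast; ring⟩
  have hd0 : (d : ℤ) ∣ P.eval t0 + σ := by
    obtain ⟨n, hn, -⟩ := hkey 0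
    rw [hP]
    refine ⟨n, ?_⟩
    rw [hgd]
    rw [mul_zero, add_zero] at hn
    exact hn
  obtain ⟨h, hh⟩ := exists_quot P t0 M d σ hdM hd0
  have hh' : ∀ m : ℤ, phi^[e] (t0 + M * m) + σ = d * h.eval m := by
    intro m
    rw [← hh m, hP]; rfl
  -- the product polynomial
  obtain ⟨f, hf⟩ : ∃ f : Polynomial ℤ, ∀ m : ℤ, f.eval m = h.eval m * (a + d * h.eval m) :=
    ⟨h * (Polynomial.C a + Polynomial.C (d : ℤ) * h), fun m => by
      simp [Polynomial.eval_mul, Polynomial.eval_add]⟩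
  have hX : ∀ m : ℤ, a + d * h.eval m = phi^[e] (t0 + M * m) - σ := by
    intro m; rw [← hh' m, haσ]; ring
  have hnq : ∀ m : ℤ, ¬ (3 : ℤ) ∣ h.eval m ∧ ¬ (3 : ℤ) ∣ a + d * h.eval m ∧
      ∀ p : ℕ, p.Prime → p ∣ d' → ¬ (p : ℤ) ∣ h.eval m ∧ ¬ (p : ℤ) ∣ a + d * h.eval m := by
    intro m
    obtain ⟨n, hn1, hn2, hn3, hn4⟩ := hkey m
    have hnh : n = h.eval m := by
      have h1 : (d : ℤ) * n = d * h.eval m := by rw [← hh' m, hn1, hgd]
      exact mul_left_cancel₀ hdpos.ne' h1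
    rw [hX m, ← hnh]
    exact ⟨hn2, hn3, hn4⟩
  have hloc : ∀ p : ℕ, p.Prime → ∃ m : ℤ, ¬ (p : ℤ) ∣ f.eval m := by
    intro p hp
    have hpZ : Prime (p : ℤ) := Nat.prime_iff_prime_int.1 hp
    by_cases hpM : (p : ℤ) ∣ M
    · refine ⟨0, ?_⟩
      rw [hf]
      intro hdiv
      have hp3d : p = 3 ∨ p ∣ d' := by
        rw [hM] at hpM
        rcases hpZ.dvd_or_dvd hpM with h1 | h1
        · left
          have h2 : p ∣ 3 := by exact_mod_cast h1
          exact (Nat.prime_dvd_prime_iff_eq hp Nat.prime_three).1 h2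
        · right
          have h2 := hpZ.dvd_of_dvd_pow h1
          exact_mod_cast h2
      obtain ⟨h1, h2, h3⟩ := hnq 0
      rcases hp3d with h4 | h4
      · rw [h4] at hdiv
        rcases (Nat.prime_iff_prime_int.1 Nat.prime_three).dvd_or_dvd hdiv with h5 | h5
        · exact h1 h5
        · exact h2 h5
      · rcases hpZ.dvd_or_dvd hdiv with h5 | h5
        · exact (h3 p hp h4).1 h5
        · exact (h3 p hp h4).2 h5
    · -- choose m with p ∣ t
      have hcop : IsCoprime (p : ℤ) M := (Prime.coprime_iff_not_dvd hpZ).2 hpM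
      obtain ⟨u, v, huv⟩ := hcop
      refine ⟨-t0 * v, ?_⟩
      rw [hf]
      intro hdiv
      have hpt : (p : ℤ) ∣ phi^[e] (t0 + M * (-t0 * v)) := by
        apply iter_phi_dvd
        exact ⟨t0 * u, by linear_combination (-t0) * huv⟩
      rcases hpZ.dvd_or_dvd hdiv with h5 | h5
      · have h6 : (p : ℤ) ∣ phi^[e] (t0 + M * (-t0 * v)) + σ := by
          rw [hh']; exact h5.mul_left _
        exact not_dvd_sign σ hσ p hp ((Int.dvd_add_right hpt).1 h6)
      · rw [hX] at h5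
        exact not_dvd_sign σ hσ p hp ((dvd_sub_right hpt).1 h5)
  -- sieve
  obtain ⟨k, hk, hsieve⟩ := poly_sieve f hloc
  refine ⟨1 / (k : ℝ), 2 ^ k, by positivity, ?_⟩
  rw [Set.infinite_iff_exists_gt]
  intro N
  obtain ⟨z, m, hNz, hz2, hz, hsize⟩ := hsieve (N + 1)
  have hm0 : (0 : ℤ) ≤ M * m := by positivity
  have ht2 : 2 ≤ t0 + M * m := by linarith
  have hT := iter_phi_ge e (t0 + M * m) ht2
  have hhm := hh' m
  have hn1 : 1 < h.eval (m : ℤ) := by
    by_contra hcon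
    push Not at hcon
    have h1 : (d : ℤ) * h.eval (m : ℤ) ≤ d * 1 := mul_le_mul_of_nonneg_left hcon hdpos.le
    linarith [hσle.1]
  obtain ⟨n, hn⟩ := Int.eq_ofNat_of_zero_le (by linarith : 0 ≤ h.eval (m : ℤ))
  have hXm := hX m
  have hXpos : 1 ≤ a + d * h.eval (m : ℤ) := by rw [hXm]; linarith [hσle.2]
  rw [hf] at hsize
  rw [hf] at hz
  rw [hn] at hn1 hsize hz hXpos hXm hhm
  have hn0 : 0 < n := by
    have : (0 : ℤ) < n := by linarith
    exact_mod_cast this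
  obtain ⟨hb1, hb2, hb3⟩ := pair_bounds z k hk hz2 n (a + d * n) hn0 (by linarith) hz hsize
  have hnz : (z : ℤ) ≤ n := (hb3 n hn1 (Or.inl dvd_rfl)).1
  have hNn : N < n := by
    have h1 : z ≤ n := by exact_mod_cast hnz
    omega
  refine ⟨n, ⟨hn0, by linarith, hb1, hb2, ?_⟩, hNn⟩
  intro q hq hqd
  refine ⟨(hb3 q hq hqd).2.1, (hb3 q hq hqd).2.2, ?_⟩
  obtain ⟨Q, rfl⟩ := Int.eq_ofNat_of_zero_le (by linarith : 0 ≤ q)
  have hQ0 : Q ≠ 0 := by rintro rfl; norm_num at hq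
  have := dvd_of_all (3 ^ (e + 1)) Q hQ0 (fun p hp hpQ => by
    have hpq : (p : ℤ) ∣ (Q : ℤ) := Int.natCast_dvd_natCast.2 hpQ
    have hdiv : (p : ℤ) ∣ (n : ℤ) ∨ (p : ℤ) ∣ a + d * n := by
      rcases hqd with h1 | h1
      · left; exact hpq.trans h1
      · right; exact hpq.trans h1
    obtain ⟨h1, h2, -⟩ := hnq m
    rw [hn] at h1 h2
    have hp3 : p ≠ 3 := by
      rintro rfl
      rcases hdiv with h3 | h3
      · exact h1 (by exact_mod_cast h3)
      · exact h2 (by exact_mod_cast h3)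
    rcases hdiv with h3 | h3
    · apply prime_dvd_T_add 0 e (t0 + M * m) σ hσ p hp hp3
      have h4 : T 0 e (t0 + M * m) + σ = d * n := hhm
      rw [h4]; exact h3.mul_left _
    · apply prime_dvd_T_add 0 e (t0 + M * m) (-σ) _ p hp hp3
      · have h4 : T 0 e (t0 + M * m) + -σ = a + d * n := by
          rw [hXm]; rfl
        rw [h4]; exact h3
      · rcases hσ with rfl | rfl
        · right; rfl
        · left; norm_num)
  push_cast at this
  exact this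

end Pool.Agent.Results.MP_8bf9c2_nt.PlusMinusTwo
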