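import Mathlib
import Pool.Agent.MP_8bf9c2_nt.PolySieve

/-!
# For every pair (a, d): power residue conditions on all prime factors of n and a + dn

With `U = A + c d n₀` and `t ≡ 1` modulo a suitable number, the integer
`n = n₀ + (tᵐ - 1) U / (c d)` satisfies `c d n = U tᵐ - A` and `c (a + d n) = U tᵐ - (A - c a)`.
A sieve then removes all small prime factors.
-/

set_option autoImplicit false

namespace Pool.Agent.MP_8bf9c2_nt.PowerCore

open Pool.Agent.MP_8bf9c2_nt.PolySieve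

/-- if `p ∣ v`, `e v = U tᵐ - A`, `p ∤ A` then `A^(m-1) U` is an `m`-th power modulo `p` -/
theorem power_of (p : ℕ) (hp : p.Prime) (m : ℕ) (hm : 0 < m) (v e U t A : ℤ) (hpv : (p : ℤ) ∣ v)
    (h : e * v = U * t ^ m - A) (hA : ¬ (p : ℤ) ∣ A) :
    ∃ x : ZMod p, x ^ m = ((A ^ (m - 1) * U : ℤ) : ZMod p) := by
  have : Fact p.Prime := ⟨hp⟩
  have hv : ((v : ℤ) : ZMod p) = 0 := (ZMod.intCast_zmod_eq_zero_iff_dvd _ _).2 hpv
  have hA0 : ((A : ℤ) : ZMod p) ≠ 0 := fun h0 => hA ((ZMod.intCast_zmod_eq_zero_iff_dvd _ _).1 h0)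
  have h3 := congrArg (fun z : ℤ => (z : ZMod p)) h
  push_cast at h3
  rw [hv, mul_zero] at h3
  have h4 : (U : ZMod p) * (t : ZMod p) ^ m = A := by linear_combination -h3
  have ht : (t : ZMod p) ≠ 0 := by
    intro h0
    rw [h0, zero_pow hm.ne', mul_zero] at h4
    exact hA0 h4.symm
  refine ⟨(A : ZMod p) / t, ?_⟩
  push_cast
  rw [div_pow, div_eq_iff (pow_ne_zero _ ht), mul_assoc, h4, ← pow_succ, Nat.sub_add_cancel hm]

theorem core (a n₀ A : ℤ) (d m c Q : ℕ) (hd : 0 < d) (hm : 0 < m) (hc : 0 < c) (hQ : 0 < Q)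
    (hA : A ≠ 0) (hA' : A - c * a ≠ 0) (hU : 0 < A + c * d * n₀)
    (hcop : IsCoprime (n₀ * (a + d * n₀)) (c * d * Q * A * (A - c * a))) :
    ∃ (δ : ℝ) (R : ℕ), 0 < δ ∧ Set.Infinite {n : ℕ | 0 < n ∧ 0 < a + d * n ∧ (Q : ℤ) ∣ n - n₀ ∧
      n.divisors.card ≤ R ∧ (a + d * n).natAbs.divisors.card ≤ R ∧
      (∀ q : ℤ, 1 < q → (q ∣ (n : ℤ) ∨ q ∣ a + d * n) →
        (n : ℝ) ^ δ < q ∧ ((a + d * n : ℤ) : ℝ) ^ δ < q) ∧
      (∀ p : ℕ, p.Prime → (p : ℤ) ∣ n →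
        ∃ x : ZMod p, x ^ m = ((A ^ (m - 1) * (A + c * d * n₀) : ℤ) : ZMod p)) ∧
      (∀ p : ℕ, p.Prime → (p : ℤ) ∣ a + d * n →
        ∃ x : ZMod p, x ^ m = (((A - c * a) ^ (m - 1) * (A + c * d * n₀) : ℤ) : ZMod p))} := by
  obtain ⟨A', hA'e⟩ : ∃ v : ℤ, v = A - c * a := ⟨_, rfl⟩
  obtain ⟨U, hUe⟩ : ∃ v : ℤ, v = A + c * d * n₀ := ⟨_, rfl⟩
  rw [← hA'e] at hA' hcop
  rw [← hUe] at hU
  have hdZ : (0 : ℤ) < d := by exact_mod_cast hd
  have hcZ : (0 : ℤ) < c := by exact_mod_cast hc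
  have hQZ : (0 : ℤ) < Q := by exact_mod_cast hQ
  obtain ⟨B, hB⟩ : ∃ v : ℤ, v = c * d * Q * (A * A') ^ 2 := ⟨_, rfl⟩
  obtain ⟨K, hK⟩ : ∃ v : ℤ, v = c * d * B := ⟨_, rfl⟩
  have hx : (0 : ℤ) < (A * A') ^ 2 := by positivity
  have hBpos : 0 < B := by rw [hB]; positivity
  have hKpos : 0 < K := by rw [hK]; positivity
  obtain ⟨W, hW⟩ : ∃ v : ℤ, v = |n₀| + |a| + 2 := ⟨_, rfl⟩
  have hWpos : 0 < W := by rw [hW]; positivity
  -- t(x) = 1 + K (W + x),  n(x) = n₀ + B (W + x) (1 + t + ... + t^(m-1)) U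
  obtain ⟨tt, htt⟩ : ∃ g : ℤ → ℤ, ∀ x, g x = 1 + K * (W + x) := ⟨_, fun x => rfl⟩
  obtain ⟨h, hh⟩ : ∃ h : Polynomial ℤ, ∀ x : ℤ, h.eval x =
      n₀ + B * (W + x) * (∑ i ∈ Finset.range m, (tt x) ^ i) * U := by
    open Polynomial in
    refine ⟨C n₀ + C B * (C W + X) * (∑ i ∈ Finset.range m, (1 + C K * (C W + X)) ^ i) * C U,
      fun x => ?_⟩
    rw [htt]
    simp only [eval_add, eval_mul, eval_C, eval_X, eval_pow, eval_one, eval_finsetSum]
  have hgeom : ∀ x, K * (W + x) * (∑ i ∈ Finset.range m, (tt x) ^ i) = (tt x) ^ m - 1 := by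
    intro x
    have h1 := geom_sum_mul (tt x) m
    have h2 : tt x - 1 = K * (W + x) := by rw [htt]; ring
    rw [h2] at h1
    linear_combination h1
  have id1 : ∀ x, c * d * h.eval x = U * (tt x) ^ m - A := by
    intro x
    have h1 := hgeom x
    rw [hK] at h1
    rw [hh]
    linear_combination U * h1 - hUe
  have id2 : ∀ x, c * (a + d * h.eval x) = U * (tt x) ^ m - A' := by
    intro x
    linear_combination id1 x + hA'e
  have hone : ∀ p : ℕ, p.Prime → ¬ (p : ℤ) ∣ 1 := by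
    intro p hp h
    have h6 : p ∣ 1 := by exact_mod_cast h
    exact hp.one_lt.ne' (Nat.dvd_one.1 h6)
  have hBn : ∀ x, B ∣ h.eval x - n₀ := by
    intro x
    rw [hh]
    exact ⟨(W + x) * (∑ i ∈ Finset.range m, (tt x) ^ i) * U, by ring⟩
  -- primes dividing K divide B and the modulus of the coprimality hypothesis
  have hKB : ∀ p : ℕ, p.Prime → (p : ℤ) ∣ K →
      (p : ℤ) ∣ c * d * Q * A * A' ∧ (p : ℤ) ∣ B := by
    intro p hp hpK
    have hpZ : Prime (p : ℤ) := Nat.prime_iff_prime_int.1 hp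
    have h1 : (p : ℤ) ∣ c ∨ (p : ℤ) ∣ d ∨ (p : ℤ) ∣ Q ∨ (p : ℤ) ∣ A * A' := by
      rw [hK, hB] at hpK
      rcases hpZ.dvd_or_dvd hpK with h2 | h2
      · rcases hpZ.dvd_or_dvd h2 with h2 | h2
        · exact Or.inl h2
        · exact Or.inr (Or.inl h2)
      · rcases hpZ.dvd_or_dvd h2 with h2 | h2
        · rcases hpZ.dvd_or_dvd h2 with h2 | h2
          · rcases hpZ.dvd_or_dvd h2 with h2 | h2
            · exact Or.inl h2
            · exact Or.inr (Or.inl h2)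
          · exact Or.inr (Or.inr (Or.inl h2))
        · exact Or.inr (Or.inr (Or.inr (hpZ.dvd_of_dvd_pow h2)))
    rw [hB]
    rcases h1 with h1 | h1 | h1 | h1
    · exact ⟨h1.trans ⟨d * Q * A * A', by ring⟩, h1.trans ⟨d * Q * (A * A') ^ 2, by ring⟩⟩
    · exact ⟨h1.trans ⟨c * Q * A * A', by ring⟩, h1.trans ⟨c * Q * (A * A') ^ 2, by ring⟩⟩
    · exact ⟨h1.trans ⟨c * d * A * A', by ring⟩, h1.trans ⟨c * d * (A * A') ^ 2, by ring⟩⟩
    · exact ⟨h1.trans ⟨c * d * Q, by ring⟩, h1.trans ⟨c * d * Q * (A * A'), by ring⟩⟩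
  -- primes dividing n or a + d n do not divide K
  have hnK : ∀ x, ∀ p : ℕ, p.Prime → ((p : ℤ) ∣ h.eval x * (a + d * h.eval x)) →
      ¬ (p : ℤ) ∣ K := by
    intro x p hp hdiv hpK
    have hpB := hKB p hp hpK
    have h2 : (p : ℤ) ∣ h.eval x - n₀ := hpB.2.trans (hBn x)
    have h3 : (p : ℤ) ∣ n₀ * (a + d * n₀) := by
      obtain ⟨v, hv⟩ := h2
      have h4 : h.eval x = n₀ + p * v := by linear_combination hv
      rw [h4] at hdiv
      have h5 : (n₀ + p * v) * (a + d * (n₀ + p * v)) =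
          n₀ * (a + d * n₀) + p * (v * (a + d * (n₀ + p * v)) + n₀ * d * v) := by ring
      rw [h5] at hdiv
      exact (Int.dvd_add_left (dvd_mul_right _ _)).1 hdiv
    exact hone p hp ((hcop.isUnit_of_dvd' h3 hpB.1).dvd)
  have hAK : ∀ p : ℕ, p.Prime → ¬ (p : ℤ) ∣ K → ¬ (p : ℤ) ∣ A ∧ ¬ (p : ℤ) ∣ A' := by
    intro p hp hpK
    refine ⟨fun h1 => hpK ?_, fun h1 => hpK ?_⟩
    · rw [hK, hB]; exact h1.trans ⟨c * d * (c * d * Q * (A * A'^2)), by ring⟩
    · rw [hK, hB]; exact h1.trans ⟨c * d * (c * d * Q * (A ^ 2 * A')), by ring⟩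
  -- the product polynomial
  obtain ⟨f, hf⟩ : ∃ f : Polynomial ℤ, ∀ x : ℤ, f.eval x = h.eval x * (a + d * h.eval x) :=
    ⟨h * (Polynomial.C a + Polynomial.C (d : ℤ) * h), fun m => by
      simp [Polynomial.eval_mul, Polynomial.eval_add]⟩
  have hloc : ∀ p : ℕ, p.Prime → ∃ x : ℤ, ¬ (p : ℤ) ∣ f.eval x := by
    intro p hp
    have hpZ : Prime (p : ℤ) := Nat.prime_iff_prime_int.1 hp
    by_cases hpK : (p : ℤ) ∣ K
    · refine ⟨0, ?_⟩
      rw [hf]
      intro hdiv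
      exact hnK 0 p hp hdiv hpK
    · -- choose x with p ∣ t
      have hcopK : IsCoprime (p : ℤ) K := (Prime.coprime_iff_not_dvd hpZ).2 hpK
      obtain ⟨u, v, huv⟩ := hcopK
      refine ⟨-W - v, ?_⟩
      rw [hf]
      intro hdiv
      have hpt : (p : ℤ) ∣ (tt (-W - v)) ^ m := by
        apply dvd_pow _ hm.ne'
        rw [htt]
        exact ⟨u, by linear_combination -huv⟩
      have hAA := hAK p hp hpK
      rcases hpZ.dvd_or_dvd hdiv with h5 | h5
      · apply hAA.1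
        have h6 : A = U * (tt (-W - v)) ^ m - c * d * h.eval (-W - v) := by
          linear_combination id1 (-W - v)
        rw [h6]
        exact dvd_sub (hpt.mul_left _) (h5.mul_left _)
      · apply hAA.2
        have h6 : A' = U * (tt (-W - v)) ^ m - c * (a + d * h.eval (-W - v)) := by
          linear_combination id2 (-W - v)
        rw [h6]
        exact dvd_sub (hpt.mul_left _) (h5.mul_left _)
  -- sieve
  obtain ⟨k, hk, hsieve⟩ := poly_sieve f hloc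
  refine ⟨1 / (k : ℝ), 2 ^ k, by positivity, ?_⟩
  rw [Set.infinite_iff_exists_gt]
  intro N
  obtain ⟨z, w, hNz, hz2, hz, hsize⟩ := hsieve (N + 1)
  have hw0 : (0 : ℤ) ≤ w := Int.natCast_nonneg w
  have hna : |a| + 1 < h.eval (w : ℤ) := by
    have ht1 : 1 ≤ tt (w : ℤ) := by
      rw [htt]
      have : 0 ≤ K * (W + w) := by positivity
      linarith
    have hS : 1 ≤ ∑ i ∈ Finset.range m, (tt (w : ℤ)) ^ i := by
      have h0 : ∀ i ∈ Finset.range m, 0 ≤ (tt (w : ℤ)) ^ i :=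
        fun i _ => pow_nonneg (by linarith) i
      have h1 := Finset.single_le_sum h0 (Finset.mem_range.2 hm)
      rw [pow_zero] at h1
      exact h1
    have h2 : W ≤ B * (W + w) * (∑ i ∈ Finset.range m, (tt (w : ℤ)) ^ i) * U := by
      have h3 : (1 : ℤ) * W ≤ B * (W + w) := by
        apply mul_le_mul (by omega) (by linarith) hWpos.le hBpos.le
      have h4 : 1 * W * 1 ≤ B * (W + w) * (∑ i ∈ Finset.range m, (tt (w : ℤ)) ^ i) := by
        apply mul_le_mul h3 hS (by norm_num) (by positivity)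
      have h5 : 1 * W * 1 * 1 ≤ B * (W + w) * (∑ i ∈ Finset.range m, (tt (w : ℤ)) ^ i) * U := by
        apply mul_le_mul h4 (by omega) (by norm_num) (by positivity)
      linarith
    rw [hh]
    have h6 : -|n₀| ≤ n₀ := neg_abs_le n₀
    linarith
  have habs : 0 ≤ |a| := abs_nonneg a
  obtain ⟨n, hn⟩ := Int.eq_ofNat_of_zero_le (by linarith : 0 ≤ h.eval (w : ℤ))
  have hnK' := hnK w
  rw [hf] at hsize hz
  rw [hn] at hna hsize hz hnK'
  have hn1 : (1 : ℤ) < n := by linarith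
  have hXpos : 1 ≤ a + d * (n : ℤ) := by
    have h1 : -|a| ≤ a := neg_abs_le a
    have h2 : (1 : ℤ) * n ≤ d * n := mul_le_mul_of_nonneg_right (by omega) (by linarith)
    linarith
  have hn0 : 0 < n := by
    have : (0 : ℤ) < n := by linarith
    exact_mod_cast this
  obtain ⟨hb1, hb2, hb3⟩ := pair_bounds z k hk hz2 n (a + d * n) hn0 (by linarith) hz hsize
  have hnz : (z : ℤ) ≤ n := (hb3 n hn1 (Or.inl dvd_rfl)).1
  have hNn : N < n := by
    have h1 : z ≤ n := by exact_mod_cast hnz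
    omega
  refine ⟨n, ⟨by omega, by linarith, ?_, hb1, hb2, ?_, ?_, ?_⟩, hNn⟩
  · have h1 : (Q : ℤ) ∣ B := by rw [hB]; exact ⟨c * d * (A * A') ^ 2, by ring⟩
    have h2 := h1.trans (hBn w)
    rw [hn] at h2
    exact h2
  · intro q hq hqd
    exact (hb3 q hq hqd).2
  · intro p hp hpn
    have h1 := id1 w
    rw [hn, hUe] at h1
    exact power_of p hp m hm _ _ _ _ _ hpn h1 (hAK p hp (hnK' p hp (hpn.mul_right _))).1
  · intro p hp hpn
    have h1 := id2 w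
    rw [hn, hUe] at h1
    have h2 := (hAK p hp (hnK' p hp (hpn.mul_left _))).2
    rw [← hA'e]
    exact power_of p hp m hm _ _ _ _ _ hpn h1 h2

end Pool.Agent.MP_8bf9c2_nt.PowerCore
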