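import Mathlib
import Pool.Agent.MP_8bf9c2_nt.PowerCore

/-!
# For every pair (a, d): one power residue condition on all prime factors of n and a + dn

With `U = 2ᵐ (a + d n₀) - d n₀` and `t ≡ 1` modulo a suitable number, the integer
`n = n₀ + (tᵐ - 1) U / ((2ᵐ - 1) d)` satisfies `(2ᵐ - 1) d n = U tᵐ - 2ᵐ a` and
`(2ᵐ - 1) (a + d n) = U tᵐ - a`, so `v = a^(m-1) U` is an `m`-th power modulo every prime factor
of `n` and of `a + d n`. A Brun-Hooley sieve removes all small prime factors.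
-/

set_option autoImplicit false

namespace Pool.Agent.MP_8bf9c2_nt.PowerAll

open Pool.Agent.MP_8bf9c2_nt.PowerCore

/-- a common choice of residues modulo finitely many primes, compatible with a class mod `Q` -/
theorem choose_class (a d Q n₁ : ℤ) (hloc : ∀ p : ℕ, p.Prime → ∃ x : ℤ, ¬ (p : ℤ) ∣ x * (a + d * x))
    (hn₁ : IsCoprime (n₁ * (a + d * n₁)) Q) (s : Finset ℕ) (hs : ∀ p ∈ s, p.Prime) :
    ∃ x : ℤ, Q ∣ x - n₁ ∧ ∀ p ∈ s, ¬ (p : ℤ) ∣ x * (a + d * x) := by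
  classical
  have hcong : ∀ (k x y : ℤ), k ∣ x - y → k ∣ x * (a + d * x) - y * (a + d * y) := by
    rintro k x y ⟨e, he⟩
    refine ⟨e * (a + d * (x + y)), ?_⟩
    have hx : x = y + k * e := by linear_combination he
    rw [hx]
    ring
  have hcong' : ∀ (k x y : ℤ), k ∣ x - y → k ∣ y * (a + d * y) → k ∣ x * (a + d * x) := by
    intro k x y h1 h2
    have h3 := dvd_add (hcong k x y h1) h2
    have h4 : x * (a + d * x) - y * (a + d * y) + y * (a + d * y) = x * (a + d * x) := by ring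
    rwa [h4] at h3
  induction s using Finset.induction_on with
  | empty => exact ⟨n₁, by simp, by simp⟩
  | insert q s hq ih =>
    obtain ⟨x, hxQ, hx⟩ := ih (fun p hp => hs p (Finset.mem_insert_of_mem hp))
    have hqp : q.Prime := hs q (Finset.mem_insert_self _ _)
    have hqZ : Prime (q : ℤ) := Nat.prime_iff_prime_int.1 hqp
    by_cases hqQ : (q : ℤ) ∣ Q
    · refine ⟨x, hxQ, fun p hp => ?_⟩
      rcases Finset.mem_insert.1 hp with rfl | hp
      · intro h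
        have h1 : (p : ℤ) ∣ n₁ - x := by
          have h2 := hqQ.trans hxQ
          have h3 : n₁ - x = -(x - n₁) := by ring
          rw [h3]
          exact (dvd_neg).2 h2
        have h2 := hcong' _ _ _ h1 h
        exact hqZ.not_isUnit (hn₁.isUnit_of_dvd' h2 hqQ)
      · exact hx p hp
    · obtain ⟨r, hr⟩ := hloc q hqp
      have hL : IsCoprime (Q * ∏ p ∈ s, (p : ℤ)) (q : ℤ) := by
        refine (IsCoprime.mul_left ?_ ?_).symm.symm
        · exact ((Prime.coprime_iff_not_dvd hqZ).2 hqQ).symm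
        · refine IsCoprime.prod_left fun p hp => ?_
          have hpp := hs p (Finset.mem_insert_of_mem hp)
          have hne : p ≠ q := fun h => hq (h ▸ hp)
          exact Nat.isCoprime_iff_coprime.2 ((Nat.coprime_primes hpp hqp).2 hne)
      obtain ⟨u, w, huw⟩ := hL
      refine ⟨x + (r - x) * (u * (Q * ∏ p ∈ s, (p : ℤ))), ?_, fun p hp => ?_⟩
      · have h1 : x + (r - x) * (u * (Q * ∏ p ∈ s, (p : ℤ))) - n₁ =
            (x - n₁) + Q * ((r - x) * (u * ∏ p ∈ s, (p : ℤ))) := by ring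
        rw [h1]
        exact dvd_add hxQ (dvd_mul_right _ _)
      · rcases Finset.mem_insert.1 hp with h | hp
        · rw [h]
          intro h1
          apply hr
          refine hcong' _ _ _ ?_ h1
          refine ⟨(r - x) * w, ?_⟩
          linear_combination (-(r - x)) * huw
        · intro h1
          apply hx p hp
          refine hcong' _ _ _ ?_ h1
          have h2 : (p : ℤ) ∣ ∏ p ∈ s, (p : ℤ) := Finset.dvd_prod_of_mem (fun p : ℕ => (p : ℤ)) hp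
          have h3 : x - (x + (r - x) * (u * (Q * ∏ p ∈ s, (p : ℤ)))) =
            (∏ p ∈ s, (p : ℤ)) * (-((r - x) * (u * Q))) := by ring
          rw [h3]
          exact h2.mul_right _

theorem all_pairs (a n₁ : ℤ) (d m Q B : ℕ) (hd : 0 < d) (ha : a ≠ 0) (had : IsCoprime a d)
    (h2 : 2 ∣ a * d) (hm : 0 < m) (hQ : 0 < Q) (hn₁ : IsCoprime (n₁ * (a + d * n₁)) Q) :
    ∃ (v : ℤ) (q R : ℕ) (δ : ℝ), q.Prime ∧ B < q ∧ (q : ℤ) ∣ v ∧ ¬ (q : ℤ) ^ 2 ∣ v ∧ 0 < δ ∧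
      Set.Infinite {n : ℕ | 0 < n ∧ 0 < a + d * n ∧ (Q : ℤ) ∣ n - n₁ ∧
        n.divisors.card ≤ R ∧ (a + d * n).natAbs.divisors.card ≤ R ∧
        (∀ s : ℤ, 1 < s → (s ∣ (n : ℤ) ∨ s ∣ a + d * n) →
          (n : ℝ) ^ δ < s ∧ ((a + d * n : ℤ) : ℝ) ^ δ < s) ∧
        ∀ p : ℕ, p.Prime → ((p : ℤ) ∣ n ∨ (p : ℤ) ∣ a + d * n) →
          ∃ x : ZMod p, x ^ m = (v : ZMod p)} := by
  have hdZ : (0 : ℤ) < d := by exact_mod_cast hd
  have hQZ : (0 : ℤ) < Q := by exact_mod_cast hQ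
  -- no fixed prime divisor
  have hloc : ∀ p : ℕ, p.Prime → ∃ x : ℤ, ¬ (p : ℤ) ∣ x * (a + d * x) := by
    intro p hp
    have hpZ : Prime (p : ℤ) := Nat.prime_iff_prime_int.1 hp
    by_contra hcon
    push Not at hcon
    have h1 := hcon 1
    have h3 := hcon (-1)
    have hpd : ¬ (p : ℤ) ∣ 1 := hpZ.not_dvd_one
    have h4 : (p : ℤ) ∣ a + d := by simpa using h1
    have h5 : (p : ℤ) ∣ a - d := by
      have h6 : (-1 : ℤ) * (a + d * (-1)) = -(a - d) := by ring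
      rw [h6] at h3
      exact (dvd_neg).1 h3
    have h6 : (p : ℤ) ∣ 2 * a := by
      have h7 : 2 * a = (a + d) + (a - d) := by ring
      rw [h7]; exact dvd_add h4 h5
    have h8 : (p : ℤ) ∣ 2 * d := by
      have h7 : 2 * (d : ℤ) = (a + d) - (a - d) := by ring
      rw [h7]; exact dvd_sub h4 h5
    obtain ⟨u, w, huw⟩ := had
    have h9 : (p : ℤ) ∣ 2 := by
      have h7 : (2 : ℤ) = u * (2 * a) + w * (2 * d) := by linear_combination -2 * huw
      rw [h7]; exact dvd_add (h6.mul_left _) (h8.mul_left _)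
    have h10 : p = 2 := by
      have h11 : p ∣ 2 := by exact_mod_cast h9
      exact (Nat.prime_dvd_prime_iff_eq hp Nat.prime_two).1 h11
    subst h10
    rcases Int.prime_two.dvd_or_dvd h2 with h12 | h12
    · have h13 : (2 : ℤ) ∣ d := by
        have h14 := dvd_sub h4 h12
        simpa using h14
      exact hpd (by
        have := dvd_add (h12.mul_left u) (h13.mul_left w)
        rwa [huw] at this)
    · have h13 : (2 : ℤ) ∣ a := by
        have h14 := dvd_sub h4 h12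
        simpa using h14
      exact hpd (by
        have := dvd_add (h13.mul_left u) (h12.mul_left w)
        rwa [huw] at this)
  -- numbers
  obtain ⟨c, hc⟩ : ∃ c : ℕ, c + 1 = 2 ^ m := ⟨2 ^ m - 1, Nat.sub_add_cancel Nat.one_le_two_pow⟩
  have hcpos : 0 < c := by
    have h3 : 2 ^ 1 ≤ 2 ^ m := Nat.pow_le_pow_right (by norm_num) hm
    omega
  have hcZ : (0 : ℤ) < c := by exact_mod_cast hcpos
  have hcZ' : (c : ℤ) + 1 = 2 ^ m := by exact_mod_cast hc
  obtain ⟨M, hM⟩ : ∃ M : ℤ, M = c * d * (2 * Q : ℕ) * (a * 2 ^ m) * (a * 2 ^ m - c * a) := ⟨_, rfl⟩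
  have hAA : a * 2 ^ m - c * a = a := by rw [← hcZ']; ring
  have hM0 : M ≠ 0 := by
    rw [hM, hAA]
    push_cast
    positivity
  obtain ⟨x₀, hx₀Q, hx₀⟩ := choose_class a d Q n₁ hloc hn₁ M.natAbs.primeFactors
    (fun p hp => Nat.prime_of_mem_primeFactors hp)
  -- a large prime q
  obtain ⟨q, hqB, hqp⟩ := Nat.exists_infinite_primes (B + M.natAbs + 1)
  have hqZ : Prime (q : ℤ) := Nat.prime_iff_prime_int.1 hqp
  have hqM : ¬ (q : ℤ) ∣ M := by
    intro h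
    have h3 : q ∣ M.natAbs := Int.natCast_dvd.1 h
    have h4 := Nat.le_of_dvd (Int.natAbs_pos.2 hM0) h3
    omega
  have hqcd : IsCoprime (M * (c * d)) ((q : ℤ) ^ 2) := by
    have h3 : ¬ (q : ℤ) ∣ M * (c * d) := by
      intro h
      rcases hqZ.dvd_or_dvd h with h | h
      · exact hqM h
      · apply hqM
        rw [hM]
        exact h.trans ⟨(2 * Q : ℕ) * (a * 2 ^ m) * (a * 2 ^ m - c * a), by ring⟩
    exact (((Prime.coprime_iff_not_dvd hqZ).2 h3).symm).pow_right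
  obtain ⟨u, w, huw⟩ := hqcd
  -- U(x) = 2^m a + c d x; want U = q mod q^2
  obtain ⟨e, he⟩ : ∃ e : ℤ, e = (q - (a * 2 ^ m + c * d * x₀)) * u := ⟨_, rfl⟩
  obtain ⟨T, hT⟩ : ∃ T : ℤ, T = |x₀ + e * M| + |a * 2 ^ m| + 1 := ⟨_, rfl⟩
  obtain ⟨n₀, hn₀⟩ : ∃ n₀ : ℤ, n₀ = x₀ + e * M + (M ^ 2 * q ^ 2) * T := ⟨_, rfl⟩
  obtain ⟨U, hU⟩ : ∃ U : ℤ, U = a * 2 ^ m + c * d * n₀ := ⟨_, rfl⟩
  have hUq : ∃ z : ℤ, U = q + (q : ℤ) ^ 2 * z := by
    refine ⟨-(q - (a * 2 ^ m + c * d * x₀)) * w + c * d * (M ^ 2 * T), ?_⟩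
    rw [hU, hn₀, he]
    linear_combination (q - (a * 2 ^ m + c * d * x₀)) * huw
  have hUpos : 0 < U := by
    have hTpos : 0 < T := by rw [hT]; positivity
    have h3 : (1 : ℤ) ≤ M ^ 2 * q ^ 2 := by
      have h4 : (0 : ℤ) < M ^ 2 * q ^ 2 := by
        have : (0 : ℤ) < q := by exact_mod_cast hqp.pos
        positivity
      omega
    have h5 : T ≤ (M ^ 2 * q ^ 2) * T := by nlinarith
    have h6 : -|x₀ + e * M| ≤ x₀ + e * M := neg_abs_le _
    have h7 : |a * 2 ^ m| + 1 ≤ n₀ := by rw [hn₀]; linarith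
    have h8 : (1 : ℤ) ≤ c * d := by
      have : (0 : ℤ) < c * d := by positivity
      omega
    have h9 : (0 : ℤ) ≤ |a * 2 ^ m| := abs_nonneg _
    have h10 : n₀ ≤ c * d * n₀ := by nlinarith
    have h11 : -|a * 2 ^ m| ≤ a * 2 ^ m := neg_abs_le _
    rw [hU]
    linarith
  have hMdiv : M ∣ n₀ - x₀ := ⟨e + M * q ^ 2 * T, by rw [hn₀]; ring⟩
  have hQM : (Q : ℤ) ∣ M := by
    rw [hM]
    push_cast
    exact ⟨c * d * 2 * (a * 2 ^ m) * (a * 2 ^ m - c * a), by ring⟩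
  have h2M : (2 : ℤ) ∣ M := by
    rw [hM]
    push_cast
    exact ⟨c * d * Q * (a * 2 ^ m) * (a * 2 ^ m - c * a), by ring⟩
  have hprim : ∀ p : ℕ, p.Prime → (p : ℤ) ∣ M → ¬ (p : ℤ) ∣ n₀ * (a + d * n₀) := by
    intro p hp hpM h
    have h3 : p ∈ M.natAbs.primeFactors :=
      Nat.mem_primeFactors.2 ⟨hp, Int.natCast_dvd.1 hpM, Int.natAbs_ne_zero.2 hM0⟩
    apply hx₀ p h3
    obtain ⟨z, hz⟩ := hpM.trans hMdiv
    have h4 : x₀ * (a + d * x₀) = n₀ * (a + d * n₀) - p * (z * (a + d * (n₀ + x₀))) := by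
      linear_combination (-(a + d * (n₀ + x₀))) * hz
    rw [h4]
    exact dvd_sub h (dvd_mul_right _ _)
  have hcop : IsCoprime (n₀ * (a + d * n₀)) M := by
    rw [Int.isCoprime_iff_gcd_eq_one]
    by_contra h
    obtain ⟨p, hp, hpd⟩ := Nat.exists_prime_and_dvd h
    have h3 : (p : ℤ) ∣ (Int.gcd (n₀ * (a + d * n₀)) M : ℤ) := by exact_mod_cast hpd
    exact hprim p hp (h3.trans (Int.gcd_dvd_right _ _)) (h3.trans (Int.gcd_dvd_left _ _))
  have hA0 : a * 2 ^ m ≠ 0 := by positivity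
  rw [hM] at hcop
  obtain ⟨δ, R, hδ, hinf⟩ := core a n₀ (a * 2 ^ m) d m c (2 * Q) hd hm hcpos (by omega) hA0
    (by rw [hAA]; exact ha) (by rw [← hU]; exact hUpos) hcop
  obtain ⟨z, hz⟩ := hUq
  have hqa : ¬ (q : ℤ) ∣ a := by
    intro h
    apply hqM
    rw [hM]
    exact h.trans ⟨c * d * (2 * Q : ℕ) * 2 ^ m * (a * 2 ^ m - c * a), by ring⟩
  refine ⟨a ^ (m - 1) * U, q, R, δ, hqp, by omega, ?_, ?_, hδ, ?_⟩
  · rw [hz]
    exact ⟨a ^ (m - 1) * (1 + q * z), by ring⟩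
  · intro h
    have h3 : (q : ℤ) ∣ a ^ (m - 1) * (1 + q * z) := by
      have h4 : a ^ (m - 1) * U = q * (a ^ (m - 1) * (1 + q * z)) := by rw [hz]; ring
      rw [h4, pow_two] at h
      exact (mul_dvd_mul_iff_left hqZ.ne_zero).1 h
    rcases hqZ.dvd_or_dvd h3 with h4 | h4
    · exact hqa (hqZ.dvd_of_dvd_pow h4)
    · have h5 : (q : ℤ) ∣ 1 := (Int.dvd_add_left (dvd_mul_right _ _)).1 h4
      exact hqZ.not_dvd_one h5
  · refine hinf.mono ?_
    rintro n ⟨hn, han, hnQ, hR1, hR2, hsz, hp1, hp2⟩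
    have hn0' : (2 * Q : ℤ) ∣ n - n₀ := by
      have := hnQ
      push_cast at this
      exact this
    have hQn : (Q : ℤ) ∣ n - n₁ := by
      have h3 : (Q : ℤ) ∣ n - n₀ := (Dvd.intro_left _ rfl : (Q : ℤ) ∣ 2 * Q).trans hn0'
      have h4 : (n : ℤ) - n₁ = (n - n₀) + (n₀ - x₀) + (x₀ - n₁) := by ring
      rw [h4]
      exact dvd_add (dvd_add h3 (hQM.trans hMdiv)) hx₀Q
    -- p is odd
    have hodd : ∀ p : ℕ, p.Prime → ((p : ℤ) ∣ n ∨ (p : ℤ) ∣ a + d * n) → ¬ (p : ℤ) ∣ 2 := by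
      intro p hp hpn hp2
      have h3 : p = 2 := by
        have h11 : p ∣ 2 := by exact_mod_cast hp2
        exact (Nat.prime_dvd_prime_iff_eq hp Nat.prime_two).1 h11
      have h4 : (p : ℤ) ∣ n * (a + d * n) := by
        rcases hpn with h | h
        · exact h.mul_right _
        · exact h.mul_left _
      have h5 : (p : ℤ) ∣ n - n₀ := hp2.trans ((Dvd.intro _ rfl : (2 : ℤ) ∣ 2 * Q).trans hn0')
      apply hprim p hp (hp2.trans h2M)
      obtain ⟨z', hz'⟩ := h5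
      have h6 : n₀ * (a + d * n₀) = n * (a + d * n) - p * (z' * (a + d * (n + n₀))) := by
        linear_combination (-(a + d * (n + n₀))) * hz'
      rw [h6]
      exact dvd_sub h4 (dvd_mul_right _ _)
    refine ⟨hn, han, hQn, hR1, hR2, hsz, ?_⟩
    intro p hp hpn
    have : Fact p.Prime := ⟨hp⟩
    rcases hpn with h | h
    · obtain ⟨x, hx⟩ := hp1 p hp h
      have h2p : ((2 : ℤ) : ZMod p) ≠ 0 := fun h0 =>
        hodd p hp (Or.inl h) ((ZMod.intCast_zmod_eq_zero_iff_dvd _ _).1 h0)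
      have h2p' : (2 : ZMod p) ≠ 0 := by exact_mod_cast h2p
      refine ⟨x / 2 ^ (m - 1), ?_⟩
      rw [div_pow, hx, div_eq_iff (pow_ne_zero _ (pow_ne_zero _ h2p')), ← hU]
      push_cast
      rw [mul_pow, ← pow_mul, ← pow_mul, mul_comm m (m - 1)]
      ring
    · obtain ⟨x, hx⟩ := hp2 p hp h
      refine ⟨x, ?_⟩
      rw [hx, ← hU, hAA]

end Pool.Agent.MP_8bf9c2_nt.PowerAll
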