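import Pool.Agent.MP_8bf9c2_nt.PowerAll
import Pool.Agent.PRD.Main

/-!
# For every pair (a, d): all prime factors of n and a + dn in one Chebotarev set of small density

With `U = 2ᵐ (a + d n₀) - d n₀` and `t ≡ 1` modulo a suitable number, the integer
`n = n₀ + (tᵐ - 1) U / ((2ᵐ - 1) d)` satisfies `(2ᵐ - 1) d n = U tᵐ - 2ᵐ a` and
`(2ᵐ - 1) (a + d n) = U tᵐ - a`, so `v = a^(m-1) U` is an `m`-th power modulo every prime factor
of `n` and of `a + d n`. A Brun-Hooley sieve removes all small prime factors, and the Frobenius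
density theorem bounds the density of the primes modulo which `v` is an `m`-th power.
-/

set_option autoImplicit false

namespace Pool.Agent.MP_8bf9c2_nt.PowerResidues

theorem result (a n₁ : ℤ) (d Q : ℕ) (ε : ℝ) (hd : 0 < d) (ha : a ≠ 0) (had : IsCoprime a d)
    (h2 : 2 ∣ a * d) (hQ : 0 < Q) (hn₁ : IsCoprime (n₁ * (a + d * n₁)) Q) (hε : 0 < ε) :
    ∃ (v : ℤ) (m R : ℕ) (δ C : ℝ), 0 < m ∧ 0 < δ ∧
      (∀ s : ℝ, 1 < s → s ≤ 2 →
        ∑' p : {p : ℕ | p.Prime ∧ ∃ x : ZMod p, x ^ m = (v : ZMod p)}, ((p : ℕ) : ℝ) ^ (-s) ≤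
          ε * Real.log (1 / (s - 1)) + C) ∧
      Set.Infinite {n : ℕ | 0 < n ∧ 0 < a + d * n ∧ (Q : ℤ) ∣ n - n₁ ∧
        n.divisors.card ≤ R ∧ (a + d * n).natAbs.divisors.card ≤ R ∧
        (∀ s : ℤ, 1 < s → (s ∣ (n : ℤ) ∨ s ∣ a + d * n) →
          (n : ℝ) ^ δ < s ∧ ((a + d * n : ℤ) : ℝ) ^ δ < s) ∧
        ∀ p : ℕ, p.Prime → ((p : ℤ) ∣ n ∨ (p : ℤ) ∣ a + d * n) →
          ∃ x : ZMod p, x ^ m = (v : ZMod p)} := by
  obtain ⟨m, hm0, hm⟩ := Pool.Agent.PRD.density_small ε hε
  obtain ⟨v, q, R, δ, hq, -, h3, h4, hδ, hinf⟩ :=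
    Pool.Agent.MP_8bf9c2_nt.PowerAll.all_pairs a n₁ d m Q 0 hd ha had h2 hm0 hQ hn₁
  obtain ⟨C, hC⟩ := hm v q hq h3 h4
  exact ⟨v, m, R, δ, C, hm0, hδ, hC, hinf⟩

end Pool.Agent.MP_8bf9c2_nt.PowerResidues

/-! Former claim file (hand-in withdrawn from Results, slot given to CubicChen):
Proves: Let a ≠ 0, n1 be integers, d, Q ≥ 1 integers with gcd(a,d) = 1, 2 | ad and n1(a+dn1) coprime to Q, and ε > 0; then there are an integer v, m, R ≥ 1, δ > 0 and C such that P = {p prime : v is an m-th power mod p} satisfies Σ_{p in P} p^(-s) ≤ ε log(1/(s-1)) + C for 1 < s ≤ 2, and for infinitely many positive n ≡ n1 mod Q one has a+dn > 0, n and a+dn have at most R positive divisors each, all divisors > 1 of n and of a+dn exceed n^δ and (a+dn)^δ, and all prime factors of n and of a+dn lie in P.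
Definitions: none
Relation: Partial answer to Q1, for EVERY pair (a,d) with a ≠ 0. Q1 asks that n and a+dn have no proper divisors; here both are almost primes and all their prime factors lie in one power residue (Chebotarev) set P of upper Dirichlet density ≤ ε. Brun's and Chen's theorems give the size but do not control the splitting of the factors; as a sieve problem this has dimension near 2, out of reach of sieves alone. Proof: for suitable n0, U = 2^m(a+dn0)-dn0 and t = 1 mod a suitable number, n = n0+(t^m-1)U/((2^m-1)d) satisfies (2^m-1)dn = Ut^m-2^m a, (2^m-1)(a+dn) = Ut^m-a, so v = a^(m-1)U is an m-th power mod every p | n(a+dn); a Brun-Hooley sieve and the Frobenius density theorem (P has density prod (1-1/l) over the primes l | m, m odd squarefree), both formalised from scratch. To our knowledge new.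
-/
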