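import Mathlib
import Pool.Agent.MP_8bf9c2_nt.PolySieve

/-!
# For every pair (a, d): two independent quadratic conditions on all prime factors of n and a + dn

With `x₁ = 2as - 1`, `x₂ = 2as + 1` and `t ≡ 1` modulo a suitable number, the integer
`n = n₀ t² + (t² - 1)(t² - x₁²)/(8sd)` satisfies
`8sd n = (t² + x₁)² - 4((as)² - 2sd n₀) t² = (t² - x₁)² - 4((as-1)² - 2sd n₀) t²` and
`8s(a + dn) = (t² - x₂)² - 4((as)² - 2s(a + d n₀)) t² = (t² + x₂)² - 4((as+1)² - 2s(a + d n₀)) t²`.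
A sieve then removes all small prime factors.
-/

set_option autoImplicit false

namespace Pool.Agent.Results.MP_8bf9c2_nt.QuarterDensity

open Pool.Agent.MP_8bf9c2_nt.PolySieve

/-- if `p ∣ m`, `8 c m = x² - 4 u t²` and `p ∤ t` then `u` is a square modulo `p` -/
theorem isSquare_of (p : ℕ) (hp : p.Prime) (m c x u t : ℤ) (hpm : (p : ℤ) ∣ m)
    (h : 8 * c * m = x ^ 2 - 4 * u * t ^ 2) (hpt : ¬ (p : ℤ) ∣ t) :
    IsSquare ((u : ℤ) : ZMod p) := by
  have : Fact p.Prime := ⟨hp⟩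
  rcases eq_or_ne p 2 with rfl | hp2
  · generalize ((u : ℤ) : ZMod 2) = v
    revert v; decide
  have hm : ((m : ℤ) : ZMod p) = 0 := (ZMod.intCast_zmod_eq_zero_iff_dvd _ _).2 hpm
  have ht : ((t : ℤ) : ZMod p) ≠ 0 := fun h0 => hpt ((ZMod.intCast_zmod_eq_zero_iff_dvd _ _).1 h0)
  have h2 : (2 : ZMod p) ≠ 0 := by
    intro h0
    have h1 : ((2 : ℕ) : ZMod p) = 0 := by exact_mod_cast h0
    rw [ZMod.natCast_eq_zero_iff] at h1
    exact hp2 ((Nat.prime_dvd_prime_iff_eq hp Nat.prime_two).1 h1)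
  have h3 := congrArg (fun z : ℤ => (z : ZMod p)) h
  push_cast at h3
  rw [hm] at h3
  refine ⟨(x : ZMod p) / (2 * t), ?_⟩
  field_simp
  linear_combination h3

theorem size_lemma (c X t n₀ N : ℤ) (hc : 1 ≤ c) (hN : 0 ≤ N)
    (ht : 1 + (1 + X ^ 2 + c * (|n₀| + N + 1)) ≤ t) :
    c * N < c * n₀ * t ^ 2 + (t ^ 2 - 1) * (t ^ 2 - X ^ 2) := by
  have habs : 0 ≤ |n₀| := abs_nonneg _
  set A : ℤ := |n₀| + N + 1 with hA
  have hA1 : 1 ≤ A := by linarith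
  have hcA : 0 ≤ c * A := mul_nonneg (by linarith) (by linarith)
  have hX : 0 ≤ X ^ 2 := sq_nonneg X
  have ht1 : 1 ≤ t := by linarith
  have htt : t ≤ t ^ 2 := by
    have : t * 1 ≤ t * t := mul_le_mul_of_nonneg_left ht1 (by linarith)
    linarith [sq t]
  have h1 : c * A + 1 ≤ t ^ 2 - X ^ 2 := by linarith
  have h2 : c * A ≤ t ^ 2 - 1 := by linarith
  have h3 : (t ^ 2 - 1) * (c * A + 1) ≤ (t ^ 2 - 1) * (t ^ 2 - X ^ 2) :=
    mul_le_mul_of_nonneg_left h1 (by linarith)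
  have h4 : (t ^ 2 - 1) * (c * A + 1) = c * |n₀| * t ^ 2 + c * N * t ^ 2 + c * t ^ 2
      + (t ^ 2 - 1 - c * A) := by rw [hA]; ring
  have h5 : c * t ^ 2 * (-|n₀|) ≤ c * t ^ 2 * n₀ :=
    mul_le_mul_of_nonneg_left (neg_abs_le _) (mul_nonneg (by linarith) (sq_nonneg t))
  have h6 : c * N * 1 ≤ c * N * t ^ 2 :=
    mul_le_mul_of_nonneg_left (by linarith) (mul_nonneg (by linarith) hN)
  have h7 : 0 < c * t ^ 2 := mul_pos (by linarith) (by linarith)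
  linarith

theorem one_le_mul' (s d : ℤ) (hs : 0 < s) (hd : 0 < d) : 1 ≤ s * d := by
  have := mul_pos hs hd
  omega

theorem result (a n₀ : ℤ) (d s Q : ℕ) (hd : 0 < d) (hs : 0 < s) (hQ : 0 < Q)
    (hcop : IsCoprime (n₀ * (a + d * n₀)) (2 * d * s * Q * (4 * a ^ 2 * s ^ 2 - 1))) :
    ∃ (δ : ℝ) (R : ℕ), 0 < δ ∧ Set.Infinite {n : ℕ | 0 < n ∧ 0 < a + d * n ∧ (Q : ℤ) ∣ n - n₀ ∧
      n.divisors.card ≤ R ∧ (a + d * n).natAbs.divisors.card ≤ R ∧
      (∀ q : ℤ, 1 < q → (q ∣ (n : ℤ) ∨ q ∣ a + d * n) →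
        (n : ℝ) ^ δ < q ∧ ((a + d * n : ℤ) : ℝ) ^ δ < q) ∧
      (∀ p : ℕ, p.Prime → (p : ℤ) ∣ n →
        IsSquare (((a * s) ^ 2 - 2 * s * d * n₀ : ℤ) : ZMod p) ∧
        IsSquare (((a * s - 1) ^ 2 - 2 * s * d * n₀ : ℤ) : ZMod p)) ∧
      (∀ p : ℕ, p.Prime → (p : ℤ) ∣ a + d * n →
        IsSquare (((a * s) ^ 2 - 2 * s * (a + d * n₀) : ℤ) : ZMod p) ∧
        IsSquare (((a * s + 1) ^ 2 - 2 * s * (a + d * n₀) : ℤ) : ZMod p))} := by
  obtain ⟨x₁, hx₁⟩ : ∃ v : ℤ, v = 2 * a * s - 1 := ⟨_, rfl⟩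
  obtain ⟨x₂, hx₂⟩ : ∃ v : ℤ, v = 2 * a * s + 1 := ⟨_, rfl⟩
  have hx₁0 : x₁ ≠ 0 := by
    intro h
    have : (2 : ℤ) ∣ 1 := ⟨a * s, by linear_combination h.symm + hx₁⟩
    omega
  have hx₂0 : x₂ ≠ 0 := by
    intro h
    have : (2 : ℤ) ∣ 1 := ⟨-(a * s), by linear_combination h - hx₂⟩
    omega
  have hxx : 4 * a ^ 2 * s ^ 2 - 1 = x₁ * x₂ := by rw [hx₁, hx₂]; ring
  have hdZ : (0 : ℤ) < d := by exact_mod_cast hd
  have hsZ : (0 : ℤ) < s := by exact_mod_cast hs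
  have hQZ : (0 : ℤ) < Q := by exact_mod_cast hQ
  -- K = 8 s d B
  obtain ⟨B, hB⟩ : ∃ v : ℤ, v = 2 * s * d * Q * (x₁ * x₂) ^ 2 := ⟨_, rfl⟩
  obtain ⟨K, hK⟩ : ∃ v : ℤ, v = 8 * s * d * B := ⟨_, rfl⟩
  have hx : (0 : ℤ) < (x₁ * x₂) ^ 2 := by positivity
  have hBpos : 0 < B := by rw [hB]; positivity
  have hKpos : 0 < K := by rw [hK]; positivity
  obtain ⟨W, hW⟩ : ∃ v : ℤ, v = 1 + x₁ ^ 2 + 8 * s * d * (|n₀| + (|a| + 1) + 1) := ⟨_, rfl⟩
  have hWpos : 0 < W := by rw [hW]; positivity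
  have hKW : W ≤ K * W := by
    have h1 : 1 * W ≤ K * W := mul_le_mul_of_nonneg_right (by omega) hWpos.le
    linarith
  -- t(w) = 1 + K (W + w),  n(w) = n₀ t² + B (W + w)(K (W + w) + 2)(t² - x₁²)
  obtain ⟨tt, htt⟩ : ∃ g : ℤ → ℤ, ∀ w, g w = 1 + K * (W + w) := ⟨_, fun w => rfl⟩
  obtain ⟨h, hh⟩ : ∃ h : Polynomial ℤ, ∀ w : ℤ, h.eval w =
      n₀ * (tt w) ^ 2 + B * ((W + w) * (K * (W + w) + 2)) * ((tt w) ^ 2 - x₁ ^ 2) := by
    open Polynomial in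
    refine ⟨C n₀ * (1 + C K * (C W + X)) ^ 2 + C B * ((C W + X) * (C K * (C W + X) + 2)) *
      ((1 + C K * (C W + X)) ^ 2 - C x₁ ^ 2), fun w => ?_⟩
    rw [htt]
    simp only [eval_add, eval_mul, eval_C, eval_X, eval_pow, eval_one, eval_sub, eval_ofNat]
  have hm8 : ∀ w, 8 * s * d * h.eval w =
      8 * s * d * n₀ * (tt w) ^ 2 + ((tt w) ^ 2 - 1) * ((tt w) ^ 2 - x₁ ^ 2) := by
    intro w
    have h1 : (tt w) ^ 2 - 1 = 8 * s * d * (B * ((W + w) * (K * (W + w) + 2))) := by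
      rw [htt, hK]; ring
    rw [hh, h1]; ring
  have id1 : ∀ w, 8 * (s * d) * h.eval w =
      ((tt w) ^ 2 + x₁) ^ 2 - 4 * ((a * s) ^ 2 - 2 * s * d * n₀) * (tt w) ^ 2 := by
    intro w
    have : 8 * (s * d : ℤ) * h.eval w = 8 * s * d * h.eval w := by ring
    rw [this, hm8, hx₁]; ring
  have id2 : ∀ w, 8 * (s * d) * h.eval w =
      ((tt w) ^ 2 - x₁) ^ 2 - 4 * ((a * s - 1) ^ 2 - 2 * s * d * n₀) * (tt w) ^ 2 := by
    intro w
    have : 8 * (s * d : ℤ) * h.eval w = 8 * s * d * h.eval w := by ring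
    rw [this, hm8, hx₁]; ring
  have id3 : ∀ w, 8 * s * (a + d * h.eval w)
      = ((tt w) ^ 2 - x₂) ^ 2 - 4 * ((a * s) ^ 2 - 2 * s * (a + d * n₀)) * (tt w) ^ 2 := by
    intro w
    have : 8 * (s : ℤ) * (a + d * h.eval w) = 8 * s * a + 8 * s * d * h.eval w := by ring
    rw [this, hm8, hx₁, hx₂]; ring
  have id4 : ∀ w, 8 * s * (a + d * h.eval w)
      = ((tt w) ^ 2 + x₂) ^ 2 - 4 * ((a * s + 1) ^ 2 - 2 * s * (a + d * n₀)) * (tt w) ^ 2 := by
    intro w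
    have : 8 * (s : ℤ) * (a + d * h.eval w) = 8 * s * a + 8 * s * d * h.eval w := by ring
    rw [this, hm8, hx₁, hx₂]; ring
  have hone : ∀ p : ℕ, p.Prime → ¬ (p : ℤ) ∣ 1 := by
    intro p hp h
    have h6 : p ∣ 1 := by exact_mod_cast h
    exact hp.one_lt.ne' (Nat.dvd_one.1 h6)
  -- divisibility by B
  have hBn : ∀ w, B ∣ h.eval w - n₀ := by
    intro w
    rw [hh]
    have h1 : (tt w) ^ 2 = 1 + B * (8 * s * d * (W + w) * (2 + K * (W + w))) := by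
      rw [htt, hK]; ring
    refine ⟨n₀ * (8 * s * d * (W + w) * (2 + K * (W + w))) +
      ((W + w) * (K * (W + w) + 2)) * ((tt w) ^ 2 - x₁ ^ 2), ?_⟩
    have h2 : n₀ * (tt w) ^ 2 = n₀ + n₀ * (B * (8 * s * d * (W + w) * (2 + K * (W + w)))) := by
      rw [h1]; ring
    rw [h2]; ring
  -- primes dividing n or a + d n do not divide t
  have hnt : ∀ w, ∀ p : ℕ, p.Prime → ((p : ℤ) ∣ h.eval w ∨ (p : ℤ) ∣ a + d * h.eval w) →
      ¬ (p : ℤ) ∣ tt w := by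
    intro w p hp hpm hpt
    have hpZ : Prime (p : ℤ) := Nat.prime_iff_prime_int.1 hp
    have hpt2 : (p : ℤ) ∣ (tt w) ^ 2 := dvd_pow hpt two_ne_zero
    have hkey : (p : ℤ) ∣ x₁ ∨ (p : ℤ) ∣ x₂ := by
      rcases hpm with h5 | h5
      · left
        have h1 : (p : ℤ) ∣ x₁ ^ 2 := by
          have h2 : x₁ ^ 2 = 8 * (s * d) * h.eval w -
              (tt w) ^ 2 * ((tt w) ^ 2 + 2 * x₁ - 4 * ((a * s) ^ 2 - 2 * s * d * n₀)) := by
            rw [id1]; ring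
          rw [h2]
          exact dvd_sub (h5.mul_left _) (hpt2.mul_right _)
        exact hpZ.dvd_of_dvd_pow h1
      · right
        have h1 : (p : ℤ) ∣ x₂ ^ 2 := by
          have h2 : x₂ ^ 2 = 8 * s * (a + d * h.eval w) -
              (tt w) ^ 2 * ((tt w) ^ 2 - 2 * x₂ - 4 * ((a * s) ^ 2 - 2 * s * (a + d * n₀))) := by
            rw [id3]; ring
          rw [h2]
          exact dvd_sub (h5.mul_left _) (hpt2.mul_right _)
        exact hpZ.dvd_of_dvd_pow h1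
    have hpK : (p : ℤ) ∣ K := by
      have h1 : (p : ℤ) ∣ (x₁ * x₂) ^ 2 := by
        apply dvd_pow _ two_ne_zero
        rcases hkey with h | h
        · exact h.mul_right _
        · exact h.mul_left _
      rw [hK, hB]; exact (h1.mul_left _).mul_left _
    apply hone p hp
    have h1 : (p : ℤ) ∣ 1 + K * (W + w) := by rw [← htt]; exact hpt
    exact (Int.dvd_add_left (hpK.mul_right (W + w))).1 h1
  -- the product polynomial
  obtain ⟨f, hf⟩ : ∃ f : Polynomial ℤ, ∀ w : ℤ, f.eval w = h.eval w * (a + d * h.eval w) :=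
    ⟨h * (Polynomial.C a + Polynomial.C (d : ℤ) * h), fun m => by
      simp [Polynomial.eval_mul, Polynomial.eval_add]⟩
  have hloc : ∀ p : ℕ, p.Prime → ∃ w : ℤ, ¬ (p : ℤ) ∣ f.eval w := by
    intro p hp
    have hpZ : Prime (p : ℤ) := Nat.prime_iff_prime_int.1 hp
    by_cases hpK : (p : ℤ) ∣ K
    · refine ⟨0, ?_⟩
      rw [hf]
      intro hdiv
      -- p divides B
      have hpB : (p : ℤ) ∣ 2 * d * s * Q * (4 * a ^ 2 * s ^ 2 - 1) ∧ (p : ℤ) ∣ B := by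
        have h1 : (p : ℤ) ∣ 2 ∨ (p : ℤ) ∣ s ∨ (p : ℤ) ∣ d ∨ (p : ℤ) ∣ Q ∨ (p : ℤ) ∣ x₁ * x₂ := by
          have h8 : (p : ℤ) ∣ 8 → (p : ℤ) ∣ 2 := by
            intro h
            have h2 : (p : ℤ) ∣ 2 ^ 3 := by norm_num; exact h
            exact hpZ.dvd_of_dvd_pow h2
          rw [hK, hB] at hpK
          rcases hpZ.dvd_or_dvd hpK with h2 | h2
          · rcases hpZ.dvd_or_dvd h2 with h2 | h2
            · rcases hpZ.dvd_or_dvd h2 with h2 | h2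
              · exact Or.inl (h8 h2)
              · exact Or.inr (Or.inl h2)
            · exact Or.inr (Or.inr (Or.inl h2))
          · rcases hpZ.dvd_or_dvd h2 with h2 | h2
            · rcases hpZ.dvd_or_dvd h2 with h2 | h2
              · rcases hpZ.dvd_or_dvd h2 with h2 | h2
                · rcases hpZ.dvd_or_dvd h2 with h2 | h2
                  · exact Or.inl h2
                  · exact Or.inr (Or.inl h2)
                · exact Or.inr (Or.inr (Or.inl h2))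
              · exact Or.inr (Or.inr (Or.inr (Or.inl h2)))
            · exact Or.inr (Or.inr (Or.inr (Or.inr (hpZ.dvd_of_dvd_pow h2))))
        rw [hxx, hB]
        rcases h1 with h1 | h1 | h1 | h1 | h1
        · exact ⟨h1.trans ⟨d * s * Q * (x₁ * x₂), by ring⟩,
            h1.trans ⟨s * d * Q * (x₁ * x₂) ^ 2, by ring⟩⟩
        · exact ⟨h1.trans ⟨2 * d * Q * (x₁ * x₂), by ring⟩,
            h1.trans ⟨2 * d * Q * (x₁ * x₂) ^ 2, by ring⟩⟩
        · exact ⟨h1.trans ⟨2 * s * Q * (x₁ * x₂), by ring⟩,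
            h1.trans ⟨2 * s * Q * (x₁ * x₂) ^ 2, by ring⟩⟩
        · exact ⟨h1.trans ⟨2 * d * s * (x₁ * x₂), by ring⟩,
            h1.trans ⟨2 * s * d * (x₁ * x₂) ^ 2, by ring⟩⟩
        · exact ⟨h1.trans ⟨2 * d * s * Q, by ring⟩,
            h1.trans ⟨2 * s * d * Q * (x₁ * x₂), by ring⟩⟩
      have h2 : (p : ℤ) ∣ h.eval 0 - n₀ := hpB.2.trans (hBn 0)
      have h3 : (p : ℤ) ∣ n₀ * (a + d * n₀) := by
        obtain ⟨v, hv⟩ := h2
        have h4 : h.eval 0 = n₀ + p * v := by linear_combination hv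
        rw [h4] at hdiv
        have h5 : (n₀ + p * v) * (a + d * (n₀ + p * v)) =
            n₀ * (a + d * n₀) + p * (v * (a + d * (n₀ + p * v)) + n₀ * d * v) := by ring
        rw [h5] at hdiv
        exact (Int.dvd_add_left (dvd_mul_right _ _)).1 hdiv
      exact hone p hp ((hcop.isUnit_of_dvd' h3 hpB.1).dvd)
    · -- choose w with p ∣ t
      have hcopK : IsCoprime (p : ℤ) K := (Prime.coprime_iff_not_dvd hpZ).2 hpK
      obtain ⟨u, v, huv⟩ := hcopK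
      refine ⟨-W - v, ?_⟩
      rw [hf]
      intro hdiv
      have hpt : (p : ℤ) ∣ tt (-W - v) := by
        rw [htt]
        exact ⟨u, by linear_combination -huv⟩
      rcases hpZ.dvd_or_dvd hdiv with h5 | h5
      · exact hnt _ p hp (Or.inl h5) hpt
      · exact hnt _ p hp (Or.inr h5) hpt
  -- sieve
  obtain ⟨k, hk, hsieve⟩ := poly_sieve f hloc
  refine ⟨1 / (k : ℝ), 2 ^ k, by positivity, ?_⟩
  rw [Set.infinite_iff_exists_gt]
  intro N
  obtain ⟨z, w, hNz, hz2, hz, hsize⟩ := hsieve (N + 1)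
  have hw0 : (0 : ℤ) ≤ w := Int.natCast_nonneg w
  have hna : |a| + 1 < h.eval (w : ℤ) := by
    have hc : (1 : ℤ) ≤ 8 * s * d := by
      have h1 : (1 : ℤ) ≤ s * d := one_le_mul' _ _ hsZ hdZ
      linarith
    have h1 : (8 * s * d : ℤ) * (|a| + 1) < 8 * s * d * h.eval (w : ℤ) := by
      rw [hm8]
      apply size_lemma (8 * s * d) x₁ (tt w) n₀ (|a| + 1) hc (by positivity)
      rw [htt]
      have h2 : K * (W + w) = K * W + K * w := by ring
      have h3 : 0 ≤ K * (w : ℤ) := mul_nonneg hKpos.le hw0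
      rw [h2, ← hW]
      linarith
    exact lt_of_mul_lt_mul_left h1 (by linarith)
  have habs : 0 ≤ |a| := abs_nonneg a
  obtain ⟨n, hn⟩ := Int.eq_ofNat_of_zero_le (by linarith : 0 ≤ h.eval (w : ℤ))
  rw [hf] at hsize hz
  rw [hn] at hna hsize hz
  have hn1 : (1 : ℤ) < n := by linarith
  have hXpos : 1 ≤ a + d * (n : ℤ) := by
    have h1 : -|a| ≤ a := neg_abs_le a
    have h2 : (1 : ℤ) * n ≤ d * n := mul_le_mul_of_nonneg_right (by omega) (by linarith)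
    linarith
  have hn0 : 0 < n := by
    have : (0 : ℤ) < n := by linarith
    exact_mod_cast this
  obtain ⟨hb1, hb2, hb3⟩ := pair_bounds z k hk hz2 n (a + d * n) hn0 (by linarith) hz hsize
  have hnz : (z : ℤ) ≤ n := (hb3 n hn1 (Or.inl dvd_rfl)).1
  have hNn : N < n := by
    have h1 : z ≤ n := by exact_mod_cast hnz
    omega
  refine ⟨n, ⟨by omega, by linarith, ?_, hb1, hb2, ?_, ?_, ?_⟩, hNn⟩
  · have h1 : (Q : ℤ) ∣ B := by rw [hB]; exact ⟨2 * s * d * (x₁ * x₂) ^ 2, by ring⟩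
    have h2 := h1.trans (hBn w)
    rw [hn] at h2
    exact h2
  · intro q hq hqd
    exact (hb3 q hq hqd).2
  · intro p hp hpn
    have h0 := hnt w p hp (Or.inl (by rw [hn]; exact hpn))
    have h1 := id1 w
    have h2 := id2 w
    rw [hn] at h1 h2
    exact ⟨isSquare_of p hp _ (s * d) _ _ _ hpn h1 h0,
      isSquare_of p hp _ (s * d) _ _ _ hpn h2 h0⟩
  · intro p hp hpn
    have h0 := hnt w p hp (Or.inr (by rw [hn]; exact hpn))
    have h1 := id3 w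
    have h2 := id4 w
    rw [hn] at h1 h2
    exact ⟨isSquare_of p hp _ s _ _ _ hpn h1 h0,
      isSquare_of p hp _ s _ _ _ hpn h2 h0⟩

end Pool.Agent.Results.MP_8bf9c2_nt.QuarterDensity
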